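import Pool.Agent.Lib.MP_1f66ea_an.Main

/-!
# The curvature measures of the wedge bodies
-/

namespace Pool.Agent.Lib.MP_1f66ea_an

open scoped RealInnerProductSpace ENNReal Pointwise
open Set MeasureTheory Metric

variable {V : Type*} [NormedAddCommGroup V] [InnerProductSpace ℝ V] {F : Frame V} {P : Params}

/-! ### Measurability -/

section meas

variable [FiniteDimensional ℝ V] [MeasurableSpace V] [BorelSpace V]

lemma measurable_R : Measurable P.R := P.continuous_R.measurable
lemma measurable_mu : Measurable P.mu := P.continuous_mu.measurable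
lemma measurable_R1 : Measurable P.R1 := by
  unfold Params.R1
  fun_prop
lemma measurable_R2 : Measurable P.R2 := by
  unfold Params.R2
  fun_prop

omit [FiniteDimensional ℝ V] in
@[fun_prop] lemma measurable_x : Measurable (fun q => F.x q) := F.x.continuous.measurable
omit [FiniteDimensional ℝ V] in
@[fun_prop] lemma measurable_y : Measurable (fun q => F.y q) := F.y.continuous.measurable
omit [FiniteDimensional ℝ V] in
@[fun_prop] lemma measurable_z : Measurable (fun q => F.z q) := F.z.continuous.measurable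

omit [FiniteDimensional ℝ V] in
lemma measurable_rho : Measurable (rho F) := by
  have : Continuous (rho F) := by unfold rho; fun_prop
  exact this.measurable

omit [FiniteDimensional ℝ V] in
lemma measurable_muz : Measurable (fun q => P.mu (F.z q)) := measurable_mu.comp measurable_z
omit [FiniteDimensional ℝ V] in
lemma measurable_R1z : Measurable (fun q => P.R1 (F.z q)) := measurable_R1.comp measurable_z

omit [FiniteDimensional ℝ V] in
lemma measurable_T : Measurable (T F P) := by
  unfold T gm
  exact (measurable_rho.pow_const _).mul (measurable_muz.pow_const _)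

omit [FiniteDimensional ℝ V] in
lemma measurable_f : Measurable (f F P) :=
  (measurable_rho.add_const 2).sub measurable_T

omit [FiniteDimensional ℝ V] in
lemma measurable_phi : Measurable (phi F P) :=
  (measurable_const.sub ((measurable_T.const_mul _).div measurable_rho)).div measurable_rho

omit [FiniteDimensional ℝ V] in
lemma measurable_Zf : Measurable (Zf F P) :=
  (((measurable_T.div measurable_muz).const_mul _).mul measurable_R1z).neg

omit [FiniteDimensional ℝ V] in
lemma measurable_Yf : Measurable (Yf F P) :=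
  (measurable_phi.const_add 2).sub (((measurable_T.div measurable_muz).const_mul _).mul
    (measurable_muz.sub ((measurable_z.const_mul _).mul measurable_R1z)))

lemma measurable_u : Measurable (u F P) :=
  ((measurable_phi.smul measurable_x).add (measurable_Yf.smul_const _)).add
    (measurable_Zf.smul_const _)

lemma measurable_vv : Measurable (vv F P) :=
  (measurable_x.add_const _).add ((measurable_z.const_mul _).smul_const _)

end meas

/-! ### The two polar formulas -/

lemma vv_ne_zero (q : V) : vv F P q ≠ 0 := by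
  intro h
  have := y_vv (F := F) (P := P) q
  rw [h, map_zero] at this
  exact zero_ne_one this

lemma u_inj {q q' : V} (hq : q ∈ Strip F) (hq' : q' ∈ Strip F) {c : ℝ} (hc : 0 < c)
    (h : u F P q = c • u F P q') : F.x q = F.x q' ∧ F.z q = F.z q' := by
  by_contra hne
  have hne' : F.x q ≠ F.x q' ∨ F.z q ≠ F.z q' := by tauto
  have hne'' : F.x q' ≠ F.x q ∨ F.z q' ≠ F.z q := by
    rcases hne' with h | h
    · exact Or.inl h.symm
    · exact Or.inr h.symm
  have h1 := inner_u_vv_lt (P := P) hq hq' hne'
  have h2 := inner_u_vv_lt (P := P) hq' hq hne''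
  rw [h, inner_smul_left, inner_u_vv_self hq'] at h1
  have h3 : ⟪u F P q', vv F P q⟫ = c⁻¹ * f F P q := by
    have : u F P q' = c⁻¹ • u F P q := by rw [h, smul_smul, inv_mul_cancel₀ hc.ne', one_smul]
    rw [this, inner_smul_left, inner_u_vv_self hq]; simp
  rw [h3] at h2
  simp only [conj_trivial] at h1
  have hf := f_pos (P := P) hq
  have hf' := f_pos (P := P) hq'
  have h4 : c < 1 := by nlinarith
  have h5 : c⁻¹ < 1 := by nlinarith
  have h6 : 1 < c⁻¹ := (one_lt_inv₀ hc).2 h4
  linarith

lemma vv_inj {q q' : V} {c : ℝ} (h : vv F P q = c • vv F P q') :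
    F.x q = F.x q' ∧ F.z q = F.z q' := by
  have h1 := congrArg F.y h
  rw [map_smul, y_vv, y_vv, smul_eq_mul, mul_one] at h1
  subst h1
  rw [one_smul] at h
  have h2 := congrArg F.x h
  have h3 := congrArg F.z h
  rw [x_vv, x_vv] at h2
  rw [z_vv, z_vv] at h3
  exact ⟨h2, mul_left_cancel₀ P.s0.ne' h3⟩

lemma pt_smul {w : V} {c : ℝ} (hc : 0 < c) : pt F P (c • w) = pt F P w := by
  unfold pt
  simp only [map_smul, smul_eq_mul]
  have hs := P.s0.ne'
  have hc' := hc.ne'
  by_cases hy : F.y w = 0
  · rw [hy]; simp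
  · have e1 : (c * F.y w)⁻¹ • (c • F.x w) = (F.y w)⁻¹ • F.x w := by
      rw [smul_smul]; congr 1; field_simp
    have e2 : c * F.z w / (P.s * (c * F.y w)) = F.z w / (P.s * F.y w) := by field_simp
    rw [e1, e2]

variable [FiniteDimensional ℝ V] [MeasurableSpace V] [BorelSpace V]

/-- Spherical part of the open wedge. -/
def Oa (F : Frame V) (P : Params) : Set (sphere (0 : V) 1) := {w | (w : V) ∈ Wo F P}

omit [FiniteDimensional ℝ V] in
lemma measurableSet_Oa : MeasurableSet (Oa F P) :=
  (isOpen_Wo.preimage continuous_subtype_val).measurableSet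

lemma sph_u {m : ℕ} (hn : Module.finrank ℝ V = m + 3) {ω : Set (sphere (0 : V) 1)}
    (hω : MeasurableSet ω) :
    sph V ω = ((m + 3 : ℕ) : ℝ≥0∞) *
      ∫⁻ q in U F ∩ {q | dir F (u F P q) ∈ ω}, ENNReal.ofReal (F.y q ^ (m + 2) * densB F P m q) := by
  classical
  have hex : ∀ q : V, ∃ L : V →L[ℝ] V, q ∈ U F → HasFDerivAt (rad F (u F P)) L q ∧ L.det =
      (F.y q) ^ (m + 2) * (‖u F P q‖⁻¹) ^ (m + 3) * (phi F P q) ^ m *
      (f F P q * Dl F P q) := by
    intro q
    by_cases hq : q ∈ U F
    · obtain ⟨L, h1, h2⟩ := det_u (P := P) hn hq.2.2 hq.1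
      exact ⟨L, fun _ => ⟨h1, h2⟩⟩
    · exact ⟨0, fun h => absurd h hq⟩
  choose L hL using hex
  have := polar_measure hn (B := u F P) (L := L)
    (J := fun q => F.y q ^ (m + 2) * densB F P m q) (O := univ)
    measurable_u (fun q q' hx hz => u_congr hx hz) (fun q hq => u_ne_zero hq)
    (fun q hq q' hq' c hc h => u_inj hq hq' hc h) (fun q hq => (hL q hq).1)
    (fun q hq => by
      rw [(hL q hq).2]
      have h1 := phi_pos (P := P) hq.2.2
      have h2 := f_pos (P := P) hq.2.2
      have h3 : 0 < Dl F P q := by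
        unfold Dl
        have hR2 := P.neg_R2_pos (mem_strip.1 hq.2.2)
        have hfr := fr_pos (P := P) hq.2.2
        have hr := rho_pos (F := F) q
        have hT := T_pos (P := P) hq.2.2
        have hm := P.mu_pos (mem_strip.1 hq.2.2).le
        have hγ := P.γ0
        have hγ1 : 0 < 1 - P.γ := by have := P.γ1; linarith
        have hs := P.s0
        positivity
      have h4 := hq.1
      rw [abs_of_nonneg (by positivity)]
      unfold densB
      ring)
    MeasurableSet.univ (fun _ _ => mem_univ _)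
    (fun w _ hw => by
      obtain ⟨q, hq, c, hc, h⟩ := exists_u (P := P) hw
      exact ⟨q, hq, dir_eq_of_smul hc h⟩) hω
  rw [inter_univ] at this
  exact this

lemma sph_vv {m : ℕ} (hn : Module.finrank ℝ V = m + 3) {ω : Set (sphere (0 : V) 1)}
    (hω : MeasurableSet ω) :
    sph V (ω ∩ Oa F P) = ((m + 3 : ℕ) : ℝ≥0∞) *
      ∫⁻ q in U F ∩ {q | dir F (vv F P q) ∈ ω},
        ENNReal.ofReal (F.y q ^ (m + 2) * (‖vv F P q‖⁻¹) ^ (m + 3) * P.s) := by
  classical
  have hex : ∀ q : V, ∃ L : V →L[ℝ] V, q ∈ U F → HasFDerivAt (rad F (vv F P)) L q ∧ L.det =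
      (F.y q) ^ (m + 2) * (‖vv F P q‖⁻¹) ^ (m + 3) * P.s := by
    intro q
    by_cases hq : q ∈ U F
    · obtain ⟨L, h1, h2⟩ := det_vv (P := P) hn hq.1
      exact ⟨L, fun _ => ⟨h1, h2⟩⟩
    · exact ⟨0, fun h => absurd h hq⟩
  choose L hL using hex
  refine polar_measure hn (B := vv F P) (L := L)
    (J := fun q => F.y q ^ (m + 2) * (‖vv F P q‖⁻¹) ^ (m + 3) * P.s) (O := Oa F P)
    measurable_vv (fun q q' hx hz => vv_congr hx hz) (fun q _ => vv_ne_zero q)
    (fun q _ q' _ c _ h => vv_inj h) (fun q hq => (hL q hq).1)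
    (fun q hq => by
      rw [(hL q hq).2]
      have h4 := hq.1
      have := P.s0
      rw [abs_of_nonneg (by positivity)])
    measurableSet_Oa
    (fun q hq => by
      change (dir F (vv F P q) : V) ∈ Wo F P
      rw [dir_coe (vv_ne_zero q)]
      exact smul_mem_Wo (inv_pos.2 (norm_pos_iff.2 (vv_ne_zero q))) (vv_mem_Wo hq))
    (fun w hw _ => by
      refine ⟨pt F P w, pt_mem_strip hw, ?_⟩
      refine dir_eq_of_smul (inv_pos.2 (y_pos hw)) ?_
      calc vv F P (pt F P w) = (F.y w)⁻¹ • (F.y w • vv F P (pt F P w)) := by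
            rw [smul_smul, inv_mul_cancel₀ (y_pos hw).ne', one_smul]
        _ = _ := by rw [smul_vv_pt hw])
    hω

/-! ### The dual curvature measure -/

variable {κ r : ℝ}

/-- Density of the dual curvature measure in the parameters. -/
noncomputable def densC (F : Frame V) (P : Params) (m : ℕ) (κ r : ℝ) (q : V) : ℝ :=
  (κ * ‖vv F P q‖ / f F P q) ^ r * (F.y q ^ (m + 2) * (‖vv F P q‖⁻¹) ^ (m + 3) * P.s)

/-- The dual curvature measure of the wedge body. -/
noncomputable def curvMeasure (F : Frame V) (P : Params) (m : ℕ) (κ r : ℝ) :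
    Measure (sphere (0 : V) 1) :=
  ((m + 3 : ℕ) : ℝ≥0∞) • ((volume.restrict (U F)).withDensity
    (fun q => ENNReal.ofReal (densC F P m κ r q))).map (fun q => dir F (u F P q))

lemma measurable_densC {m : ℕ} : Measurable (densC F P m κ r) := by
  unfold densC
  refine Measurable.mul ?_ ?_
  · exact ((measurable_vv.norm.const_mul κ).div measurable_f).pow_const r
  · exact ((measurable_y.pow_const _).mul ((measurable_vv.norm.inv).pow_const _)).mul_const _

lemma measurable_dir_u : Measurable (fun q => dir F (u F P q)) := measurable_dir.comp measurable_u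

lemma measurable_dir_vv : Measurable (fun q => dir F (vv F P q)) :=
  measurable_dir.comp measurable_vv

/-- The spherical measure on the open wedge, as a push-forward. -/
lemma sph_restrict_Oa {m : ℕ} (hn : Module.finrank ℝ V = m + 3) :
    (sph V).restrict (Oa F P) = ((m + 3 : ℕ) : ℝ≥0∞) • ((volume.restrict (U F)).withDensity
      (fun q => ENNReal.ofReal (F.y q ^ (m + 2) * (‖vv F P q‖⁻¹) ^ (m + 3) * P.s))).map
        (fun q => dir F (vv F P q)) := by
  ext ω hω
  rw [Measure.restrict_apply hω, sph_vv hn hω, Measure.smul_apply, smul_eq_mul,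
    Measure.map_apply measurable_dir_vv hω, withDensity_apply _ (measurable_dir_vv hω),
    Measure.restrict_restrict (measurable_dir_vv hω), inter_comm]
  rfl

omit [FiniteDimensional ℝ V] [MeasurableSpace V] [BorelSpace V] in
lemma g_dir_vv {q : V} (hq : q ∈ Strip F) :
    g F P (dir F (vv F P q) : V) = f F P q / ‖vv F P q‖ := by
  have hv := norm_pos_iff.2 (vv_ne_zero (F := F) (P := P) q)
  rw [dir_coe (vv_ne_zero q), g_smul (Wo_subset_W (vv_mem_Wo hq)) (by positivity), g_vv]
  ring

omit [FiniteDimensional ℝ V] [MeasurableSpace V] [BorelSpace V] in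
lemma u_pt_dir_vv (q : V) : u F P (pt F P (dir F (vv F P q) : V)) = u F P q := by
  have hv := norm_pos_iff.2 (vv_ne_zero (F := F) (P := P) q)
  rw [dir_coe (vv_ne_zero q)]
  have := pt_smul_vv (F := F) (P := P) (q := q) (inv_pos.2 hv)
  exact u_congr this.1 this.2

lemma null_ker (l : V →L[ℝ] ℝ) {v : V} (hv : l v ≠ 0) :
    (volume : Measure V) {w | l w = 0} = 0 := by
  have h : {w : V | l w = 0} = ((LinearMap.ker (l : V →ₗ[ℝ] ℝ) : Submodule ℝ V) : Set V) := by
    ext w; simp
  rw [h]
  refine Measure.addHaar_submodule volume _ ?_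
  intro htop
  have : v ∈ (LinearMap.ker (l : V →ₗ[ℝ] ℝ) : Submodule ℝ V) := by rw [htop]; trivial
  exact hv (by simpa using this)

lemma null_facets : ∀ᵐ w : sphere (0 : V) 1 ∂(sph V), (w : V) ∈ W F P → (w : V) ∈ Wo F P := by
  rw [ae_iff]
  have hset : {w : sphere (0 : V) 1 | ¬((w : V) ∈ W F P → (w : V) ∈ Wo F P)}
      = (Subtype.val ⁻¹' W F P) \ (Subtype.val ⁻¹' Wo F P) := by
    ext w; simp
  rw [hset]
  have hm : MeasurableSet ((Subtype.val ⁻¹' W F P : Set (sphere (0 : V) 1)) \
      (Subtype.val ⁻¹' Wo F P)) :=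
    (isClosed_W.preimage continuous_subtype_val).measurableSet.diff
      (isOpen_Wo.preimage continuous_subtype_val).measurableSet
  unfold sph
  rw [Measure.toSphere_apply' _ hm]
  have h1 : (volume : Measure V) {v | (F.z - P.s • F.y) v = 0} = 0 :=
    null_ker _ (v := F.e1) (by simp)
  have h2 : (volume : Measure V) {v | (F.z + P.s • F.y) v = 0} = 0 :=
    null_ker _ (v := F.e1) (by simp)
  have h3 : (volume : Measure V) (Ioo (0 : ℝ) 1 • (Subtype.val '' ((Subtype.val ⁻¹' W F P :
      Set (sphere (0 : V) 1)) \ (Subtype.val ⁻¹' Wo F P)))) = 0 := by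
    refine measure_mono_null ?_ (measure_union_null h1 h2)
    rintro _ ⟨t, ht, _, ⟨w, hw, rfl⟩, rfl⟩
    have hwW := mem_W.1 hw.1
    have hwo : ¬ |F.z (w : V)| < P.s * F.y (w : V) := hw.2
    have he : |F.z (w : V)| = P.s * F.y (w : V) := le_antisymm hwW (not_lt.1 hwo)
    rcases abs_eq (by rw [← he]; exact abs_nonneg _) |>.1 he with h | h
    · left
      change (F.z - P.s • F.y) (t • (w : V)) = 0
      simp only [sub_apply, smul_apply, map_smul, smul_eq_mul, h]
      ring
    · right
      change (F.z + P.s • F.y) (t • (w : V)) = 0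
      simp only [add_apply, smul_apply, map_smul, smul_eq_mul, h]
      ring
  rw [h3, mul_zero]

omit [FiniteDimensional ℝ V] [MeasurableSpace V] [BorelSpace V] in
lemma revGauss_inter (hκ : 0 < κ) (ω : Set (sphere (0 : V) 1)) :
    revGauss (K F P κ) ω ∩ Oa F P
      = {w : sphere (0 : V) 1 | dir F (u F P (pt F P (w : V))) ∈ ω} ∩ Oa F P := by
  ext w
  simp only [mem_inter_iff, and_congr_left_iff]
  intro hw
  have hw' : (w : V) ∈ Wo F P := hw
  have h0 := ne_zero_of_mem_Wo hw'
  have hg := g_pos (Wo_subset_W hw') h0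
  have hrad := radialFn_K hκ (Wo_subset_W hw') h0
  have hp : radialFn (K F P κ) (w : V) • (w : V) ∈ Wo F P := by
    rw [hrad]; exact smul_mem_Wo (by positivity) hw'
  have hgp : g F P (radialFn (K F P κ) (w : V) • (w : V)) = κ := by
    rw [hrad, g_smul (Wo_subset_W hw') (by positivity), div_mul_cancel₀ _ hg.ne']
  have hpt : pt F P (radialFn (K F P κ) (w : V) • (w : V)) = pt F P w := by
    rw [hrad]; exact pt_smul (by positivity)
  have hu := u_ne_zero (P := P) (pt_mem_strip hw')
  constructor
  · rintro ⟨v, hv, hvω⟩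
    rw [mem_normals_iff hκ hp hgp, hpt] at hv
    have : v = dir F (u F P (pt F P w)) := Subtype.ext (by rw [hv, dir_coe hu])
    change dir F (u F P (pt F P w)) ∈ ω
    rw [← this]; exact hvω
  · intro hv
    refine ⟨dir F (u F P (pt F P w)), ?_, hv⟩
    rw [mem_normals_iff hκ hp hgp, hpt, dir_coe hu]

omit [FiniteDimensional ℝ V] in
lemma measurable_g : Measurable (g F P) := by
  have hrt : Measurable (rt F) := F.w.continuous.norm.measurable
  have hM : Measurable (M F P) :=
    measurable_y.mul (measurable_mu.comp (measurable_z.div (measurable_y.const_mul _)))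
  exact (hrt.add (measurable_y.const_mul 2)).sub ((hrt.pow_const _).mul (hM.pow_const _))

lemma measurable_pt : Measurable (pt F P) :=
  (measurable_y.inv.smul measurable_x).add
    ((measurable_z.div (measurable_y.const_mul _)).smul_const _)

/-- The measure `curvMeasure` is the dual curvature measure of the wedge body. -/
lemma isDualCurvature {m : ℕ} (hn : Module.finrank ℝ V = m + 3) (hκ : 0 < κ) (hr : 0 < r) :
    IsDualCurvature r (K F P κ) (curvMeasure F P m κ r) := by
  intro ω hω
  -- the right-hand side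
  have h1 : ∫⁻ w in revGauss (K F P κ) ω, ENNReal.ofReal (radialFn (K F P κ) w ^ r) ∂(sph V)
      = ∫⁻ w in revGauss (K F P κ) ω ∩ Oa F P,
          ENNReal.ofReal (radialFn (K F P κ) w ^ r) ∂(sph V) := by
    rw [← lintegral_inter_add_sdiff _ _ measurableSet_Oa]
    have : ∫⁻ w in revGauss (K F P κ) ω \ Oa F P,
        ENNReal.ofReal (radialFn (K F P κ) w ^ r) ∂(sph V) = 0 := by
      refine le_antisymm ?_ bot_le
      refine (lintegral_mono_set (t := (Oa F P)ᶜ) (fun w hw => hw.2)).trans (le_of_eq ?_)
      refine lintegral_eq_zero_of_ae_eq_zero ?_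
      rw [Filter.EventuallyEq, ae_restrict_iff' measurableSet_Oa.compl]
      filter_upwards [null_facets (F := F) (P := P)] with w hw hwo
      have hwW : (w : V) ∉ W F P := fun h => hwo (hw h)
      rw [radialFn_K_of_notMem hκ hwW, Real.zero_rpow hr.ne']
      simp
    rw [this, add_zero]
  rw [h1, revGauss_inter hκ ω]
  have hG : MeasurableSet {w : sphere (0 : V) 1 | dir F (u F P (pt F P (w : V))) ∈ ω} :=
    (measurable_dir_u.comp (measurable_pt.comp measurable_subtype_coe)) hω
  have h2 : ∫⁻ w in {w : sphere (0 : V) 1 | dir F (u F P (pt F P (w : V))) ∈ ω} ∩ Oa F P,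
      ENNReal.ofReal (radialFn (K F P κ) w ^ r) ∂(sph V)
      = ∫⁻ w in {w : sphere (0 : V) 1 | dir F (u F P (pt F P (w : V))) ∈ ω} ∩ Oa F P,
      ENNReal.ofReal ((κ / g F P w) ^ r) ∂(sph V) := by
    refine setLIntegral_congr_fun (hG.inter measurableSet_Oa) fun w hw => ?_
    have hw' : (w : V) ∈ Wo F P := hw.2
    simp only [radialFn_K hκ (Wo_subset_W hw') (ne_zero_of_mem_Wo hw')]
  have hf : Measurable fun w : sphere (0 : V) 1 => ENNReal.ofReal ((κ / g F P w) ^ r) :=
    (((measurable_const.div (measurable_g.comp measurable_subtype_coe)).pow_const r)).ennreal_ofReal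
  rw [h2, ← Measure.restrict_restrict hG, sph_restrict_Oa hn, Measure.restrict_smul,
    lintegral_smul_measure, setLIntegral_map hG hf measurable_dir_vv]
  unfold curvMeasure
  rw [Measure.smul_apply, Measure.map_apply measurable_dir_u hω,
    withDensity_apply _ (measurable_dir_u hω)]
  congr 1
  have hset : (fun q => dir F (vv F P q)) ⁻¹'
      {w : sphere (0 : V) 1 | dir F (u F P (pt F P (w : V))) ∈ ω}
      = (fun q => dir F (u F P q)) ⁻¹' ω := by
    ext q
    simp only [mem_preimage, mem_ofPred_eq, u_pt_dir_vv]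
  rw [hset, setLIntegral_withDensity_eq_setLIntegral_mul _ _ _ (measurable_dir_u hω)]
  · rw [Measure.restrict_restrict (measurable_dir_u hω)]
    refine setLIntegral_congr_fun ((measurable_dir_u hω).inter isOpen_U.measurableSet) ?_
    intro q hq
    have hqs : q ∈ Strip F := hq.2.2.2
    have hf' := f_pos (P := P) hqs
    have hy := hq.2.1
    simp only [Pi.mul_apply]
    rw [g_dir_vv hqs, ← ENNReal.ofReal_mul (by have := P.s0; positivity)]
    congr 1
    unfold densC
    have : κ / (f F P q / ‖vv F P q‖) = κ * ‖vv F P q‖ / f F P q := by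
      rw [div_div_eq_mul_div]
    rw [this]; ring
  · exact (((measurable_y.pow_const _).mul ((measurable_vv.norm.inv).pow_const _)).mul_const
      _).ennreal_ofReal
  · exact hf.comp measurable_dir_vv

end Pool.Agent.Lib.MP_1f66ea_an
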