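import Mathlib

/-!
# Dual curvature measures and the `C⁰` estimate
-/

namespace Pool.Agent.Lib.MP_1f66ea_an

open MeasureTheory Metric Set
open scoped ENNReal RealInnerProductSpace

variable {E : Type*} [NormedAddCommGroup E] [InnerProductSpace ℝ E]

/-- `K` is a convex body containing the origin (possibly on its boundary). -/
structure IsBody (K : Set E) : Prop where
  compact : IsCompact K
  convex : Convex ℝ K
  nonempty_interior : (interior K).Nonempty
  zero_mem : (0 : E) ∈ K

/-- The support function `h_K`. -/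
noncomputable def supportFn (K : Set E) (w : E) : ℝ := sSup ((fun x => ⟪w, x⟫) '' K)

/-- The radial function `ϱ_K`. -/
noncomputable def radialFn (K : Set E) (w : E) : ℝ := sSup {t : ℝ | 0 ≤ t ∧ t • w ∈ K}

/-- The set `ν_K(x)` of outer unit normals of `K` at the boundary point `x`. -/
def normals (K : Set E) (x : E) : Set (sphere (0 : E) 1) :=
  {v | ∀ y ∈ K, ⟪(v : E), y⟫ ≤ ⟪(v : E), x⟫}

/-- The reverse radial Gauss image `α*_K(ω)`: directions `w` for which some outer unit normal at
`ϱ_K(w) w` belongs to `ω`. -/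
def revGauss (K : Set E) (ω : Set (sphere (0 : E) 1)) : Set (sphere (0 : E) 1) :=
  {w | (normals K (radialFn K w • (w : E)) ∩ ω).Nonempty}

variable [MeasurableSpace E] [BorelSpace E] [FiniteDimensional ℝ E]

/-- Spherical Lebesgue measure. -/
noncomputable def sph (E : Type*) [NormedAddCommGroup E] [InnerProductSpace ℝ E]
    [MeasurableSpace E] [BorelSpace E] [FiniteDimensional ℝ E] : Measure (sphere (0 : E) 1) :=
  (volume : Measure E).toSphere

/-- `μ` is the `q`-th dual curvature measure of `K`: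
`μ(ω) = ∫_{α*_K(ω)} ϱ_K^q` for every Borel set `ω` of the sphere. -/
def IsDualCurvature (q : ℝ) (K : Set E) (μ : Measure (sphere (0 : E) 1)) : Prop :=
  ∀ ω, MeasurableSet ω → μ ω = ∫⁻ w in revGauss K ω, ENNReal.ofReal (radialFn K w ^ q) ∂(sph E)

/-- The measure `h_K^{-p} dμ`. -/
noncomputable def lpWeight (p : ℝ) (K : Set E) (μ : Measure (sphere (0 : E) 1)) :
    Measure (sphere (0 : E) 1) :=
  μ.withDensity fun v => ENNReal.ofReal (supportFn K v) ^ (-p)

/-- `λ⁻¹ H ≤ ν ≤ λ H` on all Borel sets of the sphere, `H` the spherical measure. -/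
def TwoSided (lam : ℝ) (ν : Measure (sphere (0 : E) 1)) : Prop :=
  ∀ ω, MeasurableSet ω →
    ENNReal.ofReal lam⁻¹ * sph E ω ≤ ν ω ∧ ν ω ≤ ENNReal.ofReal lam * sph E ω

/-- The `C⁰` estimate for the parameters `n`, `p`, `q` and the bound `lam`. -/
def C0Estimate (n : ℕ) (p q lam : ℝ) : Prop :=
  ∃ C : ℝ, 1 < C ∧ ∀ (K : Set (EuclideanSpace ℝ (Fin n)))
    (μ : Measure (sphere (0 : EuclideanSpace ℝ (Fin n)) 1)),
    IsBody K → IsDualCurvature q K μ → TwoSided lam (lpWeight p K μ) →
      (∀ w ∈ sphere (0 : EuclideanSpace ℝ (Fin n)) 1, supportFn K w ≤ C) ∧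
        ENNReal.ofReal C⁻¹ ≤ volume K

end Pool.Agent.Lib.MP_1f66ea_an
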