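import Pool.Agent.Lib.MP_1f66ea_an.Param
import Pool.Agent.Lib.MP_1f66ea_an.Defs

/-!
# The wedge body and its normals
-/

namespace Pool.Agent.Lib.MP_1f66ea_an

open scoped RealInnerProductSpace
open Set

variable {V : Type*} [NormedAddCommGroup V] [InnerProductSpace ℝ V] (F : Frame V) (P : Params)

/-- The wedge body. -/
def K (κ : ℝ) : Set V := {v | v ∈ W F P ∧ g F P v ≤ κ}

variable {F P} {κ : ℝ}

lemma mem_K {v : V} : v ∈ K F P κ ↔ v ∈ W F P ∧ g F P v ≤ κ := Iff.rfl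

lemma zero_mem_K (hκ : 0 ≤ κ) : (0 : V) ∈ K F P κ := by
  refine ⟨zero_mem_W, ?_⟩
  have := g_smul (F := F) (P := P) (zero_mem_W (V := V)) le_rfl
  rw [zero_smul, zero_mul] at this
  rw [this]; exact hκ

lemma convex_K : Convex ℝ (K F P κ) := by
  intro v hv w hw a b ha hb hab
  refine ⟨convex_W hv.1 hw.1 ha hb hab, ?_⟩
  refine (g_add_le (smul_mem_W ha hv.1) (smul_mem_W hb hw.1)).trans ?_
  rw [g_smul hv.1 ha, g_smul hw.1 hb]
  calc a * g F P v + b * g F P w ≤ a * κ + b * κ :=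
        add_le_add (mul_le_mul_of_nonneg_left hv.2 ha) (mul_le_mul_of_nonneg_left hw.2 hb)
    _ = κ := by rw [← add_mul, hab, one_mul]

lemma isClosed_K : IsClosed (K F P κ) := by
  have := continuousOn_g (F := F) (P := P).preimage_isClosed_of_isClosed isClosed_W
    (isClosed_Iic (a := κ))
  exact this

lemma norm_le_of_mem_K {v : V} (hv : v ∈ K F P κ) : ‖v‖ ≤ 2 * κ / (1 - P.γ) := by
  have h5 : 0 < 1 - P.γ := by have := P.γ1; linarith
  rw [le_div_iff₀ h5]
  have := norm_le_g hv.1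
  have := hv.2
  linarith

lemma isCompact_K [FiniteDimensional ℝ V] : IsCompact (K F P κ) := by
  refine Metric.isCompact_of_isClosed_isBounded isClosed_K ?_
  refine (Metric.isBounded_closedBall (x := (0 : V)) (r := 2 * κ / (1 - P.γ))).subset ?_
  intro v hv
  rw [mem_closedBall_zero_iff]
  exact norm_le_of_mem_K hv

lemma e0_mem_Wo : F.e0 ∈ Wo F P := by rw [mem_Wo]; simp [P.s0]

lemma isOpen_inner : IsOpen (Wo F P ∩ g F P ⁻¹' Iio κ) :=
  (continuousOn_g.mono Wo_subset_W).isOpen_inter_preimage isOpen_Wo isOpen_Iio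

lemma inner_subset : Wo F P ∩ g F P ⁻¹' Iio κ ⊆ interior (K F P κ) :=
  interior_maximal (fun _ hv => ⟨Wo_subset_W hv.1, (le_of_lt hv.2)⟩) isOpen_inner

lemma interior_K_nonempty (hκ : 0 < κ) : (interior (K F P κ)).Nonempty := by
  have h0 : F.e0 ∈ Wo F P := e0_mem_Wo
  have hg := g_pos (Wo_subset_W h0) (ne_zero_of_mem_Wo h0)
  refine ⟨(κ / 2 / g F P F.e0) • F.e0, inner_subset ⟨smul_mem_Wo (by positivity) h0, ?_⟩⟩
  change g F P _ < κ
  rw [g_smul (Wo_subset_W h0) (by positivity), div_mul_cancel₀ _ hg.ne']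
  linarith

lemma isBody_K [FiniteDimensional ℝ V] (hκ : 0 < κ) : IsBody (K F P κ) :=
  ⟨isCompact_K, convex_K, interior_K_nonempty hκ, zero_mem_K hκ.le⟩

lemma smul_div_mem_K (hκ : 0 < κ) {v : V} (hv : v ∈ W F P) (h0 : v ≠ 0) :
    (κ / g F P v) • v ∈ K F P κ := by
  have hg := g_pos hv h0
  refine ⟨smul_mem_W (by positivity) hv, ?_⟩
  rw [g_smul hv (by positivity), div_mul_cancel₀ _ hg.ne']

/-! ### The radial function -/

lemma radialFn_K (hκ : 0 < κ) {w : V} (hw : w ∈ W F P) (h0 : w ≠ 0) :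
    radialFn (K F P κ) w = κ / g F P w := by
  have hg := g_pos hw h0
  unfold radialFn
  have : {t : ℝ | 0 ≤ t ∧ t • w ∈ K F P κ} = Icc 0 (κ / g F P w) := by
    ext t
    simp only [mem_ofPred_eq, mem_Icc, and_congr_right_iff]
    intro ht
    rw [mem_K, g_smul hw ht, le_div_iff₀ hg]
    exact ⟨fun h => h.2, fun h => ⟨smul_mem_W ht hw, h⟩⟩
  rw [this, csSup_Icc (by positivity)]

lemma radialFn_K_of_notMem (hκ : 0 < κ) {w : V} (hw : w ∉ W F P) :
    radialFn (K F P κ) w = 0 := by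
  unfold radialFn
  have : {t : ℝ | 0 ≤ t ∧ t • w ∈ K F P κ} = {0} := by
    ext t
    simp only [mem_ofPred_eq, mem_singleton_iff]
    constructor
    · rintro ⟨h1, h2⟩
      by_contra hne
      have hpos : 0 < t := lt_of_le_of_ne h1 (Ne.symm hne)
      have := smul_mem_W (F := F) (P := P) (inv_nonneg.2 hpos.le) h2.1
      rw [smul_smul, inv_mul_cancel₀ hpos.ne', one_smul] at this
      exact hw this
    · rintro rfl
      rw [zero_smul]
      exact ⟨le_rfl, zero_mem_K hκ.le⟩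
  rw [this, csSup_singleton]

/-! ### Touching hyperplanes -/

/-- If `v` is a supporting functional of the gauge at `p` in the open wedge then `v` is a multiple
of the gradient. -/
lemma eq_of_touch {v p : V} {c : ℝ} (hp : p ∈ Wo F P) (h : ∀ w ∈ W F P, ⟪v, w⟫ ≤ c * g F P w)
    (he : ⟪v, p⟫ = c * g F P p) : v = c • u F P (pt F P p) := by
  have h1 : HasFDerivAt (fun w => ⟪v, w⟫ - c * g F P w)
      (innerSL ℝ v - c • innerSL ℝ (u F P (pt F P p))) p :=
    ((innerSL ℝ v).hasFDerivAt).sub ((hasFDerivAt_g hp).const_mul c)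
  have h2 : IsLocalMax (fun w => ⟪v, w⟫ - c * g F P w) p := by
    filter_upwards [isOpen_Wo.mem_nhds hp] with w hw
    have := h w (Wo_subset_W hw)
    linarith
  have h3 := h2.hasFDerivAt_eq_zero h1
  have h4 : innerSL ℝ (v - c • u F P (pt F P p)) = (0 : V →L[ℝ] ℝ) := by
    rw [map_sub, map_smul]; exact h3
  have h5 : ⟪v - c • u F P (pt F P p), v - c • u F P (pt F P p)⟫ = 0 := by
    have := congrArg (fun L : V →L[ℝ] ℝ => L (v - c • u F P (pt F P p))) h4
    simp only [innerSL_apply_apply, zero_apply] at this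
    exact this
  exact sub_eq_zero.1 (inner_self_eq_zero.1 h5)

lemma u_ne_zero {q : V} (hq : q ∈ Strip F) : u F P q ≠ 0 := by
  intro h
  have := inner_u_vv_self (P := P) hq
  rw [h, inner_zero_left] at this
  exact (f_pos hq).ne this

lemma pt_smul_vv {q : V} {c : ℝ} (hc : 0 < c) : F.x (pt F P (c • vv F P q)) = F.x q ∧
    F.z (pt F P (c • vv F P q)) = F.z q := by
  have hs := P.s0.ne'
  have hc' := hc.ne'
  constructor
  · rw [x_pt, map_smul, map_smul, x_vv, y_vv, smul_eq_mul, mul_one, smul_smul,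
      inv_mul_cancel₀ hc', one_smul]
  · rw [z_pt, map_smul, map_smul, z_vv, y_vv, smul_eq_mul, smul_eq_mul]
    field_simp

lemma u_congr {q q' : V} (hx : F.x q = F.x q') (hz : F.z q = F.z q') : u F P q = u F P q' := by
  unfold u Yf Zf phi T rho
  rw [hx, hz]

lemma vv_congr {q q' : V} (hx : F.x q = F.x q') (hz : F.z q = F.z q') :
    vv F P q = vv F P q' := by
  unfold vv
  rw [hx, hz]

lemma f_congr {q q' : V} (hx : F.x q = F.x q') (hz : F.z q = F.z q') : f F P q = f F P q' := by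
  unfold f T rho
  rw [hx, hz]

/-- The support function at the normals. -/
lemma supportFn_K (hκ : 0 < κ) {q : V} (hq : q ∈ Strip F) :
    supportFn (K F P κ) (‖u F P q‖⁻¹ • u F P q) = κ / ‖u F P q‖ := by
  have hf := f_pos (P := P) hq
  have hu := norm_pos_iff.2 (u_ne_zero (P := P) hq)
  unfold supportFn
  refine IsGreatest.csSup_eq ⟨⟨(κ / f F P q) • vv F P q, ?_, ?_⟩, ?_⟩
  · have := smul_div_mem_K hκ (Wo_subset_W (vv_mem_Wo (P := P) hq))
      (ne_zero_of_mem_Wo (vv_mem_Wo (P := P) hq))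
    rwa [g_vv] at this
  · simp only
    rw [inner_smul_left, inner_smul_right, inner_u_vv_self hq, div_mul_cancel₀ _ hf.ne']
    simp only [conj_trivial]
    ring
  · rintro _ ⟨w, hw, rfl⟩
    simp only
    rw [inner_smul_left]
    simp only [conj_trivial]
    rw [div_eq_inv_mul]
    exact mul_le_mul_of_nonneg_left ((inner_u_le hq hw.1).trans hw.2) (by positivity)

/-- Normals at boundary points in the open wedge. -/
lemma mem_normals_iff (hκ : 0 < κ) {p : V} (hp : p ∈ Wo F P) (hg : g F P p = κ)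
    (v : Metric.sphere (0 : V) 1) :
    v ∈ normals (K F P κ) p ↔ (v : V) = ‖u F P (pt F P p)‖⁻¹ • u F P (pt F P p) := by
  have hq := pt_mem_strip hp
  have hu := norm_pos_iff.2 (u_ne_zero (P := P) hq)
  have hup : ⟪u F P (pt F P p), p⟫ = κ := by
    conv_lhs => rw [← smul_vv_pt hp, inner_smul_right]
    have h2 := pt_smul_vv (F := F) (P := P) (q := pt F P p) (y_pos hp)
    rw [u_congr h2.1 h2.2, inner_u_vv_self hq, ← g_eq hp, hg]
  constructor
  · intro hv
    have hv0 : 0 ≤ ⟪(v : V), p⟫ := by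
      have := hv 0 (zero_mem_K hκ.le)
      rwa [inner_zero_right] at this
    have h1 : ∀ w ∈ W F P, ⟪(v : V), w⟫ ≤ (⟪(v : V), p⟫ / κ) * g F P w := by
      intro w hw
      by_cases h0 : w = 0
      · subst h0
        rw [inner_zero_right]
        exact mul_nonneg (div_nonneg hv0 hκ.le) (g_nonneg hw)
      · have hgw := g_pos hw h0
        have := hv _ (smul_div_mem_K hκ hw h0)
        rw [inner_smul_right] at this
        rw [div_mul_eq_mul_div, le_div_iff₀ hκ]
        rw [div_mul_eq_mul_div, div_le_iff₀ hgw] at this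
        linarith
    have h2 := eq_of_touch hp h1 (by rw [hg, div_mul_cancel₀ _ hκ.ne'])
    set c := ⟪(v : V), p⟫ / κ
    have hc0 : 0 ≤ c := div_nonneg hv0 hκ.le
    have hn : ‖(v : V)‖ = 1 := by simp
    have h3 : c * ‖u F P (pt F P p)‖ = 1 := by
      rw [h2, norm_smul, Real.norm_of_nonneg hc0] at hn; exact hn
    rw [h2, eq_inv_of_mul_eq_one_left h3]
  · intro hv w hw
    rw [hv, inner_smul_left, inner_smul_left]
    simp only [conj_trivial]
    refine mul_le_mul_of_nonneg_left ?_ (by positivity)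
    rw [hup]
    exact (inner_u_le hq hw.1).trans hw.2

/-! ### Every direction with nonzero `x` part is a normal -/

/-- A small number beating a power. -/
lemma exists_small {β : ℝ} (hβ : 0 < β) {A B : ℝ} (hA : 0 < A) :
    ∃ ε : ℝ, 0 < ε ∧ ε ≤ 1 ∧ B * ε ^ β < A := by
  have h1 : Filter.Tendsto (fun ε : ℝ => B * ε ^ β) (nhds 0) (nhds (B * (0 : ℝ) ^ β)) :=
    ((Real.continuous_rpow_const hβ.le).tendsto 0).const_mul B
  rw [Real.zero_rpow hβ.ne', mul_zero] at h1
  have h2 := (h1.eventually (gt_mem_nhds hA))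
  have h3 : ∀ᶠ ε : ℝ in nhdsWithin 0 (Ioi 0), B * ε ^ β < A := h2.filter_mono nhdsWithin_le_nhds
  have h4 : ∀ᶠ ε : ℝ in nhdsWithin 0 (Ioi 0), ε ≤ 1 :=
    (Filter.Eventually.filter_mono nhdsWithin_le_nhds (Iic_mem_nhds one_pos))
  have h5 : ∀ᶠ ε : ℝ in nhdsWithin 0 (Ioi 0), 0 < ε := self_mem_nhdsWithin
  obtain ⟨ε, h⟩ := (h3.and (h4.and h5)).exists
  exact ⟨ε, h.2.2, h.2.1, h.1⟩

/-- A maximiser cannot lie on the edge `y = 0`. -/
lemma edge_absurd {v p : V} {H : ℝ} (hHpos : 0 < H) (hH : ⟪v, p⟫ = H)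
    (hsup : ∀ w ∈ W F P, ⟪v, w⟫ ≤ H * g F P w) (hgp : g F P p = 1) (hpW : p ∈ W F P)
    (hy : F.y p = 0) : False := by
  have hγ1 : (1 - P.γ) ≠ 0 := by have := P.γ1; linarith
  have hz := z_eq_zero hpW hy
  have hrt : rt F p = 1 := by
    have : g F P p = rt F p := by
      unfold g M
      rw [hy, zero_mul]
      unfold gm
      rw [Real.zero_rpow hγ1]; ring
    rw [← this, hgp]
  have hxp : ‖F.x p‖ ^ 2 = 1 := by
    have := rt_sq (F := F) p
    rw [hrt, hy] at this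
    linarith
  obtain ⟨ε, hε0, hε1, hε⟩ := exists_small (B := 3 * H - F.y v) P.γ0 hHpos
  have hq : p + ε • F.e0 ∈ Wo F P := by
    rw [mem_Wo]; simp only [map_add, map_smul, hz, hy, F.z_e0, F.y_e0, smul_eq_mul, mul_zero,
      add_zero, abs_zero, mul_one, zero_add]
    exact mul_pos P.s0 hε0
  have hy' : F.y (p + ε • F.e0) = ε := by simp [hy]
  have hx' : F.x (p + ε • F.e0) = F.x p := by simp
  generalize hQ : p + ε • F.e0 = Q at hq hy' hx'
  have hrt' : rt F Q ^ 2 = 1 + ε ^ 2 := by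
    rw [rt_sq, hx', hy', hxp]
  have hrt0 := rt_nonneg (F := F) Q
  have hrt1 : 1 ≤ rt F Q := by
    by_contra hlt
    push Not at hlt
    nlinarith
  have hrt2 : rt F Q ≤ 1 + ε := by
    by_contra hlt
    push Not at hlt
    nlinarith
  have hM : ε ≤ M F P Q := by
    have := y_le_M (Wo_subset_W hq); rwa [hy'] at this
  have h5 : 0 < ε ^ (1 - P.γ) := Real.rpow_pos_of_pos hε0 _
  have hgm : ε ^ (1 - P.γ) ≤ gm P.γ (rt F Q) (M F P Q) := by
    unfold gm
    have h1 : 1 ≤ rt F Q ^ P.γ := Real.one_le_rpow hrt1 P.γ0.le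
    have h2 : ε ^ (1 - P.γ) ≤ M F P Q ^ (1 - P.γ) :=
      Real.rpow_le_rpow hε0.le hM (by have := P.γ1; linarith)
    nlinarith
  have h1 := hsup _ (Wo_subset_W hq)
  rw [← hQ, inner_add_right, inner_smul_right, hH, hQ] at h1
  have hye : ⟪v, F.e0⟫ = F.y v := by rw [real_inner_comm]; rfl
  rw [hye] at h1
  have h2 : g F P Q ≤ 1 + 3 * ε - ε ^ (1 - P.γ) := by
    unfold g; rw [hy']; linarith
  have h3 : ε ^ (1 - P.γ) * ε ^ P.γ = ε := by
    rw [← Real.rpow_add hε0]; simp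
  have h2' := mul_le_mul_of_nonneg_left h2 hHpos.le
  have h4 : H * ε ^ (1 - P.γ) ≤ (3 * H - F.y v) * ε := by linarith
  have h6 := mul_lt_mul_of_pos_left hε h5
  have h7 : ε ^ (1 - P.γ) * ((3 * H - F.y v) * ε ^ P.γ) = (3 * H - F.y v) * ε := by
    calc ε ^ (1 - P.γ) * ((3 * H - F.y v) * ε ^ P.γ)
        = (3 * H - F.y v) * (ε ^ (1 - P.γ) * ε ^ P.γ) := by ring
      _ = _ := by rw [h3]
  rw [h7] at h6
  linarith

/-- `(1 + t)^β ≥ 1 + β t / 2` for `t ∈ [0, 1]`. -/
lemma one_add_rpow_ge {β t : ℝ} (hβ : 0 < β) (hβ1 : β < 1) (ht : 0 ≤ t) (ht1 : t ≤ 1) :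
    1 + β / 2 * t ≤ (1 + t) ^ β := by
  have h1 := rpow_tangent (w₁ := 1) (w₂ := 1 + t) (α := β) zero_le_one
    (by positivity) hβ hβ1
  rw [Real.one_rpow] at h1
  have h2 : (1 : ℝ) / 2 ≤ (1 + t) ^ (β - 1) := by
    have h3 : (1 + t) ^ (-1 : ℝ) ≤ (1 + t) ^ (β - 1) :=
      Real.rpow_le_rpow_of_exponent_le (by linarith) (by linarith)
    have h4 : (1 + t) ^ (-1 : ℝ) = (1 + t)⁻¹ := Real.rpow_neg_one _
    rw [h4] at h3
    refine le_trans ?_ h3
    rw [one_div]
    exact inv_anti₀ (by positivity) (by linarith)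
  have h5 : β * (1 / 2) * t ≤ β * (1 + t) ^ (β - 1) * t := by
    gcongr
  linarith

/-- A maximiser cannot lie on a facet. -/
lemma facet_absurd {v p : V} {H : ℝ} (hHpos : 0 < H) (hH : ⟪v, p⟫ = H)
    (hsup : ∀ w ∈ W F P, ⟪v, w⟫ ≤ H * g F P w) (hgp : g F P p = 1) (hpW : p ∈ W F P)
    (hy : 0 < F.y p) (hzeq : |F.z p| = P.s * F.y p) : False := by
  have hrt := rt_pos hpW (by rintro rfl; simp at hy)
  have hMp : M F P p = F.y p := M_facet hy hzeq
  have hzp : F.z p ^ 2 = (P.s * F.y p) ^ 2 := by rw [← sq_abs, hzeq]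
  have hsy : 0 < P.s * F.y p := mul_pos P.s0 hy
  obtain ⟨c, hc⟩ : ∃ c, c = gm P.γ (rt F p) (F.y p) := ⟨_, rfl⟩
  have hcpos : 0 < c := by rw [hc]; exact gm_pos hrt hy
  have hγ1 : 0 < 1 - P.γ := by have := P.γ1; linarith
  have hα1 : 0 < 1 - P.α := by have := P.α1; linarith
  have hs := P.s0
  obtain ⟨ε, hε0, hε1, hε⟩ := exists_small (B := F.z p * F.z v) hα1
    (A := H * (c * ((1 - P.γ) / 2) * P.s)) (by positivity)
  have hzq : F.z (p - (ε * F.z p) • F.e1) = (1 - ε) * F.z p := by simp; ring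
  have hyq : F.y (p - (ε * F.z p) • F.e1) = F.y p := by simp
  have hxq : F.x (p - (ε * F.z p) • F.e1) = F.x p := by simp
  generalize hQ : p - (ε * F.z p) • F.e1 = Q at hzq hyq hxq
  have hq : Q ∈ Wo F P := by
    rw [mem_Wo, hzq, hyq, abs_mul, hzeq, abs_of_nonneg (by linarith)]
    nlinarith
  have hrtq : rt F Q = rt F p := by
    refine (sq_eq_sq₀ (rt_nonneg _) (rt_nonneg _)).1 ?_
    rw [rt_sq, rt_sq, hxq, hyq]
  have hMq : F.y p * (1 + P.s * ε ^ P.α) ≤ M F P Q := by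
    unfold M Params.mu Params.R
    rw [hzq, hyq]
    have h1 : ((1 - ε) * F.z p / (P.s * F.y p)) ^ 2 = (1 - ε) ^ 2 := by
      rw [div_pow, mul_pow, hzp, mul_div_assoc, div_self (by positivity), mul_one]
    rw [h1]
    have h2 : ε ^ P.α ≤ (1 - (1 - ε) ^ 2) ^ P.α :=
      Real.rpow_le_rpow hε0.le (by nlinarith) P.α0.le
    refine mul_le_mul_of_nonneg_left ?_ hy.le
    nlinarith
  -- lower bound for the geometric mean
  have hεα : 0 < ε ^ P.α := Real.rpow_pos_of_pos hε0 _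
  obtain ⟨t, ht⟩ : ∃ t, t = P.s * ε ^ P.α := ⟨_, rfl⟩
  rw [← ht] at hMq
  have htpos : 0 < t := by rw [ht]; exact mul_pos hs hεα
  have ht1 : t ≤ 1 := by
    have h1 : ε ^ P.α ≤ 1 := Real.rpow_le_one hε0.le hε1 P.α0.le
    have h2 := P.s1
    rw [ht]
    nlinarith
  have hpow := one_add_rpow_ge hγ1 (by have := P.γ0; linarith) htpos.le ht1
  have hgmq : c * (1 + (1 - P.γ) / 2 * t) ≤ gm P.γ (rt F Q) (M F P Q) := by
    rw [hrtq]
    have h1 : gm P.γ (rt F p) (F.y p * (1 + t)) ≤ gm P.γ (rt F p) (M F P Q) := by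
      unfold gm
      refine mul_le_mul_of_nonneg_left ?_ (Real.rpow_nonneg hrt.le _)
      exact Real.rpow_le_rpow (by positivity) hMq hγ1.le
    refine le_trans ?_ h1
    rw [hc]
    unfold gm
    rw [Real.mul_rpow hy.le (by positivity), ← mul_assoc]
    have h2 : 0 ≤ rt F p ^ P.γ * F.y p ^ (1 - P.γ) := by positivity
    exact mul_le_mul_of_nonneg_left hpow h2
  have hgq : g F P Q ≤ 1 - c * ((1 - P.γ) / 2) * t := by
    have h1 : g F P p = rt F p + 2 * F.y p - c := by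
      unfold g; rw [hMp, hc]
    have h2 : g F P Q = rt F p + 2 * F.y p - gm P.γ (rt F Q) (M F P Q) := by
      unfold g; rw [hyq, hrtq]
    rw [h2]
    linarith
  have h1 := hsup _ (Wo_subset_W hq)
  rw [← hQ, inner_sub_right, inner_smul_right, hH, hQ] at h1
  have hze : ⟪v, F.e1⟫ = F.z v := by rw [real_inner_comm]; rfl
  rw [hze] at h1
  have hgq' := mul_le_mul_of_nonneg_left hgq hHpos.le
  have h2 : H * (c * ((1 - P.γ) / 2) * t) ≤ ε * F.z p * F.z v := by
    linarith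
  have h3 : ε ^ (1 - P.α) * ε ^ P.α = ε := by
    rw [← Real.rpow_add hε0]; simp
  have h4 := mul_lt_mul_of_pos_right hε hεα
  have h5 : F.z p * F.z v * ε ^ (1 - P.α) * ε ^ P.α = ε * F.z p * F.z v := by
    calc F.z p * F.z v * ε ^ (1 - P.α) * ε ^ P.α
        = (ε ^ (1 - P.α) * ε ^ P.α) * (F.z p * F.z v) := by ring
      _ = _ := by rw [h3]; ring
  have h6 : H * (c * ((1 - P.γ) / 2) * P.s) * ε ^ P.α = H * (c * ((1 - P.γ) / 2) * t) := by
    rw [ht]; ring
  rw [h5, h6] at h4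
  linarith

lemma exists_u [FiniteDimensional ℝ V] {v : V} (hv : F.x v ≠ 0) :
    ∃ q ∈ Strip F, ∃ c : ℝ, 0 < c ∧ u F P q = c • v := by
  have hvn := norm_pos_iff.2 hv
  obtain ⟨p, hpK, hmax⟩ := (isCompact_K (F := F) (P := P) (κ := 1)).exists_isMaxOn
    ⟨0, zero_mem_K zero_le_one⟩ (f := fun w => ⟪v, w⟫) (by fun_prop)
  obtain ⟨H, hH⟩ : ∃ H, ⟪v, p⟫ = H := ⟨_, rfl⟩
  have hmax' : ∀ w ∈ K F P 1, ⟪v, w⟫ ≤ H := fun w hw => hH ▸ hmax hw
  -- `H > 0`
  have hHpos : 0 < H := by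
    have h1 : (‖F.x v‖⁻¹ • F.x v) ∈ K F P 1 := by
      have hW : F.x v ∈ W F P := by rw [mem_W]; simp
      have hy : F.y (F.x v) = 0 := by simp
      have hg : g F P (F.x v) = ‖F.x v‖ := by
        unfold g
        have hM : M F P (F.x v) = 0 := by unfold M; rw [hy, zero_mul]
        have hrt : rt F (F.x v) = ‖F.x v‖ := by
          refine (sq_eq_sq₀ (rt_nonneg _) (norm_nonneg _)).1 ?_
          rw [rt_sq, hy]; simp
        rw [hM, hrt, hy]
        unfold gm
        rw [Real.zero_rpow (by have := P.γ1; linarith)]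
        ring
      refine ⟨smul_mem_W (by positivity) hW, ?_⟩
      rw [g_smul hW (by positivity), hg, inv_mul_cancel₀ hvn.ne']
    have h2 := hmax' _ h1
    refine lt_of_lt_of_le ?_ h2
    rw [inner_smul_right, real_inner_comm, F.inner_x_left, real_inner_self_eq_norm_sq]
    positivity
  -- supporting inequality on the wedge
  have hsup : ∀ w ∈ W F P, ⟪v, w⟫ ≤ H * g F P w := by
    intro w hw
    by_cases h0 : w = 0
    · subst h0
      rw [inner_zero_right]
      exact mul_nonneg hHpos.le (g_nonneg hw)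
    · have hgw := g_pos hw h0
      have := hmax' _ (smul_div_mem_K one_pos hw h0)
      rw [inner_smul_right, div_mul_eq_mul_div, one_mul, div_le_iff₀ hgw] at this
      exact this
  have hgp : g F P p = 1 := by
    refine le_antisymm hpK.2 ?_
    have := hsup p hpK.1
    rw [hH] at this
    by_contra hlt
    push Not at hlt
    nlinarith
  -- `p` is in the open wedge
  have hpo : p ∈ Wo F P := by
    by_contra hno
    have hzeq : |F.z p| = P.s * F.y p := by
      rw [mem_Wo, not_lt] at hno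
      exact le_antisymm (mem_W.1 hpK.1) hno
    rcases (y_nonneg hpK.1).eq_or_lt with hy | hy
    · exact edge_absurd hHpos hH hsup hgp hpK.1 hy.symm
    · exact facet_absurd hHpos hH hsup hgp hpK.1 hy hzeq
  -- conclusion
  have htouch := eq_of_touch hpo hsup (by rw [hgp, mul_one, hH])
  refine ⟨pt F P p, pt_mem_strip hpo, H⁻¹, inv_pos.2 hHpos, ?_⟩
  conv_rhs => rw [htouch]
  rw [smul_smul, inv_mul_cancel₀ hHpos.ne', one_smul]

end Pool.Agent.Lib.MP_1f66ea_an
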