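import Mathlib

/-!
# Two sided comparability of positive reals
-/

namespace Pool.Agent.Lib.MP_1f66ea_an

/-- `a` and `b` are positive and comparable up to the factor `C`. -/
structure Cmp (C a b : ℝ) : Prop where
  pa : 0 < a
  pb : 0 < b
  le : a ≤ C * b
  ge : b ≤ C * a

namespace Cmp

variable {C D a b c d : ℝ}

lemma pos (h : Cmp C a b) : 0 < C := by
  have := h.pa.trans_le h.le
  exact (pos_iff_pos_of_mul_pos this).2 h.pb

lemma refl (ha : 0 < a) : Cmp 1 a a := ⟨ha, ha, by simp, by simp⟩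

lemma of_eq (ha : 0 < a) (h : a = b) : Cmp 1 a b := by subst h; exact refl ha

lemma symm (h : Cmp C a b) : Cmp C b a := ⟨h.pb, h.pa, h.ge, h.le⟩

lemma mono (h : Cmp C a b) (hCD : C ≤ D) : Cmp D a b :=
  ⟨h.pa, h.pb, h.le.trans (mul_le_mul_of_nonneg_right hCD h.pb.le),
    h.ge.trans (mul_le_mul_of_nonneg_right hCD h.pa.le)⟩

lemma trans (h : Cmp C a b) (h' : Cmp D b c) : Cmp (C * D) a c := by
  refine ⟨h.pa, h'.pb, ?_, ?_⟩
  · calc a ≤ C * b := h.le
      _ ≤ C * (D * c) := mul_le_mul_of_nonneg_left h'.le h.pos.le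
      _ = C * D * c := by ring
  · calc c ≤ D * b := h'.ge
      _ ≤ D * (C * a) := mul_le_mul_of_nonneg_left h.ge h'.pos.le
      _ = C * D * a := by ring

lemma mul (h : Cmp C a b) (h' : Cmp D c d) : Cmp (C * D) (a * c) (b * d) := by
  have := h.pa; have := h.pb; have := h'.pa; have := h'.pb
  have := h.pos; have := h'.pos
  refine ⟨by positivity, by positivity, ?_, ?_⟩
  · calc a * c ≤ (C * b) * (D * d) := mul_le_mul h.le h'.le h'.pa.le (by positivity)
      _ = C * D * (b * d) := by ring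
  · calc b * d ≤ (C * a) * (D * c) := mul_le_mul h.ge h'.ge h'.pb.le (by positivity)
      _ = C * D * (a * c) := by ring

lemma inv (h : Cmp C a b) : Cmp C a⁻¹ b⁻¹ := by
  have h1 := h.pa; have h2 := h.pb; have h3 := h.pos
  refine ⟨by positivity, by positivity, ?_, ?_⟩
  · rw [inv_le_iff_one_le_mul₀ h1]
    have := h.ge
    have h4 : 1 ≤ C * a / b := by rw [le_div_iff₀ h2]; linarith
    calc (1 : ℝ) ≤ C * a / b := h4
      _ = C * b⁻¹ * a := by ring
  · rw [inv_le_iff_one_le_mul₀ h2]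
    have := h.le
    have h4 : 1 ≤ C * b / a := by rw [le_div_iff₀ h1]; linarith
    calc (1 : ℝ) ≤ C * b / a := h4
      _ = C * a⁻¹ * b := by ring

lemma div (h : Cmp C a b) (h' : Cmp D c d) : Cmp (C * D) (a / c) (b / d) := by
  rw [div_eq_mul_inv, div_eq_mul_inv]
  exact h.mul h'.inv

lemma npow (h : Cmp C a b) (n : ℕ) : Cmp (C ^ n) (a ^ n) (b ^ n) := by
  have h1 := h.pa; have h2 := h.pb; have h3 := h.pos
  refine ⟨by positivity, by positivity, ?_, ?_⟩
  · rw [← mul_pow]; exact pow_le_pow_left₀ h1.le h.le n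
  · rw [← mul_pow]; exact pow_le_pow_left₀ h2.le h.ge n

lemma rpow_pos (h : Cmp C a b) {r : ℝ} (hr : 0 ≤ r) : Cmp (C ^ r) (a ^ r) (b ^ r) := by
  have h1 := h.pa; have h2 := h.pb; have h3 := h.pos
  refine ⟨by positivity, by positivity, ?_, ?_⟩
  · rw [← Real.mul_rpow h3.le h2.le]; exact Real.rpow_le_rpow h1.le h.le hr
  · rw [← Real.mul_rpow h3.le h1.le]; exact Real.rpow_le_rpow h2.le h.ge hr

lemma rpow (h : Cmp C a b) (r : ℝ) : Cmp (C ^ |r|) (a ^ r) (b ^ r) := by
  rcases le_total 0 r with hr | hr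
  · rw [abs_of_nonneg hr]; exact h.rpow_pos hr
  · rw [abs_of_nonpos hr]
    have := (h.rpow_pos (r := -r) (by linarith)).inv
    rwa [Real.rpow_neg h.pa.le, Real.rpow_neg h.pb.le, inv_inv, inv_inv] at this

end Cmp

end Pool.Agent.Lib.MP_1f66ea_an
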