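import Pool.Agent.Lib.MP_1f66ea_an.Jac
import Pool.Agent.Lib.MP_1f66ea_an.Cmp

/-!
# Uniform bounds for the densities
-/

namespace Pool.Agent.Lib.MP_1f66ea_an

open scoped RealInnerProductSpace ENNReal
open Set

variable {V : Type*} [NormedAddCommGroup V] [InnerProductSpace ℝ V] {F : Frame V}

/-- The parameters attached to `N = n + p > 4`. -/
noncomputable def mkP (N s : ℝ) (hN : 4 < N) (hs : 0 < s) (hs1 : s ≤ 1) : Params where
  γ := 2 / (N - 2)
  α := (N - 2) / (N - 1)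
  s := s
  γ0 := by have : 0 < N - 2 := by linarith
           positivity
  γ1 := by rw [div_lt_one (by linarith)]; linarith
  α0 := by have h1 : 0 < N - 2 := by linarith
           have h2 : 0 < N - 1 := by linarith
           positivity
  α1 := by rw [div_lt_one (by linarith)]; linarith
  s0 := hs
  s1 := hs1

section profile

variable {P : Params} {ζ : ℝ}

lemma cmp_R2 (h : 0 < 1 - ζ ^ 2) (hα : 1 / 2 ≤ P.α) :
    Cmp (2 + 1 / (4 * P.α * (1 - P.α))) (-P.R2 ζ) ((1 - ζ ^ 2) ^ (P.α - 2)) := by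
  have h0 := P.α0
  have h1 : 0 < 1 - P.α := by have := P.α1; linarith
  have he : 0 < (1 - ζ ^ 2) ^ (P.α - 2) := Real.rpow_pos_of_pos h _
  have e1 : (1 - ζ ^ 2) ^ (P.α - 1) = (1 - ζ ^ 2) ^ (P.α - 2) * (1 - ζ ^ 2) := by
    rw [← Real.rpow_add_one h.ne']; congr 1; ring
  obtain ⟨e, hee⟩ : ∃ e, e = (1 - ζ ^ 2) ^ (P.α - 2) := ⟨_, rfl⟩
  have e2 : -P.R2 ζ = 2 * P.α * e * ((1 - ζ ^ 2) + 2 * (1 - P.α) * ζ ^ 2) := by
    unfold Params.R2; rw [e1, hee]; ring
  rw [← hee] at he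
  rw [← hee]
  have hb1 : 2 * (1 - P.α) ≤ (1 - ζ ^ 2) + 2 * (1 - P.α) * ζ ^ 2 := by
    nlinarith [sq_nonneg ζ]
  have hb2 : (1 - ζ ^ 2) + 2 * (1 - P.α) * ζ ^ 2 ≤ 1 := by
    nlinarith [sq_nonneg ζ]
  obtain ⟨B, hB⟩ : ∃ B, B = (1 - ζ ^ 2) + 2 * (1 - P.α) * ζ ^ 2 := ⟨_, rfl⟩
  rw [← hB] at hb1 hb2 e2
  rw [e2]
  have hBpos : 0 < B := lt_of_lt_of_le (by positivity) hb1
  refine ⟨by positivity, he, ?_, ?_⟩
  · have h2 : 2 * P.α * e * B ≤ 2 * e := by
      have : P.α * B ≤ 1 := by nlinarith [P.α1]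
      nlinarith
    have h3 : 0 ≤ 1 / (4 * P.α * (1 - P.α)) * e := by positivity
    linarith
  · have h2 : e ≤ 1 / (4 * P.α * (1 - P.α)) * (2 * P.α * e * B) := by
      rw [div_mul_eq_mul_div, le_div_iff₀ (by positivity)]
      nlinarith [mul_le_mul_of_nonneg_left hb1 (by positivity : 0 ≤ 2 * P.α * e)]
    have h3 : 0 ≤ 2 * (2 * P.α * e * B) := by positivity
    linarith

lemma cmp_R1 (h : 0 < 1 - ζ ^ 2) (hα : 1 / 2 ≤ P.α) :
    Cmp 5 (1 + P.R1 ζ ^ 2) ((1 - ζ ^ 2) ^ (2 * (P.α - 1))) := by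
  have h0 := P.α0
  have h1 : 0 < 1 - P.α := by have := P.α1; linarith
  have hw1 : 1 - ζ ^ 2 ≤ 1 := by nlinarith [sq_nonneg ζ]
  have hd : 1 ≤ (1 - ζ ^ 2) ^ (2 * (P.α - 1)) :=
    Real.one_le_rpow_of_pos_of_le_one_of_nonpos h hw1 (by linarith)
  have e1 : ((1 - ζ ^ 2) ^ (P.α - 1)) ^ 2 = (1 - ζ ^ 2) ^ (2 * (P.α - 1)) := by
    rw [← Real.rpow_natCast, ← Real.rpow_mul h.le]; congr 1; push_cast; ring
  have e2 : P.R1 ζ ^ 2 = 4 * P.α ^ 2 * ζ ^ 2 * (1 - ζ ^ 2) ^ (2 * (P.α - 1)) := by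
    unfold Params.R1; rw [← e1]; ring
  rw [e2]
  obtain ⟨d, hdd⟩ : ∃ d, d = (1 - ζ ^ 2) ^ (2 * (P.α - 1)) := ⟨_, rfl⟩
  rw [← hdd] at hd ⊢
  have hα2 : P.α ^ 2 ≤ 1 := by nlinarith [P.α1]
  have hζ2 : ζ ^ 2 ≤ 1 := by linarith
  have hα4 : 1 / 4 ≤ P.α ^ 2 := by nlinarith
  refine ⟨by positivity, by linarith, ?_, ?_⟩
  · have : P.α ^ 2 * ζ ^ 2 ≤ 1 := by nlinarith [sq_nonneg ζ, sq_nonneg P.α]
    nlinarith
  · by_cases hz : 1 / 4 ≤ ζ ^ 2
    · have : 1 / 16 ≤ P.α ^ 2 * ζ ^ 2 := by nlinarith [sq_nonneg ζ, sq_nonneg P.α]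
      nlinarith
    · push Not at hz
      -- `w ≥ 3/4`
      have hd2 : d ≤ 4 := by
        rw [hdd]
        have h3 : (1 - ζ ^ 2) ^ (2 * (P.α - 1)) ≤ (1 - ζ ^ 2) ^ (-1 : ℝ) :=
          Real.rpow_le_rpow_of_exponent_ge h hw1 (by linarith)
        refine h3.trans ?_
        rw [Real.rpow_neg_one]
        rw [inv_le_comm₀ h (by norm_num)]
        linarith
      have : 0 ≤ P.α ^ 2 * ζ ^ 2 * d := by positivity
      nlinarith

/-- Comparability constant for the profile. -/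
noncomputable def CR (N : ℝ) : ℝ :=
  5 ^ (N / 2) * (2 + 1 / (4 * ((N - 2) / (N - 1)) * (1 - (N - 2) / (N - 1))))

lemma cmp_profile {N s : ℝ} (hN : 4 < N) (hs : 0 < s) (hs1 : s ≤ 1) (h : 0 < 1 - ζ ^ 2) :
    Cmp (CR N) ((1 + (mkP N s hN hs hs1).R1 ζ ^ 2) ^ (N / 2)) (-(mkP N s hN hs hs1).R2 ζ) := by
  set P := mkP N s hN hs hs1 with hP
  have hα : P.α = (N - 2) / (N - 1) := rfl
  have h1 : 0 < N - 1 := by linarith
  have hα2 : 1 / 2 ≤ P.α := by rw [hα, div_le_div_iff₀ (by norm_num) h1]; linarith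
  have c1 := (cmp_R1 (P := P) h hα2).rpow_pos (r := N / 2) (by linarith)
  have c2 := (cmp_R2 (P := P) h hα2).symm
  have e : ((1 - ζ ^ 2) ^ (2 * (P.α - 1))) ^ (N / 2) = (1 - ζ ^ 2) ^ (P.α - 2) := by
    rw [← Real.rpow_mul h.le]
    congr 1
    rw [hα]
    field_simp
    ring
  rw [e] at c1
  exact c1.trans c2

end profile

section bounds

variable {P : Params} {q : V}

lemma vv_norm_sq (q : V) : ‖vv F P q‖ ^ 2 = rho F q ^ 2 + P.s ^ 2 * F.z q ^ 2 := by
  rw [F.norm_sq, x_vv, y_vv, z_vv, rho_sq]; ring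

lemma cmp_vv (hq : q ∈ Strip F) : Cmp 2 ‖vv F P q‖ (rho F q) := by
  have h1 := vv_norm_sq (F := F) (P := P) q
  have h2 := one_le_rho (F := F) q
  have h3 := mem_strip.1 hq
  have hs := P.s0
  have hs1 := P.s1
  have h4 : P.s ^ 2 * F.z q ^ 2 ≤ 1 := by
    have : P.s ^ 2 ≤ 1 := by nlinarith
    nlinarith [sq_nonneg P.s, sq_nonneg (F.z q)]
  have h5 : 0 ≤ P.s ^ 2 * F.z q ^ 2 := by positivity
  have h6 : rho F q ≤ ‖vv F P q‖ := by
    refine abs_le_of_sq_le_sq' ?_ (norm_nonneg _) |>.2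
    linarith
  have h7 : ‖vv F P q‖ ≤ 2 * rho F q := by
    refine abs_le_of_sq_le_sq' ?_ (by positivity) |>.2
    nlinarith
  exact ⟨by linarith, by linarith, h7, by linarith⟩

lemma cmp_f (hq : q ∈ Strip F) : Cmp (3 / (1 - P.γ)) (f F P q) (rho F q) := by
  have h5 : 0 < 1 - P.γ := by have := P.γ1; linarith
  have h6 := P.γ0
  have hr := rho_pos (F := F) q
  have h1 := f_ge (P := P) hq
  have h2 := f_le (P := P) hq
  refine ⟨f_pos hq, hr, ?_, ?_⟩
  · refine h2.trans (mul_le_mul_of_nonneg_right ?_ hr.le)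
    rw [le_div_iff₀ h5]; linarith
  · rw [div_mul_eq_mul_div, le_div_iff₀ h5]
    have := f_pos (P := P) hq
    linarith

lemma cmp_phi (hq : q ∈ Strip F) : Cmp ((1 - P.γ) ^ 2)⁻¹ (phi F P q) (rho F q)⁻¹ := by
  have h5 : 0 < 1 - P.γ := by have := P.γ1; linarith
  have h6 := P.γ0
  have hr := rho_pos (F := F) q
  have h1 := fr_ge (P := P) hq
  have h2 := fr_le (P := P) hq
  have h7 : 1 ≤ ((1 - P.γ) ^ 2)⁻¹ := by
    rw [one_le_inv₀ (by positivity)]
    nlinarith
  refine ⟨phi_pos hq, by positivity, ?_, ?_⟩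
  · unfold phi
    rw [div_eq_mul_inv]
    refine mul_le_mul_of_nonneg_right (h2.trans h7) (by positivity)
  · unfold phi
    rw [div_eq_mul_inv, ← mul_assoc]
    refine le_mul_of_one_le_left (by positivity) ?_
    rw [inv_mul_eq_div, le_div_iff₀ (by positivity)]
    linarith

lemma one_le_T (hq : q ∈ Strip F) : 1 ≤ T F P q := by
  unfold T gm
  have h1 : 1 ≤ rho F q ^ P.γ := Real.one_le_rpow (one_le_rho q) P.γ0.le
  have h2 : 1 ≤ P.mu (F.z q) ^ (1 - P.γ) :=
    Real.one_le_rpow (P.one_le_mu (mem_strip.1 hq).le) (by have := P.γ1; linarith)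
  nlinarith

lemma T_le_two_rho (hq : q ∈ Strip F) : T F P q ≤ 2 * rho F q := by
  have h := T_le (P := P) hq
  have h1 := one_le_rho (F := F) q
  have h2 := P.γ0
  have h3 : 0 < 1 - P.γ := by have := P.γ1; linarith
  nlinarith

/-- Upper and lower bound for the norm of the gradient. -/
lemma cmp_u (hq : q ∈ Strip F) :
    Cmp (14 / (1 - P.γ) ^ 2) ‖u F P q‖ (T F P q * √(1 + P.R1 (F.z q) ^ 2)) := by
  have hγ : 0 < 1 - P.γ := by have := P.γ1; linarith
  have hγ0 := P.γ0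
  have hs := P.s0
  have hs1 := P.s1
  have hT1 := one_le_T (P := P) hq
  have hT0 : 0 < T F P q := by linarith
  have hr := rho_pos (F := F) q
  have hr1 := one_le_rho (F := F) q
  have hm1 := P.one_le_mu (mem_strip.1 hq).le
  have hm2 := P.mu_le_two (mem_strip.1 hq).le
  have hm0 : 0 < P.mu (F.z q) := by linarith
  have hu0 := norm_pos_iff.2 (u_ne_zero (P := P) hq)
  obtain ⟨R, hR⟩ : ∃ R, R = P.R1 (F.z q) := ⟨_, rfl⟩
  obtain ⟨t, ht⟩ : ∃ t, t = T F P q / P.mu (F.z q) := ⟨_, rfl⟩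
  have ht0 : 0 < t := by rw [ht]; positivity
  have htT : t ≤ T F P q := by rw [ht]; exact div_le_self hT0.le hm1
  have htm : t * P.mu (F.z q) = T F P q := by rw [ht]; field_simp
  have hzR : F.z q * R ≤ 0 := by rw [hR]; exact P.R1_mul_nonpos (mem_strip.1 hq)
  have hz1 := abs_z_lt_one hq
  have hZ : Zf F P q = -((1 - P.γ) * t * R) := by unfold Zf; rw [← ht, ← hR]
  have hY : Yf F P q = 2 + phi F P q - (1 - P.γ) * t * (P.mu (F.z q) - P.s * F.z q * R) := by
    unfold Yf; rw [← ht, ← hR]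
  have hphi0 := phi_pos (P := P) hq
  have hphi1 : phi F P q ≤ 1 := by
    unfold phi
    rw [div_le_one hr]
    exact (fr_le hq).trans hr1
  have hphix : phi F P q * ‖F.x q‖ ≤ 1 := by
    unfold phi
    rw [div_mul_eq_mul_div, div_le_one hr]
    exact mul_le_of_le_one_left (norm_nonneg _) (fr_le hq) |>.trans (norm_x_le_rho q)
  -- the square root
  have hS0 : 0 ≤ 1 + R ^ 2 := by positivity
  have hS1 : |R| ≤ √(1 + R ^ 2) := by
    rw [← Real.sqrt_sq_eq_abs]; exact Real.sqrt_le_sqrt (by linarith)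
  have hS2 : 1 ≤ √(1 + R ^ 2) := by rw [Real.one_le_sqrt]; nlinarith [sq_nonneg R]
  have hS3 : √(1 + R ^ 2) ≤ 1 + |R| := by
    rw [Real.sqrt_le_left (by positivity)]
    nlinarith [abs_nonneg R, sq_abs R]
  rw [← hR]
  have hsz : |P.s * F.z q * R| ≤ |R| := by
    rw [abs_mul, abs_mul, abs_of_pos hs]
    have : P.s * |F.z q| ≤ 1 := by nlinarith [abs_nonneg (F.z q)]
    exact mul_le_of_le_one_left (abs_nonneg _) this
  -- norms of the components
  have hnorm : ‖u F P q‖ ≤ phi F P q * ‖F.x q‖ + |Yf F P q| + |Zf F P q| := by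
    unfold u
    refine (norm_add_le _ _).trans (add_le_add ((norm_add_le _ _).trans (add_le_add ?_ ?_)) ?_)
    · rw [norm_smul, Real.norm_of_nonneg hphi0.le]
    · rw [norm_smul, norm_e0, mul_one, Real.norm_eq_abs]
    · rw [norm_smul, Real.norm_eq_abs]
      have : ‖F.e1‖ = 1 := by
        have := F.h11
        rw [real_inner_self_eq_norm_sq] at this
        exact (pow_eq_one_iff_of_nonneg (norm_nonneg _) two_ne_zero).1 this
      rw [this, mul_one]
  have hZabs : |Zf F P q| = (1 - P.γ) * t * |R| := by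
    rw [hZ, abs_neg, abs_mul, abs_of_pos (by positivity)]
  have hZle : |Zf F P q| ≤ ‖u F P q‖ := by
    refine abs_le_of_sq_le_sq ?_ (norm_nonneg _)
    rw [F.norm_sq, y_u, z_u]
    nlinarith [sq_nonneg ‖F.x (u F P q)‖, sq_nonneg (Yf F P q)]
  have hYle : |Yf F P q| ≤ ‖u F P q‖ := by
    refine abs_le_of_sq_le_sq ?_ (norm_nonneg _)
    rw [F.norm_sq, y_u, z_u]
    nlinarith [sq_nonneg ‖F.x (u F P q)‖, sq_nonneg (Zf F P q)]
  refine ⟨hu0, by positivity, ?_, ?_⟩
  · -- upper bound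
    have h1 : |Yf F P q| ≤ 3 + t * (P.mu (F.z q) + |R|) := by
      rw [hY]
      have h2 : |(1 - P.γ) * t * (P.mu (F.z q) - P.s * F.z q * R)| ≤
          t * (P.mu (F.z q) + |R|) := by
        rw [abs_mul, abs_of_pos (by positivity)]
        have h3 : |P.mu (F.z q) - P.s * F.z q * R| ≤ P.mu (F.z q) + |R| := by
          refine (abs_sub _ _).trans ?_
          rw [abs_of_pos hm0]
          linarith
        calc (1 - P.γ) * t * |P.mu (F.z q) - P.s * F.z q * R|
            ≤ 1 * t * (P.mu (F.z q) + |R|) := by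
              gcongr
              linarith
          _ = _ := by ring
      have h4 : |(2 : ℝ) + phi F P q| ≤ 3 := by
        rw [abs_of_pos (by positivity)]; linarith
      refine (abs_sub _ _).trans ?_
      linarith
    have h2 : t * (P.mu (F.z q) + |R|) ≤ T F P q + T F P q * |R| := by
      rw [mul_add, htm]
      have := mul_le_mul_of_nonneg_right htT (abs_nonneg R)
      linarith
    have h3 : |Zf F P q| ≤ T F P q * |R| := by
      rw [hZabs]
      calc (1 - P.γ) * t * |R| ≤ 1 * T F P q * |R| := by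
            gcongr
            linarith
        _ = _ := by ring
    have h4 : ‖u F P q‖ ≤ 7 * (T F P q * √(1 + R ^ 2)) := by
      have h5 : T F P q * |R| ≤ T F P q * √(1 + R ^ 2) :=
        mul_le_mul_of_nonneg_left hS1 hT0.le
      have h6 : T F P q ≤ T F P q * √(1 + R ^ 2) := le_mul_of_one_le_right hT0.le hS2
      linarith
    refine h4.trans (mul_le_mul_of_nonneg_right ?_ (by positivity))
    rw [le_div_iff₀ (by positivity)]
    nlinarith
  · -- lower bound
    have h1 : (1 - P.γ) ^ 2 * T F P q ≤ 12 * ‖u F P q‖ := by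
      by_cases hc : 6 ≤ (1 - P.γ) * T F P q
      · have h2 : (1 - P.γ) * T F P q ≤ (1 - P.γ) * t * (P.mu (F.z q) - P.s * F.z q * R) := by
          have h3 : 0 ≤ (1 - P.γ) * t * (-(P.s * F.z q * R)) := by
            have : 0 ≤ -(P.s * (F.z q * R)) := by nlinarith
            have h4 : 0 < (1 - P.γ) * t := by positivity
            have h5 : -(P.s * F.z q * R) = -(P.s * (F.z q * R)) := by ring
            rw [h5]; positivity
          have h6 : (1 - P.γ) * t * P.mu (F.z q) = (1 - P.γ) * T F P q := by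
            rw [mul_assoc, htm]
          nlinarith
        have h3 : (1 - P.γ) * T F P q / 2 ≤ |Yf F P q| := by
          have : Yf F P q ≤ 3 - (1 - P.γ) * T F P q := by rw [hY]; linarith
          have h4 := neg_le_abs (Yf F P q)
          linarith
        have h4 : (1 - P.γ) ^ 2 * T F P q ≤ (1 - P.γ) * T F P q := by
          have : (1 - P.γ) ^ 2 ≤ 1 - P.γ := by nlinarith
          exact mul_le_mul_of_nonneg_right this hT0.le
        linarith
      · push Not at hc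
        have h2 : (1 - P.γ) / 2 ≤ ‖u F P q‖ := by
          have h3 : f F P q ≤ ‖u F P q‖ * ‖vv F P q‖ := by
            rw [← inner_u_vv_self hq]; exact real_inner_le_norm _ _
          have h4 := (cmp_vv (P := P) hq).le
          have h5 := f_ge (P := P) hq
          have h6 : (1 - P.γ) * rho F q ≤ ‖u F P q‖ * (2 * rho F q) :=
            h5.trans (h3.trans (mul_le_mul_of_nonneg_left h4 hu0.le))
          have h7 : (1 - P.γ) * rho F q ≤ (2 * ‖u F P q‖) * rho F q := by linarith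
          have := le_of_mul_le_mul_right h7 hr
          linarith
        nlinarith
    have h2 : (1 - P.γ) * (T F P q * |R|) ≤ 2 * ‖u F P q‖ := by
      have h3 : T F P q ≤ 2 * t := by nlinarith
      have h4 : (1 - P.γ) * (T F P q * |R|) ≤ (1 - P.γ) * (2 * t * |R|) := by gcongr
      rw [hZabs] at hZle
      linarith
    have h3 : T F P q * √(1 + R ^ 2) ≤ T F P q + T F P q * |R| := by
      have := mul_le_mul_of_nonneg_left hS3 hT0.le
      linarith
    rw [div_mul_eq_mul_div, le_div_iff₀ (by positivity)]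
    have h4 : (1 - P.γ) ^ 2 * (T F P q * |R|) ≤ (1 - P.γ) * (T F P q * |R|) := by
      have : (1 - P.γ) ^ 2 ≤ 1 - P.γ := by nlinarith
      exact mul_le_mul_of_nonneg_right this (by positivity)
    nlinarith

end bounds

end Pool.Agent.Lib.MP_1f66ea_an
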