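import Pool.Agent.Lib.MP_1f66ea_an.Bounds

/-!
# Comparison of the two densities
-/

namespace Pool.Agent.Lib.MP_1f66ea_an

open scoped RealInnerProductSpace ENNReal
open Set

variable {V : Type*} [NormedAddCommGroup V] [InnerProductSpace ℝ V] {F : Frame V}
variable {N s : ℝ} {hN : 4 < N} {hs : 0 < s} {hs1 : s ≤ 1} {q : V}

/-- `T^(N-2)` is comparable to `ρ²`. -/
lemma cmp_T (hq : q ∈ Strip F) :
    Cmp (2 ^ (N - 4)) (T F (mkP N s hN hs hs1) q ^ (N - 2)) (rho F q ^ 2) := by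
  set P := mkP N s hN hs hs1 with hP
  have hγ : P.γ = 2 / (N - 2) := rfl
  have hN2 : 0 < N - 2 := by linarith
  have hr := rho_pos (F := F) q
  have hm1 := P.one_le_mu (mem_strip.1 hq).le
  have hm2 := P.mu_le_two (mem_strip.1 hq).le
  have hm0 : 0 < P.mu (F.z q) := by linarith
  have e : T F P q ^ (N - 2) = rho F q ^ 2 * P.mu (F.z q) ^ (N - 4) := by
    unfold T gm
    rw [Real.mul_rpow (by positivity) (by positivity), ← Real.rpow_mul hr.le,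
      ← Real.rpow_mul hm0.le]
    have e1 : P.γ * (N - 2) = 2 := by rw [hγ]; field_simp
    have e2 : (1 - P.γ) * (N - 2) = N - 4 := by
      rw [sub_mul, e1]; ring
    rw [e1, e2]
    norm_num
  rw [e]
  have h1 : 1 ≤ P.mu (F.z q) ^ (N - 4) := Real.one_le_rpow hm1 (by linarith)
  have h2 : P.mu (F.z q) ^ (N - 4) ≤ 2 ^ (N - 4) := Real.rpow_le_rpow hm0.le hm2 (by linarith)
  have h3 : (1 : ℝ) ≤ 2 ^ (N - 4) := Real.one_le_rpow (by norm_num) (by linarith)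
  have h4 : 0 < rho F q ^ 2 := by positivity
  refine ⟨by positivity, h4, ?_, ?_⟩
  · rw [mul_comm]; exact mul_le_mul_of_nonneg_right h2 h4.le
  · have : 1 ≤ 2 ^ (N - 4) * P.mu (F.z q) ^ (N - 4) := by nlinarith
    calc rho F q ^ 2 ≤ rho F q ^ 2 * (2 ^ (N - 4) * P.mu (F.z q) ^ (N - 4)) :=
          le_mul_of_one_le_right h4.le this
      _ = _ := by ring

/-- The second order factor. -/
lemma cmp_Dl {P : Params} {C : ℝ} (hq : q ∈ Strip F)
    (hC : 1 + P.R1 (F.z q) ^ 2 ≤ C * (-P.R2 (F.z q))) :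
    Cmp (2 + C + 8 / (P.γ * (1 - P.γ) ^ 3)) (Dl F P q)
      (-P.R2 (F.z q) * T F P q ^ 2 / rho F q ^ 2) := by
  have hγ : 0 < 1 - P.γ := by have := P.γ1; linarith
  have hγ0 := P.γ0
  have hs := P.s0
  have hs1 := P.s1
  have hT1 := one_le_T (P := P) hq
  have hT0 : 0 < T F P q := by linarith
  have hr := rho_pos (F := F) q
  have hr1 := one_le_rho (F := F) q
  have hT2 := T_le_two_rho (P := P) hq
  have hm1 := P.one_le_mu (mem_strip.1 hq).le
  have hm2 := P.mu_le_two (mem_strip.1 hq).le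
  have hm0 : 0 < P.mu (F.z q) := by linarith
  have hfr1 := fr_ge (P := P) hq
  have hfr2 := fr_le (P := P) hq
  have hx : ‖F.x q‖ ^ 2 = rho F q ^ 2 - 1 := by rw [rho_sq]; ring
  have hR2 : 0 < -P.R2 (F.z q) := P.neg_R2_pos (mem_strip.1 hq)
  unfold Dl
  rw [hx]
  generalize P.R1 (F.z q) = R at *
  generalize hS : -P.R2 (F.z q) = S at *
  generalize T F P q = t at *
  generalize P.mu (F.z q) = μ at *
  generalize rho F q = ρ at *
  generalize P.γ = γ at *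
  generalize P.s = s at *
  have hC0 : 0 < C := by
    have h1 : 0 < C * S := by nlinarith [sq_nonneg R]
    exact (pos_iff_pos_of_mul_pos h1).2 hR2
  obtain ⟨fr, hfr⟩ : ∃ fr, fr = 1 - γ * t / ρ := ⟨_, rfl⟩
  rw [← hfr] at hfr1 hfr2 ⊢
  have hfr0 : 0 < fr := lt_of_lt_of_le (by positivity) hfr1
  have hγ1 : γ ≤ 1 := by linarith
  have hρ1 : 0 ≤ ρ ^ 2 - 1 := by nlinarith
  -- the two summands
  have hA0 : 0 < fr / ρ ^ 3 * ((1 - γ) * (t / μ) * (S + γ * s * R ^ 2 / μ)) := by positivity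
  have hB0 : 0 ≤ γ * (1 - γ) ^ 2 * (t ^ 2 * (ρ ^ 2 - 1) / (ρ ^ 4 * μ)) * S := by positivity
  have hG0 : 0 < S * t ^ 2 / ρ ^ 2 := by positivity
  refine ⟨by linarith, hG0, ?_, ?_⟩
  · -- upper bound
    have h1 : fr / ρ ^ 3 * ((1 - γ) * (t / μ) * (S + γ * s * R ^ 2 / μ))
        ≤ (1 + C) * (S * t ^ 2 / ρ ^ 2) := by
      have h2 : S + γ * s * R ^ 2 / μ ≤ (1 + C) * S := by
        have h3 : γ * s * R ^ 2 / μ ≤ R ^ 2 := by
          rw [div_le_iff₀ hm0]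
          have : γ * s ≤ 1 := by nlinarith
          nlinarith [sq_nonneg R]
        nlinarith
      have h4 : fr / ρ ^ 3 ≤ 1 / ρ ^ 3 := by gcongr
      have h5 : (1 - γ) * (t / μ) ≤ t := by
        have : t / μ ≤ t := div_le_self hT0.le hm1
        have h6 : 0 < t / μ := by positivity
        nlinarith
      calc fr / ρ ^ 3 * ((1 - γ) * (t / μ) * (S + γ * s * R ^ 2 / μ))
          ≤ 1 / ρ ^ 3 * (t * ((1 + C) * S)) := by gcongr
        _ ≤ 1 / ρ ^ 2 * (t ^ 2 * ((1 + C) * S)) := by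
            gcongr
            · norm_num
            · nlinarith
        _ = _ := by ring
    have h2 : γ * (1 - γ) ^ 2 * (t ^ 2 * (ρ ^ 2 - 1) / (ρ ^ 4 * μ)) * S
        ≤ S * t ^ 2 / ρ ^ 2 := by
      have h3 : γ * (1 - γ) ^ 2 ≤ 1 := by
        have : (1 - γ) ^ 2 ≤ 1 := by nlinarith
        nlinarith [sq_nonneg (1 - γ)]
      have h4 : t ^ 2 * (ρ ^ 2 - 1) / (ρ ^ 4 * μ) ≤ t ^ 2 / ρ ^ 2 := by
        rw [div_le_div_iff₀ (by positivity) (by positivity)]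
        have h5 : (ρ ^ 2 - 1) ≤ ρ ^ 2 * μ := by nlinarith
        calc t ^ 2 * (ρ ^ 2 - 1) * ρ ^ 2 ≤ t ^ 2 * (ρ ^ 2 * μ) * ρ ^ 2 := by gcongr
          _ = _ := by ring
      calc γ * (1 - γ) ^ 2 * (t ^ 2 * (ρ ^ 2 - 1) / (ρ ^ 4 * μ)) * S
          ≤ 1 * (t ^ 2 / ρ ^ 2) * S := by gcongr
        _ = _ := by ring
    have h3 : 0 ≤ 8 / (γ * (1 - γ) ^ 3) * (S * t ^ 2 / ρ ^ 2) := by positivity
    nlinarith
  · -- lower bound
    have key : S * t ^ 2 / ρ ^ 2 ≤ 8 / (γ * (1 - γ) ^ 3) *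
        (fr / ρ ^ 3 * ((1 - γ) * (t / μ) * (S + γ * s * R ^ 2 / μ))
          + γ * (1 - γ) ^ 2 * (t ^ 2 * (ρ ^ 2 - 1) / (ρ ^ 4 * μ)) * S) := by
      by_cases hc : 2 ≤ ρ ^ 2
      · have h1 : γ * (1 - γ) ^ 2 / 4 * (S * t ^ 2 / ρ ^ 2) ≤
            γ * (1 - γ) ^ 2 * (t ^ 2 * (ρ ^ 2 - 1) / (ρ ^ 4 * μ)) * S := by
          have h2 : t ^ 2 / (4 * ρ ^ 2) ≤ t ^ 2 * (ρ ^ 2 - 1) / (ρ ^ 4 * μ) := by
            rw [div_le_div_iff₀ (by positivity) (by positivity)]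
            have h3 : ρ ^ 2 * μ ≤ (ρ ^ 2 - 1) * 4 := by nlinarith
            calc t ^ 2 * (ρ ^ 4 * μ) = t ^ 2 * ρ ^ 2 * (ρ ^ 2 * μ) := by ring
              _ ≤ t ^ 2 * ρ ^ 2 * ((ρ ^ 2 - 1) * 4) := by gcongr
              _ = _ := by ring
          calc γ * (1 - γ) ^ 2 / 4 * (S * t ^ 2 / ρ ^ 2)
              = γ * (1 - γ) ^ 2 * (t ^ 2 / (4 * ρ ^ 2)) * S := by ring
            _ ≤ _ := by gcongr
        have h2 : S * t ^ 2 / ρ ^ 2 ≤ 8 / (γ * (1 - γ) ^ 3) *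
            (γ * (1 - γ) ^ 2 / 4 * (S * t ^ 2 / ρ ^ 2)) := by
          have h3 : 8 / (γ * (1 - γ) ^ 3) * (γ * (1 - γ) ^ 2 / 4 * (S * t ^ 2 / ρ ^ 2))
              = 2 / (1 - γ) * (S * t ^ 2 / ρ ^ 2) := by field_simp; norm_num
          rw [h3]
          refine le_mul_of_one_le_left hG0.le ?_
          rw [le_div_iff₀ hγ]; linarith
        refine h2.trans ?_
        refine mul_le_mul_of_nonneg_left ?_ (by positivity)
        linarith
      · push Not at hc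
        have h1 : (1 - γ) ^ 3 / 8 * (S * t ^ 2 / ρ ^ 2) ≤
            fr / ρ ^ 3 * ((1 - γ) * (t / μ) * (S + γ * s * R ^ 2 / μ)) := by
          have h2 : t ^ 2 / ρ ^ 2 ≤ 4 * (t / ρ ^ 3) := by
            have h3 : t ^ 2 / ρ ^ 2 = (t * ρ) * (t / ρ ^ 3) := by field_simp
            rw [h3]
            refine mul_le_mul_of_nonneg_right ?_ (by positivity)
            nlinarith
          have h4 : t / 2 ≤ t / μ := by gcongr
          have h5 : S ≤ S + γ * s * R ^ 2 / μ := by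
            have : 0 ≤ γ * s * R ^ 2 / μ := by positivity
            linarith
          calc (1 - γ) ^ 3 / 8 * (S * t ^ 2 / ρ ^ 2) = (1 - γ) ^ 3 / 8 * S * (t ^ 2 / ρ ^ 2) := by
                ring
            _ ≤ (1 - γ) ^ 3 / 8 * S * (4 * (t / ρ ^ 3)) := by gcongr
            _ = (1 - γ) ^ 2 / ρ ^ 3 * ((1 - γ) * (t / 2) * S) := by ring
            _ ≤ _ := by gcongr
        have h2 : S * t ^ 2 / ρ ^ 2 ≤ 8 / (γ * (1 - γ) ^ 3) *
            ((1 - γ) ^ 3 / 8 * (S * t ^ 2 / ρ ^ 2)) := by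
          have h3 : 8 / (γ * (1 - γ) ^ 3) * ((1 - γ) ^ 3 / 8 * (S * t ^ 2 / ρ ^ 2))
              = 1 / γ * (S * t ^ 2 / ρ ^ 2) := by field_simp
          rw [h3]
          refine le_mul_of_one_le_left hG0.le ?_
          rw [le_div_iff₀ hγ0]; linarith
        refine h2.trans ?_
        refine mul_le_mul_of_nonneg_left ?_ (by positivity)
        linarith
    have h3 : 0 ≤ (2 + C) * (fr / ρ ^ 3 * ((1 - γ) * (t / μ) * (S + γ * s * R ^ 2 / μ))
          + γ * (1 - γ) ^ 2 * (t ^ 2 * (ρ ^ 2 - 1) / (ρ ^ 4 * μ)) * S) := by positivity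
    linarith

end Pool.Agent.Lib.MP_1f66ea_an
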