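import Pool.Agent.Lib.MP_1f66ea_an.Assembly

/-!
# Failure of the `C⁰` estimate
-/

namespace Pool.Agent.Lib.MP_1f66ea_an

open scoped RealInnerProductSpace ENNReal Pointwise
open Set MeasureTheory Metric

section support

variable {E : Type*} [NormedAddCommGroup E] [InnerProductSpace ℝ E]

lemma bddAbove_inner {K : Set E} (hK : Bornology.IsBounded K) (w : E) :
    BddAbove ((fun x => ⟪w, x⟫) '' K) := by
  obtain ⟨R, hR⟩ := hK.exists_norm_le
  refine ⟨‖w‖ * R, ?_⟩
  rintro _ ⟨x, hx, rfl⟩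
  exact (real_inner_le_norm w x).trans (mul_le_mul_of_nonneg_left (hR x hx) (norm_nonneg _))

lemma le_supportFn {K : Set E} (hK : Bornology.IsBounded K) (w : E) {x : E} (hx : x ∈ K) :
    ⟪w, x⟫ ≤ supportFn K w := le_csSup (bddAbove_inner hK w) ⟨x, hx, rfl⟩

lemma continuous_supportFn {K : Set E} (hK : Bornology.IsBounded K) (hne : K.Nonempty) :
    Continuous (supportFn K) := by
  obtain ⟨R, hR⟩ := hK.exists_norm_le
  obtain ⟨x0, hx0⟩ := hne
  have hR0 : 0 ≤ R := (norm_nonneg _).trans (hR x0 hx0)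
  have : LipschitzWith ⟨R, hR0⟩ (supportFn K) := by
    refine LipschitzWith.of_le_add_mul _ fun w w' => ?_
    refine csSup_le ⟨_, x0, hx0, rfl⟩ ?_
    rintro _ ⟨x, hx, rfl⟩
    have h1 := le_supportFn hK w' hx
    have h2 : ⟪w - w', x⟫ ≤ ‖w - w'‖ * R :=
      (real_inner_le_norm _ _).trans (mul_le_mul_of_nonneg_left (hR x hx) (norm_nonneg _))
    rw [inner_sub_left] at h2
    rw [dist_eq_norm]
    change ⟪w, x⟫ ≤ supportFn K w' + R * ‖w - w'‖
    linarith
  exact this.continuous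

end support

variable {V : Type*} [NormedAddCommGroup V] [InnerProductSpace ℝ V] {F : Frame V} {P : Params}
variable [FiniteDimensional ℝ V] [MeasurableSpace V] [BorelSpace V] {κ r p : ℝ}

lemma lpWeight_apply {m : ℕ} (hκ : 0 < κ) (hκs : κ ^ (r - p) * P.s = 1)
    {ω : Set (sphere (0 : V) 1)} (hω : MeasurableSet ω) :
    lpWeight p (K F P κ) (curvMeasure F P m κ r) ω = ((m + 3 : ℕ) : ℝ≥0∞) *
      ∫⁻ q in U F ∩ {q | dir F (u F P q) ∈ ω},
        ENNReal.ofReal (F.y q ^ (m + 2) * densA F P m p r q) := by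
  have hb : Bornology.IsBounded (K F P κ) := (isCompact_K).isBounded
  have hcs : Continuous (supportFn (K F P κ)) :=
    continuous_supportFn hb ⟨0, zero_mem_K hκ.le⟩
  have hh : Measurable fun v : sphere (0 : V) 1 =>
      ENNReal.ofReal (supportFn (K F P κ) v) ^ (-p) :=
    ((hcs.comp continuous_subtype_val).measurable.ennreal_ofReal).pow_const _
  have hh' : Measurable fun q : V =>
      ENNReal.ofReal (supportFn (K F P κ) (dir F (u F P q) : V)) ^ (-p) :=
    hh.comp measurable_dir_u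
  unfold lpWeight
  rw [withDensity_apply _ hω]
  unfold curvMeasure
  rw [Measure.restrict_smul, lintegral_smul_measure, smul_eq_mul,
    setLIntegral_map hω hh measurable_dir_u,
    setLIntegral_withDensity_eq_setLIntegral_mul _ measurable_densC.ennreal_ofReal
      hh' (measurable_dir_u hω),
    Measure.restrict_restrict (measurable_dir_u hω), inter_comm]
  congr 1
  refine setLIntegral_congr_fun (isOpen_U.measurableSet.inter (measurable_dir_u hω)) ?_
  intro q hq
  have hqs : q ∈ Strip F := hq.1.2.2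
  have hy := hq.1.1
  have hu0 := norm_pos_iff.2 (u_ne_zero (P := P) hqs)
  have hv0 := norm_pos_iff.2 (vv_ne_zero (F := F) (P := P) q)
  have hf := f_pos (P := P) hqs
  have hs := P.s0
  simp only [Pi.mul_apply]
  rw [dir_coe (u_ne_zero hqs), supportFn_K hκ hqs, ENNReal.ofReal_rpow_of_pos (by positivity)]
  have hC : 0 ≤ densC F P m κ r q := by unfold densC; positivity
  rw [← ENNReal.ofReal_mul hC]
  congr 1
  unfold densC densA
  have e1 : (κ / ‖u F P q‖) ^ (-p) = κ ^ (-p) * ‖u F P q‖ ^ p := by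
    rw [Real.div_rpow hκ.le hu0.le, Real.rpow_neg hu0.le, div_inv_eq_mul]
  have e2 : (κ * ‖vv F P q‖ / f F P q) ^ r = κ ^ r * (‖vv F P q‖ / f F P q) ^ r := by
    rw [mul_div_assoc, Real.mul_rpow hκ.le (by positivity)]
  have e3 : κ ^ r * κ ^ (-p) * P.s = 1 := by
    rw [← Real.rpow_add hκ, ← sub_eq_add_neg, hκs]
  rw [e1, e2]
  calc κ ^ r * (‖vv F P q‖ / f F P q) ^ r * (F.y q ^ (m + 2) * ‖vv F P q‖⁻¹ ^ (m + 3) * P.s)
        * (κ ^ (-p) * ‖u F P q‖ ^ p)
      = (κ ^ r * κ ^ (-p) * P.s) * (F.y q ^ (m + 2) * (‖u F P q‖ ^ p *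
          (‖vv F P q‖ / f F P q) ^ r * ‖vv F P q‖⁻¹ ^ (m + 3))) := by ring
    _ = _ := by rw [e3, one_mul]

lemma twoSided_of_cmp {m : ℕ} (hn : Module.finrank ℝ V = m + 3) (hκ : 0 < κ)
    (hκs : κ ^ (r - p) * P.s = 1) {C lam : ℝ} (hCl : C ≤ lam) (hl : 0 < lam)
    (h : ∀ q ∈ Strip F, Cmp C (densA F P m p r q) (densB F P m q)) :
    TwoSided lam (lpWeight p (K F P κ) (curvMeasure F P m κ r)) := by
  intro ω hω
  rw [lpWeight_apply hκ hκs hω, sph_u (F := F) (P := P) hn hω]
  have hmeas : MeasurableSet (U F ∩ {q | dir F (u F P q) ∈ ω}) :=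
    isOpen_U.measurableSet.inter (measurable_dir_u hω)
  constructor
  · rw [← mul_assoc, mul_comm (ENNReal.ofReal lam⁻¹), mul_assoc]
    refine mul_le_mul_right ?_ _
    rw [← lintegral_const_mul' _ _ ENNReal.ofReal_ne_top]
    refine setLIntegral_mono' hmeas fun q hq => ?_
    have hqs : q ∈ Strip F := hq.1.2.2
    have hy := hq.1.1
    have hc := h q hqs
    have h1 := hc.pa
    have h2 := hc.pb
    rw [← ENNReal.ofReal_mul (by positivity)]
    refine ENNReal.ofReal_le_ofReal ?_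
    have h3 : densB F P m q ≤ lam * densA F P m p r q :=
      hc.ge.trans (mul_le_mul_of_nonneg_right hCl h1.le)
    have h4 : lam⁻¹ * densB F P m q ≤ densA F P m p r q := by
      rw [inv_mul_le_iff₀ hl]; exact h3
    calc lam⁻¹ * (F.y q ^ (m + 2) * densB F P m q)
        = F.y q ^ (m + 2) * (lam⁻¹ * densB F P m q) := by ring
      _ ≤ _ := mul_le_mul_of_nonneg_left h4 (by positivity)
  · rw [← mul_assoc, mul_comm (ENNReal.ofReal lam), mul_assoc]
    refine mul_le_mul_right ?_ _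
    rw [← lintegral_const_mul' _ _ ENNReal.ofReal_ne_top]
    refine setLIntegral_mono' hmeas fun q hq => ?_
    have hqs : q ∈ Strip F := hq.1.2.2
    have hy := hq.1.1
    have hc := h q hqs
    have h1 := hc.pa
    have h2 := hc.pb
    rw [← ENNReal.ofReal_mul (by positivity)]
    refine ENNReal.ofReal_le_ofReal ?_
    have h3 : densA F P m p r q ≤ lam * densB F P m q :=
      hc.le.trans (mul_le_mul_of_nonneg_right hCl h2.le)
    calc F.y q ^ (m + 2) * densA F P m p r q
        ≤ F.y q ^ (m + 2) * (lam * densB F P m q) := mul_le_mul_of_nonneg_left h3 (by positivity)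
      _ = _ := by ring

/-- A large value of the support function. -/
lemma exists_large {m : ℕ} (hn : Module.finrank ℝ V = m + 3) (hκ : 0 < κ) :
    ∃ w ∈ sphere (0 : V) 1, κ ≤ supportFn (K F P κ) w := by
  -- a vector with nonzero `x` part
  obtain ⟨v, hv⟩ : ∃ v : V, F.x v ≠ 0 := by
    by_contra hcon
    push Not at hcon
    have h0 := null_x (F := F) (by omega : 3 ≤ Module.finrank ℝ V)
    have h1 : {v : V | F.x v = 0} = univ := by ext v; simp [hcon v]
    rw [h1] at h0
    have : (volume : Measure V) ≠ 0 := NeZero.ne _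
    exact this (Measure.measure_univ_eq_zero.1 h0)
  have hn0 := norm_pos_iff.2 hv
  have hb : Bornology.IsBounded (K F P κ) := (isCompact_K).isBounded
  have hW : F.x v ∈ W F P := by rw [mem_W]; simp
  have hg : g F P (F.x v) = ‖F.x v‖ := by
    unfold g
    have hy : F.y (F.x v) = 0 := by simp
    have hM : M F P (F.x v) = 0 := by unfold M; rw [hy, zero_mul]
    have hrt : rt F (F.x v) = ‖F.x v‖ := by
      refine (sq_eq_sq₀ (rt_nonneg _) (norm_nonneg _)).1 ?_
      rw [rt_sq, hy]; simp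
    rw [hM, hrt, hy]
    unfold gm
    rw [Real.zero_rpow (by have := P.γ1; linarith)]
    ring
  have hmem := smul_div_mem_K hκ hW hv
  rw [hg] at hmem
  refine ⟨‖F.x v‖⁻¹ • F.x v, ?_, ?_⟩
  · rw [mem_sphere_zero_iff_norm, norm_smul, norm_inv, norm_norm, inv_mul_cancel₀ hn0.ne']
  · refine le_trans (le_of_eq ?_) (le_supportFn hb _ hmem)
    rw [inner_smul_left, inner_smul_right, real_inner_self_eq_norm_sq]
    simp only [conj_trivial]
    field_simp

/-- The counterexamples in an abstract Euclidean space. -/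
theorem counterexample (m : ℕ) (hn : Module.finrank ℝ V = m + 3) (F : Frame V) (p r : ℝ)
    (hN : 4 < ((m + 3 : ℕ) : ℝ) + p) (hr : 0 < r) (hpr : p < r) :
    ∃ lam : ℝ, 1 < lam ∧ ∀ C : ℝ, ∃ (K : Set V) (μ : Measure (sphere (0 : V) 1)),
      IsBody K ∧ IsDualCurvature r K μ ∧ TwoSided lam (lpWeight p K μ) ∧
        ∃ w ∈ sphere (0 : V) 1, C < supportFn K w := by
  obtain ⟨C0, hC0⟩ := cmp_dens (V := V) m p r rfl hN
  refine ⟨max C0 2, lt_of_lt_of_le one_lt_two (le_max_right _ _), fun C => ?_⟩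
  have hκ1 : 1 ≤ |C| + 1 := by have := abs_nonneg C; linarith
  have hκ : 0 < |C| + 1 := by linarith
  have hs : 0 < (|C| + 1) ^ (p - r) := Real.rpow_pos_of_pos hκ _
  have hs1 : (|C| + 1) ^ (p - r) ≤ 1 := Real.rpow_le_one_of_one_le_of_nonpos hκ1 (by linarith)
  have hκs : (|C| + 1) ^ (r - p) * (mkP _ _ hN hs hs1).s = 1 := by
    change (|C| + 1) ^ (r - p) * (|C| + 1) ^ (p - r) = 1
    rw [← Real.rpow_add hκ]; simp
  refine ⟨K F (mkP _ _ hN hs hs1) (|C| + 1), curvMeasure F (mkP _ _ hN hs hs1) m (|C| + 1) r,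
    isBody_K hκ, isDualCurvature hn hκ hr,
    twoSided_of_cmp hn hκ hκs (le_max_left _ _) (by positivity) (hC0 _ hs hs1 F), ?_⟩
  obtain ⟨w, hw, hlarge⟩ := exists_large (F := F) (P := mkP _ _ hN hs hs1) hn hκ
  exact ⟨w, hw, lt_of_lt_of_le (by have := le_abs_self C; linarith) hlarge⟩

end Pool.Agent.Lib.MP_1f66ea_an
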