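import Mathlib

/-!
# Coordinates `(x, y, z)` given by two orthonormal vectors, and a determinant
-/

namespace Pool.Agent.Lib.MP_1f66ea_an

open scoped RealInnerProductSpace

/-- A pair of orthonormal vectors. -/
structure Frame (V : Type*) [NormedAddCommGroup V] [InnerProductSpace ℝ V] where
  e0 : V
  e1 : V
  h00 : ⟪e0, e0⟫ = (1 : ℝ)
  h11 : ⟪e1, e1⟫ = (1 : ℝ)
  h01 : ⟪e0, e1⟫ = (0 : ℝ)

namespace Frame

variable {V : Type*} [NormedAddCommGroup V] [InnerProductSpace ℝ V] (F : Frame V)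

lemma h10 : ⟪F.e1, F.e0⟫ = (0 : ℝ) := by rw [real_inner_comm, F.h01]

/-- First coordinate. -/
noncomputable def y : V →L[ℝ] ℝ := innerSL ℝ F.e0

/-- Second coordinate. -/
noncomputable def z : V →L[ℝ] ℝ := innerSL ℝ F.e1

/-- Remaining part. -/
noncomputable def x : V →L[ℝ] V :=
  ContinuousLinearMap.id ℝ V - F.y.smulRight F.e0 - F.z.smulRight F.e1

lemma y_apply (v : V) : F.y v = ⟪F.e0, v⟫ := rfl
lemma z_apply (v : V) : F.z v = ⟪F.e1, v⟫ := rfl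
lemma x_apply (v : V) : F.x v = v - F.y v • F.e0 - F.z v • F.e1 := rfl

@[simp] lemma y_e0 : F.y F.e0 = 1 := F.h00
@[simp] lemma y_e1 : F.y F.e1 = 0 := F.h01
@[simp] lemma z_e0 : F.z F.e0 = 0 := F.h10
@[simp] lemma z_e1 : F.z F.e1 = 1 := F.h11
@[simp] lemma x_e0 : F.x F.e0 = 0 := by simp [x_apply]
@[simp] lemma x_e1 : F.x F.e1 = 0 := by simp [x_apply]
@[simp] lemma y_x (v : V) : F.y (F.x v) = 0 := by simp [x_apply]
@[simp] lemma z_x (v : V) : F.z (F.x v) = 0 := by simp [x_apply]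
@[simp] lemma x_x (v : V) : F.x (F.x v) = F.x v := by
  rw [x_apply F (F.x v)]; simp

lemma decomp (v : V) : v = F.x v + F.y v • F.e0 + F.z v • F.e1 := by
  rw [x_apply]; abel

lemma inner_x_e0 (v : V) : ⟪F.x v, F.e0⟫ = (0 : ℝ) := by
  rw [real_inner_comm]; exact F.y_x v

lemma inner_x_e1 (v : V) : ⟪F.x v, F.e1⟫ = (0 : ℝ) := by
  rw [real_inner_comm]; exact F.z_x v

lemma inner_x_left (v w : V) : ⟪F.x v, w⟫ = ⟪F.x v, F.x w⟫ := by
  conv_lhs => rw [F.decomp w]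
  rw [inner_add_right, inner_add_right, inner_smul_right, inner_smul_right, inner_x_e0,
    inner_x_e1]
  ring

lemma inner_eq (v w : V) : ⟪v, w⟫ = ⟪F.x v, F.x w⟫ + F.y v * F.y w + F.z v * F.z w := by
  conv_lhs => rw [F.decomp v]
  rw [inner_add_left, inner_add_left, inner_smul_left, inner_smul_left, inner_x_left]
  simp only [y_apply, z_apply]
  simp

lemma norm_sq (v : V) : ‖v‖ ^ 2 = ‖F.x v‖ ^ 2 + F.y v ^ 2 + F.z v ^ 2 := by
  rw [← real_inner_self_eq_norm_sq, F.inner_eq, real_inner_self_eq_norm_sq]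
  ring

lemma e0_ne_zero : F.e0 ≠ 0 := by
  intro h
  have := F.h00
  rw [h, inner_zero_left] at this
  exact zero_ne_one this

/-- The linear map `w ↦ c x(w) + dΦ(w) ξ + dY(w) e₀ + dZ(w) e₁`. -/
noncomputable def axial (c : ℝ) (ξ : V) (dΦ dY dZ : V →L[ℝ] ℝ) : V →L[ℝ] V :=
  c • F.x + dΦ.smulRight ξ + dY.smulRight F.e0 + dZ.smulRight F.e1

lemma det_axial [FiniteDimensional ℝ V] {c : ℝ} (hc : c ≠ 0) {ξ : V} (hξ : F.x ξ = ξ)
    (dΦ dY dZ : V →L[ℝ] ℝ) (m : ℕ) (hm : Module.finrank ℝ V = m + 3) :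
    (F.axial c ξ dΦ dY dZ).det = c ^ m *
      ((c + dΦ ξ) * (dY F.e0 * dZ F.e1 - dY F.e1 * dZ F.e0)
        - dΦ F.e0 * (dY ξ * dZ F.e1 - dY F.e1 * dZ ξ)
        + dΦ F.e1 * (dY ξ * dZ F.e0 - dY F.e0 * dZ ξ)) := by
  classical
  -- rank three perturbation of `c • id`
  let A : (Fin 3 → ℝ) →ₗ[ℝ] V := Fintype.linearCombination ℝ ![ξ, F.e0, F.e1]
  let B : V →ₗ[ℝ] (Fin 3 → ℝ) := LinearMap.pi ![(dΦ : V →ₗ[ℝ] ℝ), (dY : V →ₗ[ℝ] ℝ) - c • (F.y : V →ₗ[ℝ] ℝ),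
    (dZ : V →ₗ[ℝ] ℝ) - c • (F.z : V →ₗ[ℝ] ℝ)]
  have hL : ((F.axial c ξ dΦ dY dZ : V →L[ℝ] V) : V →ₗ[ℝ] V)
      = c • (LinearMap.id + (c⁻¹ • A) ∘ₗ B) := by
    ext w
    simp only [axial, ContinuousLinearMap.coe_coe, add_apply,
      smul_apply, ContinuousLinearMap.smulRight_apply, LinearMap.smul_apply,
      LinearMap.add_apply, LinearMap.id_apply, LinearMap.comp_apply, A, B,
      Fintype.linearCombination_apply, Fin.sum_univ_three, LinearMap.pi_apply]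
    rw [smul_add, smul_smul, mul_inv_cancel₀ hc, one_smul, F.x_apply]
    simp only [Matrix.cons_val_zero, Matrix.cons_val_one, Matrix.cons_val, LinearMap.sub_apply,
      LinearMap.smul_apply, ContinuousLinearMap.coe_coe, smul_eq_mul]
    module
  have hdet : (F.axial c ξ dΦ dY dZ).det = LinearMap.det (c • (LinearMap.id + (c⁻¹ • A) ∘ₗ B)) := by
    rw [← hL]
  rw [hdet, LinearMap.det_smul, hm]
  let b := Module.finBasis ℝ V
  have h1 : LinearMap.det ((LinearMap.id : V →ₗ[ℝ] V) + (c⁻¹ • A) ∘ₗ B)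
      = LinearMap.det ((LinearMap.id : (Fin 3 → ℝ) →ₗ[ℝ] (Fin 3 → ℝ)) + B ∘ₗ (c⁻¹ • A)) := by
    rw [← LinearMap.det_toMatrix b, ← LinearMap.det_toMatrix (Pi.basisFun ℝ (Fin 3)), map_add,
      map_add, LinearMap.toMatrix_id, LinearMap.toMatrix_id,
      LinearMap.toMatrix_comp b (Pi.basisFun ℝ (Fin 3)) b,
      LinearMap.toMatrix_comp (Pi.basisFun ℝ (Fin 3)) b (Pi.basisFun ℝ (Fin 3)),
      Matrix.det_one_add_mul_comm]
  rw [h1]
  have h2 : LinearMap.det ((LinearMap.id : (Fin 3 → ℝ) →ₗ[ℝ] (Fin 3 → ℝ)) + B ∘ₗ (c⁻¹ • A))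
      = (Matrix.of ![![1 + c⁻¹ * dΦ ξ, c⁻¹ * dΦ F.e0, c⁻¹ * dΦ F.e1],
          ![c⁻¹ * dY ξ, 1 + c⁻¹ * (dY F.e0 - c), c⁻¹ * dY F.e1],
          ![c⁻¹ * dZ ξ, c⁻¹ * dZ F.e0, 1 + c⁻¹ * (dZ F.e1 - c)]] : Matrix (Fin 3) (Fin 3) ℝ).det := by
    rw [← LinearMap.det_toMatrix']
    congr 1
    have hyξ : F.y ξ = 0 := by rw [← hξ]; exact F.y_x _
    have hzξ : F.z ξ = 0 := by rw [← hξ]; exact F.z_x _
    ext i j
    fin_cases i <;> fin_cases j <;>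
      simp [LinearMap.toMatrix'_apply, A, B, Fintype.linearCombination_apply,
        Matrix.of_apply, hyξ, hzξ, Pi.single_apply]
  rw [h2, Matrix.det_fin_three]
  simp only [Matrix.of_apply, Matrix.cons_val_zero, Matrix.cons_val_one, Matrix.cons_val]
  have : c ^ (m + 3) = c ^ m * c ^ 3 := pow_add c m 3
  rw [this]
  field_simp
  ring

end Frame

end Pool.Agent.Lib.MP_1f66ea_an
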