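import Mathlib

/-!
# The one-dimensional profile and elementary inequalities for weighted geometric means
-/

namespace Pool.Agent.Lib.MP_1f66ea_an

open Real

/-- Numerical parameters of the construction. -/
structure Params where
  γ : ℝ
  α : ℝ
  s : ℝ
  γ0 : 0 < γ
  γ1 : γ < 1
  α0 : 0 < α
  α1 : α < 1
  s0 : 0 < s
  s1 : s ≤ 1

/-- Tangent line inequality for `w ↦ w ^ α`. -/
lemma rpow_tangent {w₁ w₂ α : ℝ} (h1 : 0 ≤ w₁) (h2 : 0 < w₂) (ha : 0 < α) (ha1 : α < 1) :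
    w₁ ^ α ≤ w₂ ^ α + α * w₂ ^ (α - 1) * (w₁ - w₂) := by
  have h := Real.geom_mean_le_arith_mean2_weighted ha.le (by linarith : 0 ≤ 1 - α) h1 h2.le
    (by ring)
  have h3 : w₂ ^ (1 - α) * w₂ ^ (α - 1) = 1 := by
    rw [← Real.rpow_add h2]; simp
  have h4 : w₂ ^ (α - 1) * w₂ = w₂ ^ α := by
    rw [← Real.rpow_add_one h2.ne']; simp
  have h5 : 0 < w₂ ^ (α - 1) := Real.rpow_pos_of_pos h2 _
  have h6 := mul_le_mul_of_nonneg_right h h5.le
  have h7 : w₁ ^ α * w₂ ^ (1 - α) * w₂ ^ (α - 1) = w₁ ^ α := by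
    rw [mul_assoc, h3, mul_one]
  rw [h7] at h6
  nlinarith [h6, h4]

/-- Weighted geometric mean. -/
noncomputable def gm (γ a b : ℝ) : ℝ := a ^ γ * b ^ (1 - γ)

section gm

variable {γ a b a' b' : ℝ}

lemma gm_nonneg (ha : 0 ≤ a) (hb : 0 ≤ b) : 0 ≤ gm γ a b :=
  mul_nonneg (Real.rpow_nonneg ha _) (Real.rpow_nonneg hb _)

lemma gm_pos (ha : 0 < a) (hb : 0 < b) : 0 < gm γ a b :=
  mul_pos (Real.rpow_pos_of_pos ha _) (Real.rpow_pos_of_pos hb _)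

lemma gm_le (h0 : 0 ≤ γ) (h1 : γ ≤ 1) (ha : 0 ≤ a) (hb : 0 ≤ b) :
    gm γ a b ≤ γ * a + (1 - γ) * b :=
  Real.geom_mean_le_arith_mean2_weighted h0 (by linarith) ha hb (by ring)

lemma gm_smul {c : ℝ} (hc : 0 ≤ c) (ha : 0 ≤ a) (hb : 0 ≤ b) (h1 : 0 < γ) (h2 : γ < 1) :
    gm γ (c * a) (c * b) = c * gm γ a b := by
  unfold gm
  rw [Real.mul_rpow hc ha, Real.mul_rpow hc hb]
  rcases hc.eq_or_lt with rfl | hc
  · rw [Real.zero_rpow h1.ne']; ring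
  · have : c ^ γ * c ^ (1 - γ) = c := by
      rw [← Real.rpow_add hc]; simp
    calc c ^ γ * a ^ γ * (c ^ (1 - γ) * b ^ (1 - γ))
        = (c ^ γ * c ^ (1 - γ)) * (a ^ γ * b ^ (1 - γ)) := by ring
      _ = _ := by rw [this]

lemma gm_self (ha : 0 ≤ a) (h1 : 0 < γ) (h2 : γ < 1) : gm γ a a = a := by
  unfold gm
  rcases ha.eq_or_lt with rfl | ha
  · rw [Real.zero_rpow h1.ne']; ring
  · rw [← Real.rpow_add ha]; simp

/-- Tangent plane inequality for the weighted geometric mean. -/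
lemma gm_tangent (h0 : 0 < γ) (h1 : γ < 1) (ha : 0 ≤ a) (hb : 0 ≤ b) (ha' : 0 < a')
    (hb' : 0 < b') :
    gm γ a b ≤ γ * (gm γ a' b' / a') * a + (1 - γ) * (gm γ a' b' / b') * b := by
  set T := gm γ a' b' with hT
  have hTp : 0 < T := gm_pos ha' hb'
  have h := gm_le (γ := γ) (a := T / a' * a) (b := T / b' * b) h0.le h1.le (by positivity)
    (by positivity)
  have h2 : gm γ (T / a' * a) (T / b' * b) = gm γ a b := by
    unfold gm
    rw [Real.mul_rpow (by positivity) ha, Real.mul_rpow (by positivity) hb,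
      Real.div_rpow hTp.le ha'.le, Real.div_rpow hTp.le hb'.le]
    have h3 : T ^ γ * T ^ (1 - γ) = a' ^ γ * b' ^ (1 - γ) := by
      rw [← Real.rpow_add hTp]; simp [hT, gm]
    have ha'' : a' ^ γ ≠ 0 := (Real.rpow_pos_of_pos ha' _).ne'
    have hb'' : b' ^ (1 - γ) ≠ 0 := (Real.rpow_pos_of_pos hb' _).ne'
    calc T ^ γ / a' ^ γ * a ^ γ * (T ^ (1 - γ) / b' ^ (1 - γ) * b ^ (1 - γ))
        = (T ^ γ * T ^ (1 - γ)) / (a' ^ γ * b' ^ (1 - γ)) * (a ^ γ * b ^ (1 - γ)) := by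
          field_simp
      _ = _ := by rw [h3, div_self (mul_ne_zero ha'' hb''), one_mul]
  rw [h2] at h
  linarith

/-- The weighted geometric mean is superadditive. -/
lemma gm_superadd (h0 : 0 < γ) (h1 : γ < 1) (ha : 0 ≤ a) (hb : 0 ≤ b) (ha' : 0 ≤ a')
    (hb' : 0 ≤ b') : gm γ a b + gm γ a' b' ≤ gm γ (a + a') (b + b') := by
  rcases (add_nonneg ha ha').eq_or_lt with h | h
  · have e1 : a = 0 := by linarith
    have e2 : a' = 0 := by linarith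
    subst e1; subst e2
    simp [gm, Real.zero_rpow h0.ne']
  rcases (add_nonneg hb hb').eq_or_lt with h' | h'
  · have e1 : b = 0 := by linarith
    have e2 : b' = 0 := by linarith
    subst e1; subst e2
    simp [gm, Real.zero_rpow (by linarith : (1 : ℝ) - γ ≠ 0)]
  have t1 := gm_tangent h0 h1 ha hb h h'
  have t2 := gm_tangent h0 h1 ha' hb' h h'
  set T := gm γ (a + a') (b + b')
  have : γ * (T / (a + a')) * a + (1 - γ) * (T / (b + b')) * b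
      + (γ * (T / (a + a')) * a' + (1 - γ) * (T / (b + b')) * b') = T := by
    have hne := h.ne'
    have hne' := h'.ne'
    field_simp
    ring
  linarith

/-- Monotonicity of `a - gm γ a b` in `a` in the range `b ≤ 2 a`. -/
lemma sub_gm_mono (h0 : 0 < γ) (h1 : γ < 1) (hb : 0 ≤ b) (ha : 0 ≤ a) (haa : a ≤ a')
    (hba : b ≤ 2 * a) : a - gm γ a b ≤ a' - gm γ a' b := by
  rcases ha.eq_or_lt with rfl | ha
  · have : b = 0 := by linarith
    subst this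
    simp only [gm, Real.zero_rpow (by linarith : (1 : ℝ) - γ ≠ 0)]
    linarith
  rcases hb.eq_or_lt with rfl | hb
  · simp only [gm, Real.zero_rpow (by linarith : (1 : ℝ) - γ ≠ 0)]
    linarith
  have t := gm_tangent (a := a') (b := b) h0 h1 (by linarith) hb.le ha hb
  set T := gm γ a b with hT
  have hTp : 0 < T := gm_pos ha hb
  have hTle : T ≤ γ * a + (1 - γ) * b := gm_le h0.le h1.le ha.le hb.le
  have h2 : (1 - γ) * (T / b) * b = (1 - γ) * T := by field_simp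
  rw [h2] at t
  have h3 : γ * T ≤ a := by
    have : γ * T ≤ γ * (γ * a + (1 - γ) * (2 * a)) := by
      refine mul_le_mul_of_nonneg_left (hTle.trans ?_) h0.le
      nlinarith
    nlinarith [mul_nonneg ha.le (sq_nonneg (1 - γ))]
  have h4 : γ * (T / a) * a' - γ * T = γ * T / a * (a' - a) := by field_simp
  have h5 : γ * T / a * (a' - a) ≤ a' - a := by
    have : γ * T / a ≤ 1 := by rw [div_le_one ha]; exact h3
    nlinarith
  linarith

end gm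

namespace Params

variable (P : Params)

/-- The concave profile. -/
noncomputable def R (ζ : ℝ) : ℝ := (1 - ζ ^ 2) ^ P.α

/-- Its derivative. -/
noncomputable def R1 (ζ : ℝ) : ℝ := -2 * P.α * ζ * (1 - ζ ^ 2) ^ (P.α - 1)

/-- Its second derivative. -/
noncomputable def R2 (ζ : ℝ) : ℝ :=
  -2 * P.α * (1 - ζ ^ 2) ^ (P.α - 1) - 4 * P.α * (1 - P.α) * ζ ^ 2 * (1 - ζ ^ 2) ^ (P.α - 2)

variable {P} {ζ ζ' : ℝ}

lemma hasDerivAt_R (h : 0 < 1 - ζ ^ 2) : HasDerivAt P.R (P.R1 ζ) ζ := by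
  have h1 : HasDerivAt (fun t : ℝ => 1 - t ^ 2) (-(2 * ζ)) ζ := by
    simpa using ((hasDerivAt_pow 2 ζ).const_sub 1)
  have h2 := h1.rpow_const (p := P.α) (Or.inl h.ne')
  convert! h2 using 1
  unfold R1; ring

lemma hasDerivAt_R1 (h : 0 < 1 - ζ ^ 2) : HasDerivAt P.R1 (P.R2 ζ) ζ := by
  have h1 : HasDerivAt (fun t : ℝ => 1 - t ^ 2) (-(2 * ζ)) ζ := by
    simpa using ((hasDerivAt_pow 2 ζ).const_sub 1)
  have h2 := h1.rpow_const (p := P.α - 1) (Or.inl h.ne')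
  have h3 : HasDerivAt (fun t : ℝ => -2 * P.α * t) (-2 * P.α) ζ := by
    simpa using (hasDerivAt_id ζ).const_mul (-2 * P.α)
  have h4 := h3.mul h2
  convert! h4 using 1
  unfold R2
  have : P.α - 1 - 1 = P.α - 2 := by ring
  rw [this]; ring

lemma R_nonneg (h : 0 ≤ 1 - ζ ^ 2) : 0 ≤ P.R ζ := Real.rpow_nonneg h _

lemma R_le_one (h : 0 ≤ 1 - ζ ^ 2) : P.R ζ ≤ 1 :=
  Real.rpow_le_one h (by nlinarith [sq_nonneg ζ]) P.α0.le

/-- Tangent line inequality, with a quantitative gap. -/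
lemma R_tangent (h : 0 ≤ 1 - ζ ^ 2) (h' : 0 < 1 - ζ' ^ 2) :
    P.R ζ ≤ P.R ζ' + P.R1 ζ' * (ζ - ζ')
      - P.α * (1 - ζ' ^ 2) ^ (P.α - 1) * (ζ - ζ') ^ 2 := by
  have := rpow_tangent h h' P.α0 P.α1
  unfold R R1
  nlinarith [this]

lemma R_tangent_le (h : 0 ≤ 1 - ζ ^ 2) (h' : 0 < 1 - ζ' ^ 2) :
    P.R ζ ≤ P.R ζ' + P.R1 ζ' * (ζ - ζ') := by
  have := R_tangent (P := P) h h'
  have h2 : 0 ≤ P.α * (1 - ζ' ^ 2) ^ (P.α - 1) * (ζ - ζ') ^ 2 := by
    have := P.α0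
    have := Real.rpow_pos_of_pos h' (P.α - 1)
    positivity
  linarith

lemma R_tangent_lt (h : 0 ≤ 1 - ζ ^ 2) (h' : 0 < 1 - ζ' ^ 2) (hne : ζ ≠ ζ') :
    P.R ζ < P.R ζ' + P.R1 ζ' * (ζ - ζ') := by
  have := R_tangent (P := P) h h'
  have h2 : 0 < P.α * (1 - ζ' ^ 2) ^ (P.α - 1) * (ζ - ζ') ^ 2 := by
    have := P.α0
    have := Real.rpow_pos_of_pos h' (P.α - 1)
    have : 0 < (ζ - ζ') ^ 2 := by
      have := sub_ne_zero.2 hne
      positivity
    positivity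
  linarith

lemma R1_mul_nonpos (h : 0 < 1 - ζ ^ 2) : ζ * P.R1 ζ ≤ 0 := by
  unfold R1
  have := P.α0
  have := Real.rpow_pos_of_pos h (P.α - 1)
  have h3 : 0 ≤ 2 * P.α * ζ ^ 2 * (1 - ζ ^ 2) ^ (P.α - 1) := by positivity
  nlinarith

lemma neg_R2_pos (h : 0 < 1 - ζ ^ 2) : 0 < - P.R2 ζ := by
  unfold R2
  have h0 := P.α0
  have h1 := P.α1
  have h2 := Real.rpow_pos_of_pos h (P.α - 1)
  have h3 := Real.rpow_pos_of_pos h (P.α - 2)
  have h4 : 0 < 2 * P.α * (1 - ζ ^ 2) ^ (P.α - 1) := by positivity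
  have h5 : 0 ≤ 4 * P.α * (1 - P.α) * ζ ^ 2 * (1 - ζ ^ 2) ^ (P.α - 2) := by
    have : 0 < 1 - P.α := by linarith
    positivity
  linarith

/-- `μ = 1 + s R`. -/
noncomputable def mu (P : Params) (ζ : ℝ) : ℝ := 1 + P.s * P.R ζ

lemma one_le_mu (h : 0 ≤ 1 - ζ ^ 2) : 1 ≤ P.mu ζ := by
  unfold mu
  have := mul_nonneg P.s0.le (R_nonneg (P := P) h)
  linarith

lemma mu_le_two (h : 0 ≤ 1 - ζ ^ 2) : P.mu ζ ≤ 2 := by
  unfold mu
  have h1 := R_le_one (P := P) h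
  have h2 := R_nonneg (P := P) h
  nlinarith [P.s1, P.s0]

lemma mu_pos (h : 0 ≤ 1 - ζ ^ 2) : 0 < P.mu ζ := lt_of_lt_of_le one_pos (one_le_mu h)

lemma mu_tangent_le (h : 0 ≤ 1 - ζ ^ 2) (h' : 0 < 1 - ζ' ^ 2) :
    P.mu ζ ≤ P.mu ζ' + P.s * P.R1 ζ' * (ζ - ζ') := by
  have := mul_le_mul_of_nonneg_left (R_tangent_le (P := P) h h') P.s0.le
  unfold mu
  nlinarith

lemma mu_tangent_lt (h : 0 ≤ 1 - ζ ^ 2) (h' : 0 < 1 - ζ' ^ 2) (hne : ζ ≠ ζ') :
    P.mu ζ < P.mu ζ' + P.s * P.R1 ζ' * (ζ - ζ') := by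
  have := mul_lt_mul_of_pos_left (R_tangent_lt (P := P) h h' hne) P.s0
  unfold mu
  nlinarith

lemma continuous_R : Continuous P.R := by
  unfold R
  exact (continuous_const.sub (continuous_pow 2)).rpow_const fun _ => Or.inr P.α0.le

lemma continuous_mu : Continuous P.mu :=
  continuous_const.add (continuous_const.mul continuous_R)

end Params

end Pool.Agent.Lib.MP_1f66ea_an
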