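import Pool.Agent.Lib.MP_1f66ea_an.Frame
import Pool.Agent.Lib.MP_1f66ea_an.Profile

/-!
# The gauge of the wedge body
-/

namespace Pool.Agent.Lib.MP_1f66ea_an

open scoped RealInnerProductSpace
open Set

variable {V : Type*} [NormedAddCommGroup V] [InnerProductSpace ℝ V] (F : Frame V) (P : Params)

namespace Frame

/-- Projection along `e1`. -/
noncomputable def w : V →L[ℝ] V := ContinuousLinearMap.id ℝ V - F.z.smulRight F.e1

lemma w_apply (v : V) : F.w v = v - F.z v • F.e1 := rfl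

lemma w_eq (v : V) : F.w v = F.x v + F.y v • F.e0 := by
  rw [w_apply, x_apply]; abel

lemma norm_w_sq (v : V) : ‖F.w v‖ ^ 2 = ‖F.x v‖ ^ 2 + F.y v ^ 2 := by
  rw [F.norm_sq (F.w v), w_eq]
  simp

lemma inner_w_left (v v' : V) : ⟪F.w v, v'⟫ = ⟪F.x v, F.x v'⟫ + F.y v * F.y v' := by
  rw [F.inner_eq, w_eq]
  simp

end Frame

/-- `√(|x|² + y²)`. -/
noncomputable def rt (v : V) : ℝ := ‖F.w v‖

/-- The concave function `y μ(z / (s y))`. -/
noncomputable def M (v : V) : ℝ := F.y v * P.mu (F.z v / (P.s * F.y v))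

/-- The gauge. -/
noncomputable def g (v : V) : ℝ := rt F v + 2 * F.y v - gm P.γ (rt F v) (M F P v)

/-- The closed wedge. -/
def W : Set V := {v | |F.z v| ≤ P.s * F.y v}

/-- The open wedge. -/
def Wo : Set V := {v | |F.z v| < P.s * F.y v}

variable {F P}

lemma mem_W {v : V} : v ∈ W F P ↔ |F.z v| ≤ P.s * F.y v := Iff.rfl
lemma mem_Wo {v : V} : v ∈ Wo F P ↔ |F.z v| < P.s * F.y v := Iff.rfl

lemma Wo_subset_W : Wo F P ⊆ W F P := fun _ hv => mem_W.2 (mem_Wo.1 hv).le

lemma y_nonneg {v : V} (hv : v ∈ W F P) : 0 ≤ F.y v := by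
  have := (abs_nonneg (F.z v)).trans (mem_W.1 hv)
  exact nonneg_of_mul_nonneg_right this P.s0

lemma y_pos {v : V} (hv : v ∈ Wo F P) : 0 < F.y v := by
  have := (abs_nonneg (F.z v)).trans_lt (mem_Wo.1 hv)
  exact (pos_iff_pos_of_mul_pos this).1 P.s0

lemma z_eq_zero {v : V} (hv : v ∈ W F P) (hy : F.y v = 0) : F.z v = 0 := by
  have := mem_W.1 hv
  rw [hy, mul_zero] at this
  exact abs_nonpos_iff.1 this

lemma ratio_le {v : V} (hv : v ∈ W F P) : 0 ≤ 1 - (F.z v / (P.s * F.y v)) ^ 2 := by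
  rcases (y_nonneg hv).eq_or_lt with h | h
  · rw [z_eq_zero hv h.symm]; simp
  · have hp : 0 < P.s * F.y v := mul_pos P.s0 h
    have : |F.z v / (P.s * F.y v)| ≤ 1 := by
      rw [abs_div, abs_of_pos hp, div_le_one hp]; exact mem_W.1 hv
    have := (sq_le_one_iff_abs_le_one _).2 this
    linarith

lemma ratio_lt {v : V} (hv : v ∈ Wo F P) : 0 < 1 - (F.z v / (P.s * F.y v)) ^ 2 := by
  have hp : 0 < P.s * F.y v := mul_pos P.s0 (y_pos hv)
  have : |F.z v / (P.s * F.y v)| < 1 := by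
    rw [abs_div, abs_of_pos hp, div_lt_one hp]; exact mem_Wo.1 hv
  have := (sq_lt_one_iff_abs_lt_one _).2 this
  linarith

lemma zero_mem_W : (0 : V) ∈ W F P := by simp [mem_W]

lemma add_mem_W {v w : V} (hv : v ∈ W F P) (hw : w ∈ W F P) : v + w ∈ W F P := by
  rw [mem_W] at *
  rw [map_add, map_add]
  calc |F.z v + F.z w| ≤ |F.z v| + |F.z w| := abs_add_le _ _
    _ ≤ _ := by linarith

lemma smul_mem_W {v : V} {c : ℝ} (hc : 0 ≤ c) (hv : v ∈ W F P) : c • v ∈ W F P := by
  rw [mem_W] at *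
  rw [map_smul, map_smul, smul_eq_mul, smul_eq_mul, abs_mul, abs_of_nonneg hc]
  nlinarith [mul_le_mul_of_nonneg_left hv hc]

lemma smul_mem_Wo {v : V} {c : ℝ} (hc : 0 < c) (hv : v ∈ Wo F P) : c • v ∈ Wo F P := by
  rw [mem_Wo] at *
  rw [map_smul, map_smul, smul_eq_mul, smul_eq_mul, abs_mul, abs_of_pos hc]
  nlinarith [mul_lt_mul_of_pos_left hv hc]

lemma isClosed_W : IsClosed (W F P) :=
  isClosed_le (by fun_prop) (by fun_prop)

lemma isOpen_Wo : IsOpen (Wo F P) :=
  isOpen_lt (by fun_prop) (by fun_prop)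

lemma convex_W : Convex ℝ (W F P) := by
  intro v hv w hw a b ha hb _
  exact add_mem_W (smul_mem_W ha hv) (smul_mem_W hb hw)

/-! ### `rt` -/

lemma rt_nonneg (v : V) : 0 ≤ rt F v := norm_nonneg _

lemma rt_sq (v : V) : rt F v ^ 2 = ‖F.x v‖ ^ 2 + F.y v ^ 2 := F.norm_w_sq v

lemma rt_add_le (v w : V) : rt F (v + w) ≤ rt F v + rt F w := by
  unfold rt; rw [map_add]; exact norm_add_le _ _

lemma rt_smul {c : ℝ} (hc : 0 ≤ c) (v : V) : rt F (c • v) = c * rt F v := by
  unfold rt; rw [map_smul, norm_smul, Real.norm_of_nonneg hc]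

lemma abs_y_le_rt (v : V) : |F.y v| ≤ rt F v := by
  refine abs_le_of_sq_le_sq ?_ (rt_nonneg v)
  rw [rt_sq]
  nlinarith [sq_nonneg ‖F.x v‖]

lemma norm_x_le_rt (v : V) : ‖F.x v‖ ≤ rt F v := by
  refine abs_le_of_sq_le_sq' ?_ (rt_nonneg v) |>.2
  rw [rt_sq]
  nlinarith [sq_nonneg (F.y v)]

lemma norm_le_rt {v : V} (hv : v ∈ W F P) : ‖v‖ ≤ 2 * rt F v := by
  refine abs_le_of_sq_le_sq' ?_ (by have := rt_nonneg (F := F) v; positivity) |>.2
  rw [F.norm_sq, mul_pow, rt_sq]
  have h1 := mem_W.1 hv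
  have h2 : F.z v ^ 2 ≤ F.y v ^ 2 := by
    rw [← sq_abs (F.z v)]
    refine pow_le_pow_left₀ (abs_nonneg _) (h1.trans ?_) 2
    nlinarith [P.s1, y_nonneg hv]
  nlinarith [sq_nonneg ‖F.x v‖, sq_nonneg (F.y v)]

lemma rt_le_norm (v : V) : rt F v ≤ ‖v‖ := by
  refine abs_le_of_sq_le_sq' ?_ (norm_nonneg _) |>.2
  rw [F.norm_sq, rt_sq]
  nlinarith [sq_nonneg (F.z v)]

/-! ### `M` -/

lemma y_le_M {v : V} (hv : v ∈ W F P) : F.y v ≤ M F P v := by
  unfold M
  nlinarith [P.one_le_mu (ratio_le hv), y_nonneg hv]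

lemma M_le {v : V} (hv : v ∈ W F P) : M F P v ≤ 2 * F.y v := by
  unfold M
  nlinarith [P.mu_le_two (ratio_le hv), y_nonneg hv]

lemma M_nonneg {v : V} (hv : v ∈ W F P) : 0 ≤ M F P v := (y_nonneg hv).trans (y_le_M hv)

lemma M_pos {v : V} (hv : v ∈ Wo F P) : 0 < M F P v :=
  (y_pos hv).trans_le (y_le_M (Wo_subset_W hv))

lemma M_smul {v : V} {c : ℝ} (hc : 0 ≤ c) : M F P (c • v) = c * M F P v := by
  unfold M
  rw [map_smul, map_smul, smul_eq_mul, smul_eq_mul]
  rcases hc.eq_or_lt with rfl | hc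
  · simp
  · have : c * F.z v / (P.s * (c * F.y v)) = F.z v / (P.s * F.y v) := by
      rw [mul_left_comm, mul_div_mul_left _ _ hc.ne']
    rw [this, mul_assoc]

/-- Tangent inequality for `M`. -/
lemma M_le_tangent {v : V} (hv : v ∈ W F P) {ζ : ℝ} (hζ : 0 < 1 - ζ ^ 2) :
    M F P v ≤ F.y v * (P.mu ζ - P.s * ζ * P.R1 ζ) + F.z v * P.R1 ζ := by
  rcases (y_nonneg hv).eq_or_lt with h | h
  · rw [M, z_eq_zero hv h.symm, ← h]; simp
  · have h1 := P.mu_tangent_le (ratio_le hv) hζ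
    have h2 := mul_le_mul_of_nonneg_left h1 h.le
    have hs := P.s0.ne'
    have hy := h.ne'
    unfold M
    refine h2.trans (le_of_eq ?_)
    field_simp
    ring

lemma M_facet {v : V} (hy : 0 < F.y v) (h : |F.z v| = P.s * F.y v) : M F P v = F.y v := by
  have hp : 0 < P.s * F.y v := mul_pos P.s0 hy
  have h1 : (F.z v / (P.s * F.y v)) ^ 2 = 1 := by
    rw [← sq_abs, abs_div, abs_of_pos hp, h, div_self hp.ne', one_pow]
  unfold M Params.mu Params.R
  rw [h1, sub_self, Real.zero_rpow P.α0.ne']; simp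

lemma M_superadd {v w : V} (hv : v ∈ W F P) (hw : w ∈ W F P) :
    M F P v + M F P w ≤ M F P (v + w) := by
  have hvw := add_mem_W hv hw
  rcases (y_nonneg hv).eq_or_lt with h | h
  · unfold M
    rw [map_add, map_add, z_eq_zero hv h.symm, ← h]; simp
  rcases (y_nonneg hw).eq_or_lt with h' | h'
  · unfold M
    rw [map_add, map_add, z_eq_zero hw h'.symm, ← h']; simp
  have hyvw : 0 < F.y (v + w) := by rw [map_add]; linarith
  have hp : 0 < P.s * F.y (v + w) := mul_pos P.s0 hyvw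
  rcases (ratio_le hvw).eq_or_lt with h1 | h1
  · -- everything in a facet
    have h2 : |F.z (v + w)| = P.s * F.y (v + w) := by
      have h3 : |F.z (v + w) / (P.s * F.y (v + w))| ^ 2 = 1 := by rw [sq_abs]; linarith
      have h4 : |F.z (v + w) / (P.s * F.y (v + w))| = 1 :=
        (pow_eq_one_iff_of_nonneg (abs_nonneg _) two_ne_zero).1 h3
      rw [abs_div, abs_of_pos hp, div_eq_one_iff_eq hp.ne'] at h4
      exact h4
    have hv' := mem_W.1 hv
    have hw' := mem_W.1 hw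
    have h3 := abs_add_le (F.z v) (F.z w)
    have h2' := h2
    rw [map_add, map_add] at h2'
    rw [M_facet hyvw h2, M_facet h (by linarith), M_facet h' (by linarith), map_add]
  · have t1 := M_le_tangent hv h1
    have t2 := M_le_tangent hw h1
    have t3 : M F P (v + w) = F.y (v + w) * (P.mu (F.z (v + w) / (P.s * F.y (v + w)))
        - P.s * (F.z (v + w) / (P.s * F.y (v + w))) * P.R1 (F.z (v + w) / (P.s * F.y (v + w))))
        + F.z (v + w) * P.R1 (F.z (v + w) / (P.s * F.y (v + w))) := by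
      have hy := hyvw.ne'
      have hs := P.s0.ne'
      unfold M
      field_simp
      ring
    rw [t3]
    set ζ := F.z (v + w) / (P.s * F.y (v + w))
    rw [map_add, map_add]
    linarith

lemma continuousOn_M : ContinuousOn (M F P) (W F P) := by
  intro v hv
  rcases (y_nonneg hv).eq_or_lt with h | h
  · -- squeeze
    have hM : M F P v = 0 := by
      have := M_le hv; have := M_nonneg hv; rw [← h] at *; linarith
    have h2 : Filter.Tendsto (fun w => 2 * F.y w) (nhdsWithin v (W F P)) (nhds 0) := by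
      have : Filter.Tendsto (fun w => 2 * F.y w) (nhdsWithin v (W F P)) (nhds (2 * F.y v)) :=
        (Continuous.tendsto (by fun_prop) v).mono_left nhdsWithin_le_nhds
      rwa [← h, mul_zero] at this
    unfold ContinuousWithinAt
    rw [hM]
    refine tendsto_of_tendsto_of_tendsto_of_le_of_le' tendsto_const_nhds h2 ?_ ?_
    · filter_upwards [self_mem_nhdsWithin] with w hw using M_nonneg hw
    · filter_upwards [self_mem_nhdsWithin] with w hw using M_le hw
  · refine ContinuousAt.continuousWithinAt ?_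
    unfold M
    have hp : P.s * F.y v ≠ 0 := (mul_pos P.s0 h).ne'
    have h1 : ContinuousAt (fun w => F.z w / (P.s * F.y w)) v :=
      ContinuousAt.div (by fun_prop) (by fun_prop) hp
    exact (by fun_prop : ContinuousAt (fun w => F.y w) v).mul
      (P.continuous_mu.continuousAt.comp h1)

/-! ### The gauge -/

lemma g_smul {v : V} (hv : v ∈ W F P) {c : ℝ} (hc : 0 ≤ c) : g F P (c • v) = c * g F P v := by
  unfold g
  rw [rt_smul hc, M_smul hc, gm_smul hc (rt_nonneg v) (M_nonneg hv) P.γ0 P.γ1, map_smul,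
    smul_eq_mul]
  ring

lemma y_le_rt {v : V} : F.y v ≤ rt F v := (le_abs_self _).trans (abs_y_le_rt v)

lemma g_add_le {v w : V} (hv : v ∈ W F P) (hw : w ∈ W F P) :
    g F P (v + w) ≤ g F P v + g F P w := by
  have hvw := add_mem_W hv hw
  have h1 : rt F (v + w) - gm P.γ (rt F (v + w)) (M F P (v + w))
      ≤ (rt F v + rt F w) - gm P.γ (rt F v + rt F w) (M F P (v + w)) := by
    refine sub_gm_mono P.γ0 P.γ1 (M_nonneg hvw) (rt_nonneg _) (rt_add_le v w) ?_
    have := M_le hvw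
    have := y_le_rt (F := F) (v := v + w)
    linarith
  have h2 : gm P.γ (rt F v + rt F w) (M F P v + M F P w)
      ≤ gm P.γ (rt F v + rt F w) (M F P (v + w)) := by
    unfold gm
    refine mul_le_mul_of_nonneg_left ?_ (Real.rpow_nonneg (add_nonneg (rt_nonneg _) (rt_nonneg _)) _)
    exact Real.rpow_le_rpow (add_nonneg (M_nonneg hv) (M_nonneg hw)) (M_superadd hv hw)
      (by have := P.γ1; linarith)
  have h3 := gm_superadd P.γ0 P.γ1 (rt_nonneg (F := F) v) (M_nonneg hv) (rt_nonneg (F := F) w)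
    (M_nonneg hw)
  unfold g
  rw [map_add]
  linarith

lemma g_ge {v : V} (hv : v ∈ W F P) : (1 - P.γ) * rt F v ≤ g F P v := by
  have h1 := gm_le P.γ0.le P.γ1.le (rt_nonneg (F := F) v) (M_nonneg hv)
  have h2 := M_le hv
  have h3 := y_nonneg hv
  have h4 := P.γ0
  have h5 := P.γ1
  unfold g
  nlinarith

lemma g_le {v : V} (hv : v ∈ W F P) : g F P v ≤ 3 * rt F v := by
  have h1 := gm_nonneg (γ := P.γ) (rt_nonneg (F := F) v) (M_nonneg hv)
  have h2 := y_le_rt (F := F) (v := v)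
  unfold g
  linarith

lemma g_nonneg {v : V} (hv : v ∈ W F P) : 0 ≤ g F P v := by
  have := g_ge hv
  have h5 := P.γ1
  have := rt_nonneg (F := F) v
  have : 0 ≤ (1 - P.γ) * rt F v := by
    have : 0 ≤ 1 - P.γ := by linarith
    positivity
  linarith

lemma rt_pos {v : V} (hv : v ∈ W F P) (h0 : v ≠ 0) : 0 < rt F v := by
  have := norm_le_rt hv
  have := norm_pos_iff.2 h0
  linarith

lemma g_pos {v : V} (hv : v ∈ W F P) (h0 : v ≠ 0) : 0 < g F P v := by
  have := g_ge hv
  have h5 := P.γ1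
  have := rt_pos hv h0
  have : 0 < (1 - P.γ) * rt F v := by
    have : 0 < 1 - P.γ := by linarith
    positivity
  linarith

lemma ne_zero_of_mem_Wo {v : V} (hv : v ∈ Wo F P) : v ≠ 0 := by
  rintro rfl
  have := y_pos hv
  simp at this

lemma norm_le_g {v : V} (hv : v ∈ W F P) : (1 - P.γ) * ‖v‖ ≤ 2 * g F P v := by
  have h1 := g_ge hv
  have h2 := norm_le_rt hv
  have h5 : 0 < 1 - P.γ := by have := P.γ1; linarith
  nlinarith

lemma continuousOn_g : ContinuousOn (g F P) (W F P) := by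
  unfold g gm
  have hrt : Continuous (rt F) := by unfold rt; fun_prop
  refine ((hrt.continuousOn.add (by fun_prop)).sub ?_)
  refine ContinuousOn.mul ?_ ?_
  · exact (hrt.rpow_const fun _ => Or.inr P.γ0.le).continuousOn
  · exact continuousOn_M.rpow_const fun _ _ => Or.inr (by have := P.γ1; linarith)

end Pool.Agent.Lib.MP_1f66ea_an
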