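import Pool.Agent.Lib.MP_1f66ea_an.Polar
import Pool.Agent.Lib.MP_1f66ea_an.Body

/-!
# Jacobians of the two parametrisations
-/

namespace Pool.Agent.Lib.MP_1f66ea_an

open scoped RealInnerProductSpace ENNReal Pointwise
open Set MeasureTheory Metric

variable {V : Type*} [NormedAddCommGroup V] [InnerProductSpace ℝ V] {F : Frame V} {P : Params}

lemma hasFDerivAt_rho (q : V) :
    HasFDerivAt (rho F) ((rho F q)⁻¹ • innerSL ℝ (F.x q)) q := by
  have h1 : HasFDerivAt (fun w => 1 + ‖F.x w‖ ^ 2) (2 • (innerSL ℝ (F.x q)).comp F.x) q :=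
    ((F.x.hasFDerivAt (x := q)).norm_sq).const_add 1
  have h2 : HasFDerivAt (rho F)
      ((1 / (2 * √(1 + ‖F.x q‖ ^ 2))) • (2 • (innerSL ℝ (F.x q)).comp F.x)) q :=
    h1.sqrt (by positivity)
  refine h2.congr_fderiv ?_
  ext w
  have hr := (rho_pos (F := F) q).ne'
  simp only [smul_apply, ContinuousLinearMap.comp_apply, innerSL_apply_apply, smul_eq_mul,
    nsmul_eq_mul]
  rw [← F.inner_x_left q w]
  change 1 / (2 * rho F q) * _ = _
  field_simp
  norm_num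

lemma hasFDerivAt_mu {q : V} (hq : q ∈ Strip F) :
    HasFDerivAt (fun q => P.mu (F.z q)) ((P.s * P.R1 (F.z q)) • F.z) q := by
  have h1 : HasDerivAt P.mu (P.s * P.R1 (F.z q)) (F.z q) :=
    ((P.hasDerivAt_R (mem_strip.1 hq)).const_mul P.s).const_add 1
  exact h1.comp_hasFDerivAt q F.z.hasFDerivAt

/-- Derivative of a function of `ρ` and `z`, with partial derivatives `a` and `b`. -/
noncomputable def rz (F : Frame V) (q : V) (a b : ℝ) : V →L[ℝ] ℝ :=
  (a * (rho F q)⁻¹) • innerSL ℝ (F.x q) + b • F.z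

@[simp] lemma rz_e0 (q : V) (a b : ℝ) : rz F q a b F.e0 = 0 := by
  simp [rz, F.inner_x_e0]

@[simp] lemma rz_e1 (q : V) (a b : ℝ) : rz F q a b F.e1 = b := by
  simp [rz, F.inner_x_e1]

lemma rz_x (q : V) (a b : ℝ) : rz F q a b (F.x q) = a * (rho F q)⁻¹ * ‖F.x q‖ ^ 2 := by
  simp [rz]

lemma hasFDerivAt_T {q : V} (hq : q ∈ Strip F) :
    HasFDerivAt (T F P) (rz F q (P.γ * (T F P q / rho F q))
      ((1 - P.γ) * (T F P q / P.mu (F.z q)) * (P.s * P.R1 (F.z q)))) q := by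
  have h := HasFDerivAt.gm (γ := P.γ) (hasFDerivAt_rho (F := F) q) (hasFDerivAt_mu (P := P) hq) (rho_pos (F := F) q)
    (P.mu_pos (mem_strip.1 hq).le)
  refine h.congr_fderiv ?_
  ext w
  simp only [rz, add_apply, smul_apply, smul_eq_mul]
  unfold T
  ring

lemma hasFDerivAt_phi {q : V} (hq : q ∈ Strip F) :
    HasFDerivAt (phi F P) (rz F q
      (-(rho F q ^ 2)⁻¹ + P.γ * (2 - P.γ) * T F P q / rho F q ^ 3)
      (-P.γ * ((1 - P.γ) * (T F P q / P.mu (F.z q)) * (P.s * P.R1 (F.z q))) / rho F q ^ 2)) q := by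
  have hr := (rho_pos (F := F) q).ne'
  have h1 := (hasDerivAt_inv hr).comp_hasFDerivAt q (hasFDerivAt_rho (F := F) q)
  have h2 := (hasFDerivAt_T (P := P) hq).const_mul P.γ
  have h3 := h1.sub ((h2.mul h1).mul h1)
  have e : phi F P = fun q => ((Inv.inv ∘ rho F) q - P.γ * T F P q * (Inv.inv ∘ rho F) q
      * (Inv.inv ∘ rho F) q) := by
    ext w
    have hw := (rho_pos (F := F) w).ne'
    simp only [Function.comp, phi]
    field_simp
  rw [e]
  refine h3.congr_fderiv ?_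
  ext w
  simp only [rz, add_apply, sub_apply, smul_apply, smul_eq_mul, Function.comp, Pi.mul_apply]
  field_simp
  ring

lemma hasFDerivAt_Zf {q : V} (hq : q ∈ Strip F) :
    HasFDerivAt (Zf F P) (rz F q
      (-(1 - P.γ) * (P.γ * (T F P q / rho F q) / P.mu (F.z q)) * P.R1 (F.z q))
      ((1 - P.γ) * (T F P q / P.mu (F.z q)) *
        (-P.R2 (F.z q) + P.γ * P.s * P.R1 (F.z q) ^ 2 / P.mu (F.z q)))) q := by
  have hm := (P.mu_pos (mem_strip.1 hq).le).ne'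
  have h1 := (hasDerivAt_inv hm).comp_hasFDerivAt q (hasFDerivAt_mu (P := P) hq)
  have h2 := hasFDerivAt_T (P := P) hq
  have h3 := (P.hasDerivAt_R1 (mem_strip.1 hq)).comp_hasFDerivAt q (F.z.hasFDerivAt (x := q))
  have h4 := ((h2.mul h1).mul h3).const_mul (-(1 - P.γ))
  have e : Zf F P = fun q => -(1 - P.γ) * ((T F P * (Inv.inv ∘ fun q => P.mu (F.z q))) *
      (P.R1 ∘ F.z)) q := by
    ext w
    simp only [Zf, Pi.mul_apply, Function.comp, div_eq_mul_inv]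
    ring
  rw [e]
  refine h4.congr_fderiv ?_
  have hr := (rho_pos (F := F) q).ne'
  ext w
  simp only [rz, add_apply, smul_apply, smul_eq_mul, Function.comp, Pi.mul_apply]
  field_simp
  ring

lemma Yf_eq' {q : V} (hq : q ∈ Strip F) :
    Yf F P q = 2 + phi F P q - (1 - P.γ) * T F P q - P.s * (F.z q * Zf F P q) := by
  have hm := (P.mu_pos (mem_strip.1 hq).le).ne'
  unfold Yf Zf
  field_simp
  ring

lemma hasFDerivAt_Yf {q : V} (hq : q ∈ Strip F) {φρ φζ Zρ Zζ : ℝ}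
    (hφ : HasFDerivAt (phi F P) (rz F q φρ φζ) q) (hZ : HasFDerivAt (Zf F P) (rz F q Zρ Zζ) q) :
    HasFDerivAt (Yf F P) (rz F q
      (φρ - (1 - P.γ) * (P.γ * (T F P q / rho F q)) - P.s * F.z q * Zρ)
      (φζ - (1 - P.γ) * ((1 - P.γ) * (T F P q / P.mu (F.z q)) * (P.s * P.R1 (F.z q)))
        - P.s * (Zf F P q + F.z q * Zζ))) q := by
  have h2 := (hasFDerivAt_T (P := P) hq).const_mul (1 - P.γ)
  have h3 := ((F.z.hasFDerivAt (x := q)).mul hZ).const_mul P.s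
  have h4 := ((hφ.const_add 2).sub h2).sub h3
  have h5 : HasFDerivAt (Yf F P) _ q := h4.congr_of_eventuallyEq (by
    filter_upwards [isOpen_strip.mem_nhds hq] with w hw
    rw [Yf_eq' hw]; rfl)
  refine h5.congr_fderiv ?_
  ext w
  simp only [rz, add_apply, sub_apply, smul_apply, smul_eq_mul]
  ring

/-- The second order factor of the Jacobian. -/
noncomputable def Dl (F : Frame V) (P : Params) (q : V) : ℝ :=
  (1 - P.γ * T F P q / rho F q) / rho F q ^ 3 * ((1 - P.γ) * (T F P q / P.mu (F.z q)) *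
    (-P.R2 (F.z q) + P.γ * P.s * P.R1 (F.z q) ^ 2 / P.mu (F.z q)))
  + P.γ * (1 - P.γ) ^ 2 * (T F P q ^ 2 * ‖F.x q‖ ^ 2 / (rho F q ^ 4 * P.mu (F.z q)))
    * (-P.R2 (F.z q))

lemma det_u [FiniteDimensional ℝ V] {m : ℕ} (hn : Module.finrank ℝ V = m + 3) {q : V}
    (hq : q ∈ Strip F) (hy : 0 < F.y q) :
    ∃ L : V →L[ℝ] V, HasFDerivAt (rad F (u F P)) L q ∧ L.det =
      (F.y q) ^ (m + 2) * (‖u F P q‖⁻¹) ^ (m + 3) * (phi F P q) ^ m *
      (f F P q * Dl F P q) := by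
  have hφ := hasFDerivAt_phi (P := P) hq
  have hZ := hasFDerivAt_Zf (P := P) hq
  have hY := hasFDerivAt_Yf hq hφ hZ
  obtain ⟨L, hL, hdet⟩ := det_rad hn hφ hY hZ (rz_e0 _ _ _) (rz_e0 _ _ _) (rz_e0 _ _ _)
    (phi_pos hq) hy (fun _ => rfl) (u_ne_zero hq)
  refine ⟨L, hL, ?_⟩
  rw [hdet]
  congr 1
  simp only [rz_e1, rz_x]
  have hm := (P.mu_pos (mem_strip.1 hq).le).ne'
  have hr := (rho_pos (F := F) q).ne'
  have h2 : ‖F.x q‖ ^ 2 = rho F q ^ 2 - 1 := by rw [rho_sq]; ring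
  unfold Dl
  rw [h2, Yf_eq' hq]
  unfold Zf f phi
  field_simp
  ring

lemma det_vv [FiniteDimensional ℝ V] {m : ℕ} (hn : Module.finrank ℝ V = m + 3) {q : V}
    (hy : 0 < F.y q) :
    ∃ L : V →L[ℝ] V, HasFDerivAt (rad F (vv F P)) L q ∧ L.det =
      (F.y q) ^ (m + 2) * (‖vv F P q‖⁻¹) ^ (m + 3) * P.s := by
  have h1 : HasFDerivAt (fun _ : V => (1 : ℝ)) (0 : V →L[ℝ] ℝ) q := hasFDerivAt_const _ _
  have h2 : HasFDerivAt (fun q : V => P.s * F.z q) (P.s • F.z) q :=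
    (F.z.hasFDerivAt (x := q)).const_mul P.s
  have hne : vv F P q ≠ 0 := by
    intro h
    have := y_vv (F := F) (P := P) q
    rw [h, map_zero] at this
    exact zero_ne_one this
  obtain ⟨L, hL, hdet⟩ := det_rad hn h1 h1 h2 (by simp) (by simp) (by simp)
    one_pos hy (B := vv F P) (fun q => by simp [vv]) hne
  refine ⟨L, hL, ?_⟩
  rw [hdet]
  simp

end Pool.Agent.Lib.MP_1f66ea_an
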