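import Pool.Agent.Lib.MP_1f66ea_an.Density

/-!
# The final comparison of densities
-/

namespace Pool.Agent.Lib.MP_1f66ea_an

open scoped RealInnerProductSpace ENNReal
open Set

variable {V : Type*} [NormedAddCommGroup V] [InnerProductSpace ℝ V]

/-- The density of the `L_p` dual curvature measure (up to normalisation). -/
noncomputable def densA (F : Frame V) (P : Params) (m : ℕ) (p r : ℝ) (q : V) : ℝ :=
  ‖u F P q‖ ^ p * (‖vv F P q‖ / f F P q) ^ r * (‖vv F P q‖⁻¹) ^ (m + 3)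

/-- The density of the spherical measure (up to normalisation). -/
noncomputable def densB (F : Frame V) (P : Params) (m : ℕ) (q : V) : ℝ :=
  (‖u F P q‖⁻¹) ^ (m + 3) * phi F P q ^ m * (f F P q * Dl F P q)

lemma cmp_dens (m : ℕ) (p r : ℝ) {N : ℝ} (hNdef : N = (m + 3 : ℕ) + p) (hN : 4 < N) :
    ∃ C : ℝ, ∀ (s : ℝ) (hs : 0 < s) (hs1 : s ≤ 1) (F : Frame V), ∀ q ∈ Strip F,
      Cmp C (densA F (mkP N s hN hs hs1) m p r q) (densB F (mkP N s hN hs hs1) m q) := by
  apply Exists.intro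
  intro s hs hs1 F q hq
  set P := mkP N s hN hs hs1 with hP
  have hPγ : P.γ = 2 / (N - 2) := rfl
  have hr := rho_pos (F := F) q
  have hT := T_pos (P := P) hq
  have hu0 := norm_pos_iff.2 (u_ne_zero (P := P) hq)
  have hR2 := P.neg_R2_pos (mem_strip.1 hq)
  -- norm of the gradient
  have c1 := (cmp_u (P := P) hq).rpow_pos (r := N) (by linarith)
  have e1 : (T F P q * √(1 + P.R1 (F.z q) ^ 2)) ^ N
      = T F P q ^ (N - 2) * T F P q ^ 2 * (1 + P.R1 (F.z q) ^ 2) ^ (N / 2) := by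
    rw [Real.mul_rpow hT.le (Real.sqrt_nonneg _), Real.sqrt_eq_rpow, ← Real.rpow_mul (by positivity)]
    have : T F P q ^ N = T F P q ^ (N - 2) * T F P q ^ 2 := by
      rw [← Real.rpow_natCast, ← Real.rpow_add hT]; congr 1; push_cast; ring
    rw [this]
    congr 2
    ring
  rw [e1, hPγ] at c1
  have c2 := (cmp_T (F := F) (hN := hN) (hs := hs) (hs1 := hs1) hq).mul
    (Cmp.refl (by positivity : 0 < T F P q ^ 2))
  have c3 := cmp_profile hN hs hs1 (mem_strip.1 hq)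
  have c4 := c1.trans (c2.mul c3)
  -- the density `A`
  have cvv := cmp_vv (P := P) hq
  have cf := cmp_f (P := P) hq
  rw [hPγ] at cf
  have c5 := (cvv.div cf).rpow r
  have e2 : (rho F q / rho F q) ^ r = 1 := by rw [div_self hr.ne', Real.one_rpow]
  rw [e2] at c5
  have c6 := (cvv.inv).npow (m + 3)
  have cu := Cmp.refl (by positivity : 0 < (‖u F P q‖⁻¹) ^ (m + 3))
  have cA := ((c4.mul cu).mul c5).mul c6
  have eA : ‖u F P q‖ ^ N * (‖u F P q‖⁻¹) ^ (m + 3) * (‖vv F P q‖ / f F P q) ^ r *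
      (‖vv F P q‖⁻¹) ^ (m + 3) = densA F P m p r q := by
    unfold densA
    have : ‖u F P q‖ ^ N * (‖u F P q‖⁻¹) ^ (m + 3) = ‖u F P q‖ ^ p := by
      rw [inv_pow, ← Real.rpow_natCast, ← Real.rpow_neg hu0.le, ← Real.rpow_add hu0]
      congr 1
      rw [hNdef]; ring
    rw [this]
  rw [eA] at cA
  -- the density `B`
  have cphi := (cmp_phi (P := P) hq).npow m
  rw [hPγ] at cphi
  have cD := cmp_Dl (P := P) (C := CR N) hq (by
    have h1 := (cmp_profile hN hs hs1 (mem_strip.1 hq)).le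
    refine le_trans ?_ h1
    have h2 : (1 + P.R1 (F.z q) ^ 2) ^ (1 : ℝ) ≤ (1 + P.R1 (F.z q) ^ 2) ^ (N / 2) :=
      Real.rpow_le_rpow_of_exponent_le (by nlinarith [sq_nonneg (P.R1 (F.z q))]) (by linarith)
    rwa [Real.rpow_one] at h2)
  rw [hPγ] at cD
  have cB := (cu.mul cphi).mul (cf.mul cD)
  have eB : (‖u F P q‖⁻¹) ^ (m + 3) * phi F P q ^ m * (f F P q * Dl F P q) = densB F P m q := rfl
  rw [eB] at cB
  -- the two comparison functions agree
  have eAB : rho F q ^ 2 * T F P q ^ 2 * -P.R2 (F.z q) * (‖u F P q‖⁻¹) ^ (m + 3) * 1 *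
      ((rho F q)⁻¹) ^ (m + 3) =
      (‖u F P q‖⁻¹) ^ (m + 3) * ((rho F q)⁻¹) ^ m * (rho F q * (-P.R2 (F.z q) * T F P q ^ 2 / rho F q ^ 2)) := by
    rw [pow_add ((rho F q)⁻¹) m 3]
    field_simp
  rw [eAB] at cA
  exact cA.trans cB.symm

end Pool.Agent.Lib.MP_1f66ea_an
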