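import Pool.Agent.Lib.MP_1f66ea_an.Gauge

/-!
# Parametrisation of the boundary and its normals
-/

namespace Pool.Agent.Lib.MP_1f66ea_an

open scoped RealInnerProductSpace
open Set

variable {V : Type*} [NormedAddCommGroup V] [InnerProductSpace ℝ V] (F : Frame V) (P : Params)

/-- `√(1 + |x|²)`. -/
noncomputable def rho (q : V) : ℝ := √(1 + ‖F.x q‖ ^ 2)

/-- `ρ^γ μ^(1-γ)`. -/
noncomputable def T (q : V) : ℝ := gm P.γ (rho F q) (P.mu (F.z q))

/-- Gauge in the affine chart `y = 1`. -/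
noncomputable def f (q : V) : ℝ := rho F q + 2 - T F P q

/-- Coefficient of `x` in the gradient. -/
noncomputable def phi (q : V) : ℝ := (1 - P.γ * T F P q / rho F q) / rho F q

/-- `z`-component of the gradient. -/
noncomputable def Zf (q : V) : ℝ := -((1 - P.γ) * (T F P q / P.mu (F.z q)) * P.R1 (F.z q))

/-- `y`-component of the gradient. -/
noncomputable def Yf (q : V) : ℝ :=
  2 + phi F P q - (1 - P.γ) * (T F P q / P.mu (F.z q))
    * (P.mu (F.z q) - P.s * F.z q * P.R1 (F.z q))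

/-- The gradient of the gauge. -/
noncomputable def u (q : V) : V := phi F P q • F.x q + Yf F P q • F.e0 + Zf F P q • F.e1

/-- The point in the affine chart. -/
noncomputable def vv (q : V) : V := F.x q + F.e0 + (P.s * F.z q) • F.e1

/-- The parameter of a point of the open wedge. -/
noncomputable def pt (v : V) : V := (F.y v)⁻¹ • F.x v + (F.z v / (P.s * F.y v)) • F.e1

variable {F P}

@[simp] lemma x_vv (q : V) : F.x (vv F P q) = F.x q := by simp [vv]
@[simp] lemma y_vv (q : V) : F.y (vv F P q) = 1 := by simp [vv]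
@[simp] lemma z_vv (q : V) : F.z (vv F P q) = P.s * F.z q := by simp [vv]
@[simp] lemma x_u (q : V) : F.x (u F P q) = phi F P q • F.x q := by simp [u]
@[simp] lemma y_u (q : V) : F.y (u F P q) = Yf F P q := by simp [u]
@[simp] lemma z_u (q : V) : F.z (u F P q) = Zf F P q := by simp [u]
@[simp] lemma x_pt (v : V) : F.x (pt F P v) = (F.y v)⁻¹ • F.x v := by simp [pt]
@[simp] lemma z_pt (v : V) : F.z (pt F P v) = F.z v / (P.s * F.y v) := by simp [pt]

lemma rho_sq (q : V) : rho F q ^ 2 = 1 + ‖F.x q‖ ^ 2 := Real.sq_sqrt (by positivity)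

lemma one_le_rho (q : V) : 1 ≤ rho F q := by
  unfold rho
  rw [Real.one_le_sqrt]
  nlinarith [sq_nonneg ‖F.x q‖]

lemma rho_pos (q : V) : 0 < rho F q := lt_of_lt_of_le one_pos (one_le_rho q)

lemma norm_x_le_rho (q : V) : ‖F.x q‖ ≤ rho F q := by
  refine abs_le_of_sq_le_sq' ?_ (rho_pos q).le |>.2
  rw [rho_sq]; linarith

/-- `q` lies in the parameter strip. -/
def Strip (F : Frame V) : Set V := {q | 0 < 1 - F.z q ^ 2}

lemma mem_strip {q : V} : q ∈ Strip F ↔ 0 < 1 - F.z q ^ 2 := Iff.rfl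

lemma T_pos {q : V} (hq : q ∈ Strip F) : 0 < T F P q :=
  gm_pos (rho_pos q) (P.mu_pos (mem_strip.1 hq).le)

lemma T_le {q : V} (hq : q ∈ Strip F) : T F P q ≤ P.γ * rho F q + (1 - P.γ) * 2 := by
  have h := gm_le P.γ0.le P.γ1.le (rho_pos (F := F) q).le (P.mu_pos (mem_strip.1 hq).le).le
  have h2 := P.mu_le_two (mem_strip.1 hq).le
  have h5 := P.γ1
  unfold T
  nlinarith

/-- `f_ρ = 1 - γ T / ρ` is bounded below. -/
lemma fr_ge {q : V} (hq : q ∈ Strip F) : (1 - P.γ) ^ 2 ≤ 1 - P.γ * T F P q / rho F q := by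
  have h := T_le (P := P) hq
  have h1 := one_le_rho (F := F) q
  have h0 := rho_pos (F := F) q
  have hγ := P.γ0
  have hγ1 := P.γ1
  have : P.γ * T F P q / rho F q ≤ P.γ * (2 - P.γ) := by
    rw [div_le_iff₀ h0]
    have : P.γ * T F P q ≤ P.γ * (P.γ * rho F q + (1 - P.γ) * 2) :=
      mul_le_mul_of_nonneg_left h hγ.le
    nlinarith [mul_nonneg (mul_nonneg hγ.le (by linarith : 0 ≤ 1 - P.γ)) (by linarith : 0 ≤ rho F q - 1)]
  nlinarith

lemma fr_pos {q : V} (hq : q ∈ Strip F) : 0 < 1 - P.γ * T F P q / rho F q := by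
  have := fr_ge (P := P) hq
  have h5 : 0 < 1 - P.γ := by have := P.γ1; linarith
  have : 0 < (1 - P.γ) ^ 2 := by positivity
  linarith

lemma fr_le {q : V} (hq : q ∈ Strip F) : 1 - P.γ * T F P q / rho F q ≤ 1 := by
  have := T_pos (P := P) hq
  have h0 := rho_pos (F := F) q
  have := P.γ0
  have : 0 ≤ P.γ * T F P q / rho F q := by positivity
  linarith

lemma phi_pos {q : V} (hq : q ∈ Strip F) : 0 < phi F P q := div_pos (fr_pos hq) (rho_pos q)

lemma f_ge {q : V} (hq : q ∈ Strip F) : (1 - P.γ) * rho F q ≤ f F P q := by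
  have h := T_le (P := P) hq
  have hγ := P.γ0
  unfold f
  linarith

lemma f_le {q : V} (hq : q ∈ Strip F) : f F P q ≤ 3 * rho F q := by
  have h := T_pos (P := P) hq
  have h1 := one_le_rho (F := F) q
  unfold f
  linarith

lemma f_pos {q : V} (hq : q ∈ Strip F) : 0 < f F P q := by
  have := f_ge (P := P) hq
  have h5 : 0 < 1 - P.γ := by have := P.γ1; linarith
  have := mul_pos h5 (rho_pos (F := F) q)
  linarith

/-- Identity defining `Yf`. -/
lemma Yf_eq {q : V} (hq : q ∈ Strip F) :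
    Yf F P q = f F P q - ‖F.x q‖ ^ 2 * phi F P q - P.s * F.z q * Zf F P q := by
  have hm := (P.mu_pos (mem_strip.1 hq).le).ne'
  have hr := (rho_pos (F := F) q).ne'
  have h2 : ‖F.x q‖ ^ 2 = rho F q ^ 2 - 1 := by rw [rho_sq]; ring
  rw [h2]
  unfold Yf Zf f phi
  field_simp
  ring

/-- The supporting hyperplane inequality. -/
lemma inner_u_le {q v : V} (hq : q ∈ Strip F) (hv : v ∈ W F P) : ⟪u F P q, v⟫ ≤ g F P v := by
  have hm := P.mu_pos (mem_strip.1 hq).le
  have hr := rho_pos (F := F) q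
  have hT := T_pos (P := P) hq
  have hγ := P.γ0
  have hγ1 : 0 < 1 - P.γ := by have := P.γ1; linarith
  rw [F.inner_eq, x_u, y_u, z_u, inner_smul_left]
  simp only [conj_trivial]
  -- Cauchy-Schwarz
  have hCS : ⟪F.x q, F.x v⟫ + F.y v ≤ rho F q * rt F v := by
    have h1 := real_inner_le_norm (F.x q + F.e0) (F.w v)
    have h2 : ⟪F.x q + F.e0, F.w v⟫ = ⟪F.x q, F.x v⟫ + F.y v := by
      rw [F.inner_eq, F.w_eq]; simp
    have h3 : ‖F.x q + F.e0‖ = rho F q := by
      unfold rho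
      rw [eq_comm, Real.sqrt_eq_iff_mul_self_eq (by positivity) (norm_nonneg _), ← pow_two,
        F.norm_sq (F.x q + F.e0)]
      simp only [map_add, F.x_x, F.x_e0, F.y_x, F.y_e0, F.z_x, F.z_e0]
      simp; ring
    rw [h2, h3] at h1
    exact h1
  have hM := M_le_tangent hv (mem_strip.1 hq)
  have hgm := gm_tangent P.γ0 P.γ1 (rt_nonneg (F := F) v) (M_nonneg hv) hr hm
  change gm P.γ (rt F v) (M F P v) ≤ P.γ * (T F P q / rho F q) * rt F v
    + (1 - P.γ) * (T F P q / P.mu (F.z q)) * M F P v at hgm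
  have h1 : phi F P q * (⟪F.x q, F.x v⟫ + F.y v) ≤ (1 - P.γ * T F P q / rho F q) * rt F v := by
    have := mul_le_mul_of_nonneg_left hCS (phi_pos (P := P) hq).le
    refine this.trans (le_of_eq ?_)
    unfold phi
    field_simp
  have h2 : (1 - P.γ) * (T F P q / P.mu (F.z q)) * M F P v
      ≤ (1 - P.γ) * (T F P q / P.mu (F.z q)) *
        (F.y v * (P.mu (F.z q) - P.s * F.z q * P.R1 (F.z q)) + F.z v * P.R1 (F.z q)) :=
    mul_le_mul_of_nonneg_left hM (by positivity)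
  have h3 : P.γ * (T F P q / rho F q) * rt F v = P.γ * T F P q / rho F q * rt F v := by ring
  rw [h3] at hgm
  unfold g Yf Zf
  nlinarith [h1, h2, hgm]

/-! ### Values at the points `vv q` -/

lemma rt_vv (q : V) : rt F (vv F P q) = rho F q := by
  refine (sq_eq_sq₀ (rt_nonneg _) (rho_pos q).le).1 ?_
  rw [rt_sq, rho_sq, x_vv, y_vv]; ring

lemma M_vv (q : V) : M F P (vv F P q) = P.mu (F.z q) := by
  unfold M
  rw [y_vv, z_vv, mul_one, one_mul, mul_div_cancel_left₀ _ P.s0.ne']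

lemma g_vv (q : V) : g F P (vv F P q) = f F P q := by
  unfold g f T
  rw [rt_vv, M_vv, y_vv]; ring

lemma abs_z_lt_one {q : V} (hq : q ∈ Strip F) : |F.z q| < 1 := by
  rw [← sq_lt_one_iff_abs_lt_one]
  have := mem_strip.1 hq
  linarith

lemma vv_mem_Wo {q : V} (hq : q ∈ Strip F) : vv F P q ∈ Wo F P := by
  rw [mem_Wo, z_vv, y_vv, abs_mul, abs_of_pos P.s0]
  exact mul_lt_mul_of_pos_left (abs_z_lt_one hq) P.s0

lemma inner_u_vv (q q' : V) : ⟪u F P q, vv F P q'⟫ =
    phi F P q * ⟪F.x q, F.x q'⟫ + Yf F P q + P.s * F.z q' * Zf F P q := by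
  rw [F.inner_eq, x_u, y_u, z_u, x_vv, y_vv, z_vv, inner_smul_left]
  simp only [conj_trivial]
  ring

lemma inner_u_vv_self {q : V} (hq : q ∈ Strip F) : ⟪u F P q, vv F P q⟫ = f F P q := by
  rw [inner_u_vv, Yf_eq hq, real_inner_self_eq_norm_sq]; ring

lemma cs_strict {q q' : V} (h : F.x q ≠ F.x q') :
    ⟪F.x q, F.x q'⟫ + 1 < rho F q * rho F q' := by
  refine lt_of_pow_lt_pow_left₀ 2 (mul_pos (rho_pos q) (rho_pos q')).le ?_
  rw [mul_pow, rho_sq, rho_sq]
  have h1 : ⟪F.x q, F.x q'⟫ ^ 2 ≤ ‖F.x q‖ ^ 2 * ‖F.x q'‖ ^ 2 := by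
    rw [← mul_pow, ← sq_abs]
    exact pow_le_pow_left₀ (abs_nonneg _) (abs_real_inner_le_norm _ _) 2
  have h2 : 0 < ‖F.x q - F.x q'‖ ^ 2 := by
    have := norm_pos_iff.2 (sub_ne_zero.2 h)
    positivity
  rw [norm_sub_sq_real] at h2
  nlinarith

/-- Strict version of the supporting inequality. -/
lemma inner_u_vv_lt {q q' : V} (hq : q ∈ Strip F) (hq' : q' ∈ Strip F)
    (h : F.x q ≠ F.x q' ∨ F.z q ≠ F.z q') : ⟪u F P q, vv F P q'⟫ < f F P q' := by
  have hm := P.mu_pos (mem_strip.1 hq).le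
  have hm' := P.mu_pos (mem_strip.1 hq').le
  have hr := rho_pos (F := F) q
  have hr' := rho_pos (F := F) q'
  have hT := T_pos (P := P) hq
  have hγ := P.γ0
  have hγ1 : 0 < 1 - P.γ := by have := P.γ1; linarith
  have hphi := phi_pos (P := P) hq
  have hgm := gm_tangent P.γ0 P.γ1 hr'.le hm'.le hr hm
  change T F P q' ≤ P.γ * (T F P q / rho F q) * rho F q'
    + (1 - P.γ) * (T F P q / P.mu (F.z q)) * P.mu (F.z q') at hgm
  have e1 : phi F P q * (rho F q * rho F q') = rho F q' - P.γ * (T F P q / rho F q) * rho F q' := by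
    unfold phi; field_simp
  have e2 : ⟪u F P q, vv F P q'⟫ = phi F P q * (⟪F.x q, F.x q'⟫ + 1) + 2
      - (1 - P.γ) * (T F P q / P.mu (F.z q)) *
        (P.mu (F.z q) + P.s * P.R1 (F.z q) * (F.z q' - F.z q)) := by
    rw [inner_u_vv]; unfold Yf Zf; ring
  rw [e2]
  have hc : 0 < (1 - P.γ) * (T F P q / P.mu (F.z q)) := by positivity
  have hcs : ⟪F.x q, F.x q'⟫ + 1 ≤ rho F q * rho F q' := by
    by_cases hx : F.x q = F.x q'
    · have : rho F q = rho F q' := by unfold rho; rw [hx]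
      rw [hx, this, real_inner_self_eq_norm_sq, ← pow_two, rho_sq]; linarith
    · exact (cs_strict hx).le
  have hmt := P.mu_tangent_le (mem_strip.1 hq').le (mem_strip.1 hq)
  unfold f
  rcases h with h | h
  · have h1 := mul_lt_mul_of_pos_left (cs_strict h) hphi
    have h2 := mul_le_mul_of_nonneg_left hmt hc.le
    linarith
  · have h1 := mul_le_mul_of_nonneg_left hcs hphi.le
    have h2 := mul_lt_mul_of_pos_left
      (P.mu_tangent_lt (mem_strip.1 hq').le (mem_strip.1 hq) (Ne.symm h)) hc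
    linarith

/-! ### The parameter of a point -/

lemma pt_mem_strip {v : V} (hv : v ∈ Wo F P) : pt F P v ∈ Strip F := by
  rw [mem_strip, z_pt]; exact ratio_lt hv

lemma smul_vv_pt {v : V} (hv : v ∈ Wo F P) : F.y v • vv F P (pt F P v) = v := by
  have hy := (y_pos hv).ne'
  have hs := P.s0.ne'
  conv_rhs => rw [F.decomp v]
  unfold vv
  rw [x_pt, z_pt, smul_add, smul_add, smul_smul, mul_inv_cancel₀ hy, one_smul, smul_smul]
  congr 2
  field_simp

lemma g_eq {v : V} (hv : v ∈ Wo F P) : g F P v = F.y v * f F P (pt F P v) := by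
  conv_lhs => rw [← smul_vv_pt hv]
  rw [g_smul (Wo_subset_W (vv_mem_Wo (pt_mem_strip hv))) (y_pos hv).le, g_vv]

lemma rt_eq {v : V} (hv : v ∈ Wo F P) : rt F v = F.y v * rho F (pt F P v) := by
  conv_lhs => rw [← smul_vv_pt hv]
  rw [rt_smul (y_pos hv).le, rt_vv]

lemma M_eq {v : V} (hv : v ∈ Wo F P) : M F P v = F.y v * P.mu (F.z (pt F P v)) := by
  conv_lhs => rw [← smul_vv_pt hv]
  rw [M_smul (y_pos hv).le, M_vv]

lemma gm_eq {v : V} (hv : v ∈ Wo F P) :
    gm P.γ (rt F v) (M F P v) = F.y v * T F P (pt F P v) := by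
  rw [rt_eq hv, M_eq hv, gm_smul (y_pos hv).le (rho_pos _).le
    (P.mu_pos (mem_strip.1 (pt_mem_strip hv)).le).le P.γ0 P.γ1]
  rfl

/-- Derivative of the weighted geometric mean. -/
lemma HasFDerivAt.gm {E : Type*} [NormedAddCommGroup E] [NormedSpace ℝ E] {γ : ℝ} {a b : E → ℝ}
    {a' b' : E →L[ℝ] ℝ} {v : E} (ha : HasFDerivAt a a' v) (hb : HasFDerivAt b b' v)
    (hap : 0 < a v) (hbp : 0 < b v) :
    HasFDerivAt (fun w => gm γ (a w) (b w))
      ((γ * (gm γ (a v) (b v) / a v)) • a' + ((1 - γ) * (gm γ (a v) (b v) / b v)) • b') v := by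
  have h1 := ha.rpow_const (p := γ) (Or.inl hap.ne')
  have h2 := hb.rpow_const (p := 1 - γ) (Or.inl hbp.ne')
  have h3 := h1.mul h2
  refine h3.congr_fderiv ?_
  have e1 : (a v) ^ (γ - 1) = (a v) ^ γ / a v := Real.rpow_sub_one hap.ne' γ
  have e2 : (b v) ^ (1 - γ - 1) = (b v) ^ (1 - γ) / b v := Real.rpow_sub_one hbp.ne' (1 - γ)
  rw [e1, e2]
  ext w
  simp only [add_apply, smul_apply, smul_eq_mul]
  unfold Pool.Agent.Lib.MP_1f66ea_an.gm
  ring

lemma hasFDerivAt_rt {v : V} (hv : 0 < rt F v) :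
    HasFDerivAt (rt F) ((rt F v)⁻¹ • innerSL ℝ (F.w v)) v := by
  have h1 : HasFDerivAt (fun w => ‖F.w w‖ ^ 2) (2 • (innerSL ℝ (F.w v)).comp F.w) v :=
    (F.w.hasFDerivAt (x := v)).norm_sq
  have h2 : HasFDerivAt (fun w => √(‖F.w w‖ ^ 2))
      ((1 / (2 * √(‖F.w v‖ ^ 2))) • (2 • (innerSL ℝ (F.w v)).comp F.w)) v :=
    h1.sqrt (by have : 0 < ‖F.w v‖ := hv; positivity)
  have h3 : (fun w => √(‖F.w w‖ ^ 2)) = rt F := by
    ext w; rw [Real.sqrt_sq (norm_nonneg _)]; rfl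
  rw [h3] at h2
  refine h2.congr_fderiv ?_
  rw [Real.sqrt_sq (norm_nonneg _)]
  ext w
  have hv' : ‖F.w v‖ ≠ 0 := (show 0 < ‖F.w v‖ from hv).ne'
  simp only [smul_apply, ContinuousLinearMap.comp_apply, innerSL_apply_apply, smul_eq_mul,
    nsmul_eq_mul]
  have e : ⟪F.w v, F.w w⟫ = ⟪F.w v, w⟫ := by
    rw [F.inner_w_left, F.inner_w_left, F.w_eq w]; simp
  rw [e]
  unfold rt
  field_simp
  norm_num

lemma hasFDerivAt_M {v : V} (hv : v ∈ Wo F P) :
    HasFDerivAt (M F P) ((P.mu (F.z (pt F P v)) - P.s * F.z (pt F P v) * P.R1 (F.z (pt F P v))) • F.y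
      + P.R1 (F.z (pt F P v)) • F.z) v := by
  have hy := y_pos hv
  have hp : P.s * F.y v ≠ 0 := (mul_pos P.s0 hy).ne'
  have h1 : HasFDerivAt (fun w => P.s * F.y w) (P.s • F.y) v := F.y.hasFDerivAt.const_mul P.s
  have h2 : HasFDerivAt (fun w => F.z w / (P.s * F.y w))
      ((P.s * F.y v)⁻¹ • F.z - (F.z v / (P.s * F.y v) ^ 2) • (P.s • F.y)) v := by
    have h1' := (hasDerivAt_inv hp).comp_hasFDerivAt v h1
    have := (F.z.hasFDerivAt (x := v)).mul h1'
    have e : (fun w => F.z w / (P.s * F.y w)) = (F.z * (Inv.inv ∘ fun w => P.s * F.y w) : V → ℝ) := by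
      ext w; simp [div_eq_mul_inv]
    rw [e]
    refine this.congr_fderiv ?_
    ext w
    simp only [smul_apply, sub_apply, add_apply, smul_eq_mul, Function.comp]
    field_simp
    ring
  have h3 : HasDerivAt P.mu (P.s * P.R1 (F.z v / (P.s * F.y v))) (F.z v / (P.s * F.y v)) := by
    have := (P.hasDerivAt_R (ratio_lt hv)).const_mul P.s
    exact this.const_add 1
  have h4 := (F.y.hasFDerivAt (x := v)).mul (h3.comp_hasFDerivAt v h2)
  refine h4.congr_fderiv ?_
  rw [z_pt]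
  ext w
  have hs := P.s0.ne'
  have hy' := hy.ne'
  simp only [smul_apply, sub_apply, add_apply, smul_eq_mul, Function.comp]
  field_simp
  ring

/-- The gauge is differentiable in the open wedge, with gradient `u (pt v)`. -/
lemma hasFDerivAt_g {v : V} (hv : v ∈ Wo F P) :
    HasFDerivAt (g F P) (innerSL ℝ (u F P (pt F P v))) v := by
  have hrt := rt_pos (Wo_subset_W hv) (ne_zero_of_mem_Wo hv)
  have h1 := hasFDerivAt_rt hrt
  have h2 := hasFDerivAt_M hv
  have h3 := HasFDerivAt.gm (γ := P.γ) h1 h2 hrt (M_pos hv)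
  have h4 := (h1.add (F.y.hasFDerivAt.const_mul 2)).sub h3
  refine h4.congr_fderiv ?_
  have hy := (y_pos hv).ne'
  have hq := pt_mem_strip hv
  have hm := (P.mu_pos (mem_strip.1 hq).le).ne'
  have hr := (rho_pos (F := F) (pt F P v)).ne'
  rw [gm_eq hv, M_eq hv, rt_eq hv]
  ext w
  simp only [smul_apply, sub_apply, add_apply, smul_eq_mul, innerSL_apply_apply]
  rw [F.inner_w_left, F.inner_eq (u F P (pt F P v)) w, x_u, y_u, z_u, x_pt, smul_smul,
    inner_smul_left]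
  simp only [conj_trivial]
  unfold Yf Zf phi
  field_simp
  ring

end Pool.Agent.Lib.MP_1f66ea_an
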