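import Pool.Agent.Lib.MP_1f66ea_an.Param
import Pool.Agent.Lib.MP_1f66ea_an.Defs

/-!
# Generalised polar coordinates
-/

namespace Pool.Agent.Lib.MP_1f66ea_an

open scoped RealInnerProductSpace ENNReal Pointwise
open Set MeasureTheory Metric

variable {V : Type*} [NormedAddCommGroup V] [InnerProductSpace ℝ V] (F : Frame V)

lemma norm_e0 : ‖F.e0‖ = 1 := by
  have := F.h00
  rw [real_inner_self_eq_norm_sq] at this
  exact (pow_eq_one_iff_of_nonneg (norm_nonneg _) two_ne_zero).1 this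

open Classical in
/-- Normalised direction. -/
noncomputable def dir (v : V) : sphere (0 : V) 1 :=
  ⟨if v = 0 then F.e0 else ‖v‖⁻¹ • v, by
    rw [mem_sphere_zero_iff_norm]
    split_ifs with h
    · exact norm_e0 F
    · rw [norm_smul, norm_inv, norm_norm, inv_mul_cancel₀ (norm_ne_zero_iff.2 h)]⟩

variable {F}

lemma dir_coe {v : V} (hv : v ≠ 0) : (dir F v : V) = ‖v‖⁻¹ • v := by
  simp [dir, hv]

lemma dir_eq_of_smul {v : V} {w : sphere (0 : V) 1} {c : ℝ} (hc : 0 < c)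
    (h : v = c • (w : V)) : dir F v = w := by
  have hw : ‖(w : V)‖ = 1 := by simp
  have hv : v ≠ 0 := by
    rw [h]
    exact smul_ne_zero hc.ne' (by rw [← norm_pos_iff, hw]; exact one_pos)
  apply Subtype.ext
  rw [dir_coe hv, h, norm_smul, hw, mul_one, Real.norm_of_nonneg hc.le, smul_smul,
    inv_mul_cancel₀ hc.ne', one_smul]

lemma measurable_dir [FiniteDimensional ℝ V] [MeasurableSpace V] [BorelSpace V] :
    Measurable (dir F) := by
  classical
  refine Measurable.subtype_mk ?_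
  refine Measurable.ite (measurableSet_singleton 0) measurable_const ?_
  exact (measurable_norm.inv).smul measurable_id

variable (F)

/-- The radial extension `q ↦ y(q) B(q) / |B(q)|`. -/
noncomputable def rad (B : V → V) (q : V) : V := (F.y q * ‖B q‖⁻¹) • B q

/-- The domain of the parametrisations. -/
def U : Set V := {q | 0 < F.y q ∧ F.y q < 1 ∧ q ∈ Strip F}

variable {F}

lemma isOpen_strip : IsOpen (Strip F) :=
  isOpen_lt continuous_const (by fun_prop)

lemma isOpen_U : IsOpen (U F) :=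
  (isOpen_lt continuous_const F.y.continuous).inter
    ((isOpen_lt F.y.continuous continuous_const).inter isOpen_strip)

/-! ### Derivatives -/

lemma hasFDerivAt_axial {φ Y Z : V → ℝ} {dφ dY dZ : V →L[ℝ] ℝ} {q : V}
    (hφ : HasFDerivAt φ dφ q) (hY : HasFDerivAt Y dY q) (hZ : HasFDerivAt Z dZ q) :
    HasFDerivAt (fun q => φ q • F.x q + Y q • F.e0 + Z q • F.e1)
      (F.axial (φ q) (F.x q) dφ dY dZ) q := by
  have h1 := hφ.smul (F.x.hasFDerivAt (x := q))
  have h2 := hY.smul_const F.e0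
  have h3 := hZ.smul_const F.e1
  exact (h1.add h2).add h3

lemma exists_scalar_deriv {B : V → V} {B' : V →L[ℝ] V} {q : V} (hB : HasFDerivAt B B' q)
    (h0 : B' F.e0 = 0) (hne : B q ≠ 0) :
    ∃ dσ : V →L[ℝ] ℝ, HasFDerivAt (fun q => F.y q * ‖B q‖⁻¹) dσ q ∧ dσ F.e0 = ‖B q‖⁻¹ := by
  have hn : DifferentiableAt ℝ (fun v : V => ‖v‖) (B q) :=
    (contDiffAt_norm ℝ hne (n := 1)).differentiableAt one_ne_zero
  have h1 := hn.hasFDerivAt.comp q hB
  have h2 := (hasDerivAt_inv (norm_ne_zero_iff.2 hne)).comp_hasFDerivAt q h1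
  have h3 := (F.y.hasFDerivAt (x := q)).mul h2
  refine ⟨_, h3, ?_⟩
  simp only [add_apply, smul_apply, ContinuousLinearMap.comp_apply, h0, map_zero, smul_eq_mul,
    mul_zero, zero_add, Function.comp, F.y_e0, mul_one]

lemma det_rad [FiniteDimensional ℝ V] {m : ℕ} (hn : Module.finrank ℝ V = m + 3)
    {φ Y Z : V → ℝ} {dφ dY dZ : V →L[ℝ] ℝ} {q : V}
    (hφ : HasFDerivAt φ dφ q) (hY : HasFDerivAt Y dY q) (hZ : HasFDerivAt Z dZ q)
    (eφ : dφ F.e0 = 0) (eY : dY F.e0 = 0) (eZ : dZ F.e0 = 0) (hφpos : 0 < φ q) (hy : 0 < F.y q)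
    {B : V → V} (hB : ∀ q, B q = φ q • F.x q + Y q • F.e0 + Z q • F.e1) (hne : B q ≠ 0) :
    ∃ L : V →L[ℝ] V, HasFDerivAt (rad F B) L q ∧ L.det =
      (F.y q) ^ (m + 2) * (‖B q‖⁻¹) ^ (m + 3) * (φ q) ^ m *
      ((φ q + dφ (F.x q)) * (Y q * dZ F.e1 - dY F.e1 * Z q)
        - φ q * (dY (F.x q) * dZ F.e1 - dY F.e1 * dZ (F.x q))
        + dφ F.e1 * (dY (F.x q) * Z q - Y q * dZ (F.x q))) := by
  have hBeq : B = fun q => φ q • F.x q + Y q • F.e0 + Z q • F.e1 := funext hB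
  have hBd : HasFDerivAt B (F.axial (φ q) (F.x q) dφ dY dZ) q := by
    rw [hBeq]; exact hasFDerivAt_axial hφ hY hZ
  have hB0 : F.axial (φ q) (F.x q) dφ dY dZ F.e0 = 0 := by
    simp [Frame.axial, eφ, eY, eZ]
  obtain ⟨dσ, hσ, hσ0⟩ := exists_scalar_deriv hBd hB0 hne
  have hBn : 0 < ‖B q‖ := norm_pos_iff.2 hne
  have hrad : rad F B = fun q => (F.y q * ‖B q‖⁻¹ * φ q) • F.x q
      + (F.y q * ‖B q‖⁻¹ * Y q) • F.e0 + (F.y q * ‖B q‖⁻¹ * Z q) • F.e1 := by
    ext w
    unfold rad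
    rw [congrArg ((F.y w * ‖B w‖⁻¹) • ·) (hB w)]
    module
  have hd : HasFDerivAt (rad F B) (F.axial (F.y q * ‖B q‖⁻¹ * φ q) (F.x q)
      ((F.y q * ‖B q‖⁻¹) • dφ + φ q • dσ) ((F.y q * ‖B q‖⁻¹) • dY + Y q • dσ)
      ((F.y q * ‖B q‖⁻¹) • dZ + Z q • dσ)) q := by
    rw [hrad]
    exact hasFDerivAt_axial (hσ.mul hφ) (hσ.mul hY) (hσ.mul hZ)
  refine ⟨_, hd, ?_⟩
  rw [F.det_axial (by positivity) (F.x_x q) _ _ _ m hn]
  simp only [add_apply, smul_apply, smul_eq_mul, eφ, eY, eZ, hσ0]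
  rw [mul_pow, mul_pow, pow_add (F.y q) m 2, pow_add (‖B q‖⁻¹) m 3]
  ring

/-! ### The spherical measure in the parametrisation -/

lemma injOn_rad {B : V → V} (hinv : ∀ q q', F.x q = F.x q' → F.z q = F.z q' → B q = B q')
    (hne : ∀ q ∈ Strip F, B q ≠ 0)
    (hinj : ∀ q ∈ Strip F, ∀ q' ∈ Strip F, ∀ c : ℝ, 0 < c → B q = c • B q' →
      F.x q = F.x q' ∧ F.z q = F.z q') : InjOn (rad F B) (U F) := by
  intro q hq q' hq' h
  have hB := norm_pos_iff.2 (hne q hq.2.2)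
  have hB' := norm_pos_iff.2 (hne q' hq'.2.2)
  have hy := hq.1
  have hy' := hq'.1
  unfold rad at h
  have h1 : B q = ((F.y q * ‖B q‖⁻¹)⁻¹ * (F.y q' * ‖B q'‖⁻¹)) • B q' := by
    rw [mul_smul, ← h, smul_smul, inv_mul_cancel₀ (by positivity), one_smul]
  obtain ⟨hx, hz⟩ := hinj q hq.2.2 q' hq'.2.2 _ (by positivity) h1
  have hBB := hinv q q' hx hz
  have h2 : F.y q = F.y q' := by
    have := congrArg norm h
    rw [norm_smul, norm_smul, Real.norm_of_nonneg (by positivity),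
      Real.norm_of_nonneg (by positivity), mul_assoc, mul_assoc, inv_mul_cancel₀ hB.ne',
      inv_mul_cancel₀ hB'.ne', mul_one, mul_one] at this
    exact this
  rw [F.decomp q, F.decomp q', hx, hz, h2]

lemma rad_eq {B : V → V} {q : V} (hne : B q ≠ 0) : rad F B q = F.y q • (dir F (B q) : V) := by
  rw [dir_coe hne, smul_smul]; rfl

variable [FiniteDimensional ℝ V] [MeasurableSpace V] [BorelSpace V]

lemma null_x (hn : 3 ≤ Module.finrank ℝ V) : (volume : Measure V) {v | F.x v = 0} = 0 := by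
  have h : {v : V | F.x v = 0} = ((LinearMap.ker (F.x : V →ₗ[ℝ] V) : Submodule ℝ V) : Set V) := by
    ext v; simp
  rw [h]
  refine Measure.addHaar_submodule volume _ ?_
  intro htop
  -- then every vector is in the span of two vectors
  have h1 : ∀ v : V, v ∈ Submodule.span ℝ ({F.e0, F.e1} : Set V) := by
    intro v
    have hv : F.x v = 0 := by
      have : v ∈ (LinearMap.ker (F.x : V →ₗ[ℝ] V) : Submodule ℝ V) := by rw [htop]; trivial
      simpa using this
    rw [Submodule.mem_span_pair]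
    refine ⟨F.y v, F.z v, ?_⟩
    conv_rhs => rw [F.decomp v, hv, zero_add]
  have h2 : (⊤ : Submodule ℝ V) = Submodule.span ℝ ({F.e0, F.e1} : Set V) := by
    symm; rw [eq_top_iff]; intro v _; exact h1 v
  have h3 : Module.finrank ℝ (⊤ : Submodule ℝ V) ≤ 2 := by
    rw [h2]
    classical
    have h4 : ({F.e0, F.e1} : Set V) = (({F.e0, F.e1} : Finset V) : Set V) := by simp
    rw [h4]
    refine (finrank_span_finset_le_card _).trans Finset.card_le_two
  rw [finrank_top] at h3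
  omega

/-- The spherical measure in terms of a parametrisation of directions. -/
lemma polar_measure {m : ℕ} (hn : Module.finrank ℝ V = m + 3) {B : V → V}
    {L : V → (V →L[ℝ] V)} {J : V → ℝ} {O : Set (sphere (0 : V) 1)}
    (hB : Measurable B)
    (hinv : ∀ q q', F.x q = F.x q' → F.z q = F.z q' → B q = B q')
    (hne : ∀ q ∈ Strip F, B q ≠ 0)
    (hinj : ∀ q ∈ Strip F, ∀ q' ∈ Strip F, ∀ c : ℝ, 0 < c → B q = c • B q' →
      F.x q = F.x q' ∧ F.z q = F.z q')
    (hder : ∀ q ∈ U F, HasFDerivAt (rad F B) (L q) q)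
    (hdet : ∀ q ∈ U F, |(L q).det| = J q)
    (hO : MeasurableSet O) (h1 : ∀ q ∈ Strip F, dir F (B q) ∈ O)
    (h2 : ∀ w ∈ O, F.x w ≠ 0 → ∃ q ∈ Strip F, dir F (B q) = w)
    {ω : Set (sphere (0 : V) 1)} (hω : MeasurableSet ω) :
    sph V (ω ∩ O) = ((m + 3 : ℕ) : ℝ≥0∞) *
      ∫⁻ q in U F ∩ {q | dir F (B q) ∈ ω}, ENNReal.ofReal (J q) := by
  have hmeas : MeasurableSet (U F ∩ {q | dir F (B q) ∈ ω}) :=
    isOpen_U.measurableSet.inter ((measurable_dir.comp hB) hω)
  unfold sph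
  rw [Measure.toSphere_apply' _ (hω.inter hO), hn]
  congr 1
  -- change of variables
  have e1 : ∫⁻ q in U F ∩ {q | dir F (B q) ∈ ω}, ENNReal.ofReal (J q)
      = ∫⁻ q in U F ∩ {q | dir F (B q) ∈ ω}, ENNReal.ofReal |(L q).det| := by
    refine setLIntegral_congr_fun hmeas fun q hq => ?_
    simp only [hdet q hq.1]
  rw [e1, lintegral_abs_det_fderiv_eq_addHaar_image volume hmeas
    (fun q hq => (hder q hq.1).hasFDerivWithinAt)
    ((injOn_rad hinv hne hinj).mono inter_subset_left)]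
  refine measure_congr ?_
  -- equality up to a null set
  have hnull := null_x (F := F) (by omega : 3 ≤ Module.finrank ℝ V)
  have hae : ∀ᵐ v : V, F.x v ≠ 0 := by
    rw [ae_iff]; simpa using hnull
  filter_upwards [hae] with v hv
  refine propext ⟨?_, ?_⟩
  · rintro ⟨t, ht, _, ⟨w, hw, rfl⟩, rfl⟩
    have hxw : F.x (w : V) ≠ 0 := by
      intro h0
      apply hv
      simp only [map_smul, h0, smul_zero]
    obtain ⟨q0, hq0, hq0'⟩ := h2 w hw.2 hxw
    refine ⟨F.x q0 + t • F.e0 + F.z q0 • F.e1, ?_, ?_⟩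
    · have hs : F.x q0 + t • F.e0 + F.z q0 • F.e1 ∈ Strip F := by
        rw [mem_strip]; simpa using mem_strip.1 hq0
      refine ⟨⟨?_, ?_, hs⟩, ?_⟩
      · simpa using ht.1
      · simpa using ht.2
      · have : B (F.x q0 + t • F.e0 + F.z q0 • F.e1) = B q0 := hinv _ _ (by simp) (by simp)
        change dir F (B _) ∈ ω
        rw [this, hq0']; exact hw.1
    · have hB0 : B (F.x q0 + t • F.e0 + F.z q0 • F.e1) = B q0 := hinv _ _ (by simp) (by simp)
      rw [rad_eq (by rw [hB0]; exact hne _ hq0), hB0, hq0']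
      simp
  · rintro ⟨q, hq, rfl⟩
    rw [rad_eq (hne q hq.1.2.2)]
    exact ⟨F.y q, ⟨hq.1.1, hq.1.2.1⟩, _, ⟨dir F (B q), ⟨hq.2, h1 q hq.1.2.2⟩, rfl⟩, rfl⟩

end Pool.Agent.Lib.MP_1f66ea_an
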